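import Pool.Agent.X168.BU.Blow
import Pool.Agent.Y519.AS.Darb

/-! Discs which are symplectic at their centres. -/

set_option autoImplicit false

open Set Filter Topology
open scoped Manifold ContDiff

noncomputable section

namespace Pool.Agent.X168.BU

variable {d : ℕ}

theorem alt_swap (t : (V d) [⋀^Fin 2]→L[ℝ] ℝ) (u v : V d) : t ![u, v] = - t ![v, u] := by
  have h := t.toAlternatingMap.map_swap ![v, u] (i := 0) (j := 1) (by decide)
  have e : (![v, u] : Fin 2 → V d) ∘ (Equiv.swap (0 : Fin 2) 1) = ![u, v] := by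
    funext i
    fin_cases i
    · simp
    · simp
  rw [e] at h
  exact h

theorem alt_add (t : (V d) [⋀^Fin 2]→L[ℝ] ℝ) (u u' v : V d) :
    t ![u + u', v] = t ![u, v] + t ![u', v] := by
  have h := t.toMultilinearMap.map_update_add ![u, v] 0 u u'
  have e : ∀ x : V d, Function.update (![u, v] : Fin 2 → V d) 0 x = ![x, v] := by
    intro x
    funext i
    fin_cases i <;> simp
  rw [e, e, e] at h
  exact h

theorem alt_smul (t : (V d) [⋀^Fin 2]→L[ℝ] ℝ) (r : ℝ) (u v : V d) :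
    t ![r • u, v] = r * t ![u, v] := by
  have h := t.toMultilinearMap.map_update_smul ![u, v] 0 r u
  have e : ∀ x : V d, Function.update (![u, v] : Fin 2 → V d) 0 x = ![x, v] := by
    intro x
    funext i
    fin_cases i <;> simp
  rw [e, e] at h
  exact h

/-- an alternating form as a bilinear form -/
def bil (t : (V d) [⋀^Fin 2]→L[ℝ] ℝ) : V d →ₗ[ℝ] V d →ₗ[ℝ] ℝ :=
  LinearMap.mk₂ ℝ (fun u v => t ![u, v]) (alt_add t) (fun r u v => alt_smul t r u v)
    (fun u v w => by rw [alt_swap, alt_add, alt_swap t u v, alt_swap t u w]; ring)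
    (fun r u v => by rw [alt_swap, alt_smul, alt_swap t u v]; simp)

theorem bil_apply (t : (V d) [⋀^Fin 2]→L[ℝ] ℝ) (u v : V d) : bil t u v = t ![u, v] := rfl

theorem finrank_V : Module.finrank ℝ (V d) = 2 * d := by
  rw [Module.finrank_pi_fintype]
  simp [Complex.finrank_real_complex]
  ring

open Pool.Agent.Y519.AS in
theorem exists_lin (t : (V d) [⋀^Fin 2]→L[ℝ] ℝ) (ht : ∀ u, (∀ v, t ![u, v] = 0) → u = 0) :
    ∃ L : V d ≃L[ℝ] V d, ∀ u v, t ![L u, L v] = om u v := by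
  obtain ⟨b, hb⟩ := exists_basis (k := d) (bil t) (fun v => by
    have := alt_swap t v v
    rw [bil_apply]; linarith) (fun u hu => ht u hu) finrank_V
  set L0 : V d →ₗ[ℝ] V d := ∑ i, ((Complex.reLm.comp (LinearMap.proj i)).smulRight (b (i, 0)) +
    (Complex.imLm.comp (LinearMap.proj i)).smulRight (b (i, 1))) with hL0
  have hL : ∀ u, L0 u = ∑ i, ((u i).re • b (i, 0) + (u i).im • b (i, 1)) := by
    intro u
    simp [hL0]
  have key : ∀ u v, t ![L0 u, L0 v] = om u v := by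
    intro u v
    rw [← bil_apply, hL, hL]
    simp only [map_sum, map_add, map_smul, LinearMap.sum_apply, LinearMap.add_apply,
      LinearMap.smul_apply, hb, smul_eq_mul, Jst]
    simp [om, Finset.sum_add_distrib, Finset.sum_sub_distrib]
    have e1 : ∑ x, (v x).re * (u x).im = ∑ x, (u x).im * (v x).re :=
      Finset.sum_congr rfl fun x _ => mul_comm _ _
    have e2 : ∑ x, (v x).im * (u x).re = ∑ x, (u x).re * (v x).im :=
      Finset.sum_congr rfl fun x _ => mul_comm _ _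
    rw [e1, e2]
    ring
  have hinj : Function.Injective L0 := by
    rw [injective_iff_map_eq_zero]
    intro u hu
    have h1 := key u (Complex.I • u)
    rw [hu, om_I] at h1
    have h2 : t ![0, L0 (Complex.I • u)] = 0 := by
      have := alt_smul t 0 0 (L0 (Complex.I • u))
      simpa using this
    rw [h2] at h1
    exact nsq_eq_zero.1 h1.symm
  refine ⟨(LinearEquiv.ofInjectiveEndo L0 hinj).toContinuousLinearEquiv, fun u v => ?_⟩
  exact key u v

/-- squeezing `ℂᵈ` in a ball -/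
def rho (δ : ℝ) (v : V d) : V d := (Real.sqrt (1 + nsq v / δ ^ 2))⁻¹ • v

/-- the inverse of `rho` -/
def rhoi (δ : ℝ) (v : V d) : V d := (Real.sqrt (1 - nsq v / δ ^ 2))⁻¹ • v

theorem nsq_rho {δ : ℝ} (hδ : 0 < δ) (v : V d) :
    nsq (rho δ v) = nsq v / (1 + nsq v / δ ^ 2) := by
  have h1 := nsq_nonneg v
  have h2 : 0 < 1 + nsq v / δ ^ 2 := by positivity
  unfold rho
  rw [nsq_rsmul, inv_pow, Real.sq_sqrt h2.le]
  field_simp

theorem nsq_rho_lt {δ : ℝ} (hδ : 0 < δ) (v : V d) : nsq (rho δ v) < δ ^ 2 := by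
  have h1 := nsq_nonneg v
  have h2 : 0 < 1 + nsq v / δ ^ 2 := by positivity
  rw [nsq_rho hδ, div_lt_iff₀ h2]
  have h3 : δ ^ 2 * (1 + nsq v / δ ^ 2) = δ ^ 2 + nsq v := by field_simp
  rw [h3]
  have : 0 < δ ^ 2 := by positivity
  linarith

theorem rhoi_rho {δ : ℝ} (hδ : 0 < δ) (v : V d) : rhoi δ (rho δ v) = v := by
  have h1 := nsq_nonneg v
  have h2 : 0 < 1 + nsq v / δ ^ 2 := by positivity
  have h3 : 1 - nsq (rho δ v) / δ ^ 2 = (1 + nsq v / δ ^ 2)⁻¹ := by
    rw [nsq_rho hδ]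
    field_simp
    ring
  have h4 : 0 < Real.sqrt (1 + nsq v / δ ^ 2) := Real.sqrt_pos.2 h2
  unfold rhoi
  rw [h3, Real.sqrt_inv, inv_inv]
  unfold rho
  rw [smul_smul, mul_inv_cancel₀ h4.ne', one_smul]

theorem rho_rhoi {δ : ℝ} (hδ : 0 < δ) {v : V d} (hv : nsq v < δ ^ 2) :
    rho δ (rhoi δ v) = v := by
  have h1 := nsq_nonneg v
  have hd : 0 < δ ^ 2 := by positivity
  have h2 : 0 < 1 - nsq v / δ ^ 2 := by
    rw [sub_pos, div_lt_one hd]
    exact hv
  have h5 : nsq (rhoi δ v) = nsq v / (1 - nsq v / δ ^ 2) := by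
    unfold rhoi
    rw [nsq_rsmul, inv_pow, Real.sq_sqrt h2.le]
    field_simp
  have h3 : 1 + nsq (rhoi δ v) / δ ^ 2 = (1 - nsq v / δ ^ 2)⁻¹ := by
    rw [h5]
    have h6 : δ ^ 2 - nsq v ≠ 0 := by linarith
    field_simp
    ring
  have h4 : 0 < Real.sqrt (1 - nsq v / δ ^ 2) := Real.sqrt_pos.2 h2
  unfold rho
  rw [h3, Real.sqrt_inv, inv_inv]
  unfold rhoi
  rw [smul_smul, mul_inv_cancel₀ h4.ne', one_smul]

theorem contDiff_rho {δ : ℝ} (hδ : 0 < δ) : ContDiff ℝ ∞ (rho δ : V d → V d) := by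
  have h1 : ContDiff ℝ ∞ (fun v : V d => 1 + nsq v / δ ^ 2) :=
    contDiff_const.add (contDiff_nsq.div_const _)
  have h2 : ∀ v : V d, 1 + nsq v / δ ^ 2 ≠ 0 := fun v => by
    have := nsq_nonneg v
    positivity
  have h3 : ∀ v : V d, Real.sqrt (1 + nsq v / δ ^ 2) ≠ 0 := fun v => by
    have := nsq_nonneg v
    exact (Real.sqrt_pos.2 (by positivity)).ne'
  exact ((h1.sqrt h2).inv h3).smul contDiff_id

theorem contDiffAt_rhoi {δ : ℝ} (hδ : 0 < δ) {v : V d} (hv : nsq v < δ ^ 2) :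
    ContDiffAt ℝ ∞ (rhoi δ : V d → V d) v := by
  have hd : 0 < δ ^ 2 := by positivity
  have h2 : 0 < 1 - nsq v / δ ^ 2 := by
    rw [sub_pos, div_lt_one hd]
    exact hv
  have h1 : ContDiffAt ℝ ∞ (fun v : V d => 1 - nsq v / δ ^ 2) v :=
    (contDiff_const.sub (contDiff_nsq.div_const _)).contDiffAt
  exact ((h1.sqrt h2.ne').inv (Real.sqrt_pos.2 h2).ne').smul contDiffAt_id

theorem ld_rho {δ : ℝ} (hδ : 0 < δ) (v : V d) : LD d (rho δ : V d → V d) v := by
  refine ⟨(contDiff_rho hδ).contDiffAt.contMDiffAt, rhoi δ,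
    (contDiffAt_rhoi hδ (nsq_rho_lt hδ v)).contMDiffAt, rhoi_rho hδ v, ?_,
    Eventually.of_forall (rhoi_rho hδ)⟩
  have h1 : IsOpen {v : V d | nsq v < δ ^ 2} := isOpen_lt contDiff_nsq.continuous continuous_const
  filter_upwards [h1.mem_nhds (nsq_rho_lt hδ v)] with p hp
  exact rho_rhoi hδ hp

theorem fderiv_rho {δ : ℝ} (hδ : 0 < δ) :
    HasFDerivAt (rho δ : V d → V d) (ContinuousLinearMap.id ℝ (V d)) 0 := by
  have h1 : ContDiff ℝ ∞ (fun v : V d => (Real.sqrt (1 + nsq v / δ ^ 2))⁻¹) := by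
    have h1 : ContDiff ℝ ∞ (fun v : V d => 1 + nsq v / δ ^ 2) :=
      contDiff_const.add (contDiff_nsq.div_const _)
    have h2 : ∀ v : V d, 1 + nsq v / δ ^ 2 ≠ 0 := fun v => by
      have := nsq_nonneg v
      positivity
    have h3 : ∀ v : V d, Real.sqrt (1 + nsq v / δ ^ 2) ≠ 0 := fun v => by
      have := nsq_nonneg v
      exact (Real.sqrt_pos.2 (by positivity)).ne'
    exact (h1.sqrt h2).inv h3
  have h2 := (h1.contDiffAt.differentiableAt (x := 0) (by simp)).hasFDerivAt.smul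
    (hasFDerivAt_id (0 : V d))
  refine HasFDerivAt.congr_fderiv h2 ?_
  ext v
  simp [nsq_eq_zero.2 rfl]

variable {X : Type} [TopologicalSpace X] [ChartedSpace (V d) X] [SmoothMfd d X]

theorem exists_disc {η : Form d X 2} (hη : IsSymplectic η) (q : X) :
    ∃ a : V d → X, IsOpenEmb d a univ ∧ a 0 = q ∧ ∀ u v, pb a η 0 ![u, v] = om u v := by
  set φ := chartAt (V d) q with hφ
  set z0 : V d := φ q with hz0
  have hz : z0 ∈ φ.target := mem_chart_target _ q
  obtain ⟨r, hr, hball⟩ := Metric.isOpen_iff.1 φ.open_target z0 hz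
  obtain ⟨L, hL⟩ := exists_lin (pb φ.symm η z0) (fun u hu =>
    pb_nondeg (ld_chart_symm q hz) (hη.nondeg _) u hu)
  obtain ⟨δ, hδ, hδ2⟩ : ∃ δ : ℝ, 0 < δ ∧ ∀ u : V d, nsq u < δ ^ 2 → z0 + L u ∈ φ.target := by
    have hN : 0 ≤ ‖(L : V d →L[ℝ] V d)‖ := norm_nonneg _
    refine ⟨r / (‖(L : V d →L[ℝ] V d)‖ + 1), by positivity, fun u hu => hball ?_⟩
    rw [mem_ball_iff_norm, add_sub_cancel_left]
    have h1 := norm_le_nsq u
    have h2 : ‖u‖ < r / (‖(L : V d →L[ℝ] V d)‖ + 1) := by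
      have h3 := lt_of_le_of_lt h1 hu
      rwa [pow_lt_pow_iff_left₀ (norm_nonneg _) (by positivity) (by norm_num)] at h3
    have h3 : ‖L u‖ ≤ ‖(L : V d →L[ℝ] V d)‖ * ‖u‖ := (L : V d →L[ℝ] V d).le_opNorm u
    rw [lt_div_iff₀ (by positivity)] at h2
    nlinarith [norm_nonneg u]
  set A : V d → V d := fun u => z0 + L u with hA
  have hAc : ContDiff ℝ ∞ A := contDiff_const.add L.contDiff
  have hA' : ∀ u, LD d A u := by
    intro u
    refine ⟨hAc.contDiffAt.contMDiffAt, fun w => L.symm (w - z0), ?_, ?_, ?_, ?_⟩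
    · have : ContDiff ℝ ∞ (fun w : V d => L.symm (w - z0)) :=
        L.symm.contDiff.comp (contDiff_id.sub contDiff_const)
      exact this.contDiffAt.contMDiffAt
    · simp [hA]
    · exact Eventually.of_forall fun p => by simp [hA]
    · exact Eventually.of_forall fun p => by simp [hA]
  have hld : ∀ v, LD d (fun v => φ.symm (A (rho δ v))) v := fun v => by
    have h1 : LD d φ.symm (A (rho δ v)) := ld_chart_symm q (hδ2 _ (nsq_rho_lt hδ v))
    have h2 : LD d (fun v => A (rho δ v)) v := (hA' _).comp (ld_rho hδ v)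
    exact LD.comp (g := φ.symm) (f := fun v => A (rho δ v)) h1 h2
  have hrho0 : rho δ (0 : V d) = 0 := by simp [rho]
  have hA0 : A (rho δ 0) = z0 := by simp [hA, hrho0]
  refine ⟨fun v => φ.symm (A (rho δ v)), isOpenEmb_of_LD isOpen_univ ?_ fun v _ => hld v, ?_, ?_⟩
  · intro v _ w _ hvw
    have h1 : A (rho δ v) = A (rho δ w) :=
      φ.symm.injOn (hδ2 _ (nsq_rho_lt hδ v)) (hδ2 _ (nsq_rho_lt hδ w)) hvw
    have h2 : rho δ v = rho δ w := by simpa [hA] using h1
    rw [← rhoi_rho hδ v, h2, rhoi_rho hδ w]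
  · change φ.symm (A (rho δ 0)) = q
    rw [hA0]
    exact φ.left_inv (mem_chart_source _ q)
  · intro u v
    have h1 : HasFDerivAt (fun v => A (rho δ v)) ((L : V d →L[ℝ] V d).comp
        (ContinuousLinearMap.id ℝ (V d))) 0 := by
      have h2 : HasFDerivAt A (L : V d →L[ℝ] V d) (rho δ 0) := L.hasFDerivAt.const_add z0
      exact h2.comp 0 (fderiv_rho hδ)
    have h3 := pb_comp η (φ := fun v => φ.symm (A (rho δ v))) (κ := φ.symm)
      (h := fun v => A (rho δ v)) (p := 0) (by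
        change MDifferentiableAt _ _ _ (A (rho δ 0))
        rw [hA0]
        exact (ld_chart_symm q hz).1.mdifferentiableAt (by simp)) h1.differentiableAt
      (Eventually.of_forall fun t => rfl)
    rw [h3, h1.fderiv]
    have h4 : (pb φ.symm η (A (rho δ 0))).compContinuousLinearMap
        ((L : V d →L[ℝ] V d).comp (ContinuousLinearMap.id ℝ (V d))) ![u, v] =
        pb φ.symm η z0 ![L u, L v] := by
      rw [hA0, ContinuousAlternatingMap.compContinuousLinearMap_apply]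
      congr 1
      funext i
      fin_cases i <;> rfl
    exact h4.trans (hL u v)

end Pool.Agent.X168.BU
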