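import Pool.Agent.X168.BU.LD
import Pool.Agent.X168.BU.Disc

/-! The six-dimensional torus. -/

set_option autoImplicit false

open Set Filter Topology
open scoped Manifold ContDiff

noncomputable section

namespace Pool.Agent.X168.BU

/-- The six-dimensional torus `(S¹)⁶ = (ℝ/ℤ)⁶`, the circles being grouped in pairs. -/
def T6 : Type := Fin 3 → AddCircle (1 : ℝ) × AddCircle (1 : ℝ)

instance : TopologicalSpace T6 :=
  inferInstanceAs (TopologicalSpace (Fin 3 → AddCircle (1 : ℝ) × AddCircle (1 : ℝ)))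
instance : CompactSpace T6 :=
  inferInstanceAs (CompactSpace (Fin 3 → AddCircle (1 : ℝ) × AddCircle (1 : ℝ)))
instance : T2Space T6 :=
  inferInstanceAs (T2Space (Fin 3 → AddCircle (1 : ℝ) × AddCircle (1 : ℝ)))

/-- The projection `ℂ³ = ℝ⁶ → T⁶`. -/
def toT6 (x : V 3) : T6 := fun k => (((x k).re : AddCircle (1 : ℝ)), ((x k).im : AddCircle (1 : ℝ)))

/-- The restriction of the projection `ℂ³ → T⁶` to the open cube of side `1` centred at `a`. -/
def cube (a : V 3) : OpenPartialHomeomorph (V 3) T6 :=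
  OpenPartialHomeomorph.pi fun k : Fin 3 =>
    Complex.equivRealProdCLM.toHomeomorph.toOpenPartialHomeomorph.trans
      ((AddCircle.openPartialHomeomorphCoe (1 : ℝ) ((a k).re - 1 / 2)).prod
        (AddCircle.openPartialHomeomorphCoe (1 : ℝ) ((a k).im - 1 / 2)))

/-- A lift of a point of `T⁶` to `ℂ³`. -/
def lift (p : T6) : V 3 := fun k =>
  ⟨((AddCircle.equivIco (1 : ℝ) 0 (p k).1 : ℝ)), ((AddCircle.equivIco (1 : ℝ) 0 (p k).2 : ℝ))⟩

theorem toT6_lift (p : T6) : toT6 (lift p) = p := by
  funext k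
  exact Prod.ext ((AddCircle.equivIco (1 : ℝ) 0).symm_apply_apply (p k).1)
    ((AddCircle.equivIco (1 : ℝ) 0).symm_apply_apply (p k).2)

theorem cube_apply (a x : V 3) : cube a x = toT6 x := rfl

theorem cube_mem {a x : V 3} : x ∈ (cube a).source ↔ ∀ k,
    ((a k).re - 1 / 2 < (x k).re ∧ (x k).re < (a k).re - 1 / 2 + 1) ∧
    ((a k).im - 1 / 2 < (x k).im ∧ (x k).im < (a k).im - 1 / 2 + 1) := by
  constructor
  · intro h k
    have h1 := h k trivial
    exact ⟨h1.2.1, h1.2.2⟩
  · intro h k _
    exact ⟨trivial, (h k).1, (h k).2⟩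

theorem cube_self (a : V 3) : a ∈ (cube a).source := by
  rw [cube_mem]
  intro k
  refine ⟨⟨?_, ?_⟩, ⟨?_, ?_⟩⟩ <;> linarith

/-- The smooth structure of the torus: the charts are the local inverses of `ℂ³ → T⁶`. -/
instance instChartedT6 : ChartedSpace (V 3) T6 where
  atlas := {e | ∃ a : V 3, e = (cube a).symm}
  chartAt p := (cube (lift p)).symm
  mem_chart_source p := by
    have := (cube (lift p)).map_source (cube_self (lift p))
    rw [cube_apply, toT6_lift] at this
    exact this
  chart_mem_atlas p := ⟨_, rfl⟩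

/-- Near a point `x` a chart composed with the projection is a translation. -/
theorem cube_toT6 (a x : V 3) (hx : toT6 x ∈ (cube a).target) :
    ∃ n : V 3, ∀ᶠ y in 𝓝 x, (cube a).symm (toT6 y) = y + n := by
  set z : V 3 := (cube a).symm (toT6 x) with hz
  have hzs : z ∈ (cube a).source := (cube a).map_target hx
  have hzx : toT6 z = toT6 x := by
    rw [← cube_apply a z]
    exact (cube a).right_inv hx
  refine ⟨z - x, ?_⟩
  have hcont : Continuous fun y : V 3 => y + (z - x) := continuous_id.add continuous_const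
  have hmem : (fun y : V 3 => y + (z - x)) x ∈ (cube a).source := by
    have : x + (z - x) = z := by abel
    change x + (z - x) ∈ (cube a).source
    rw [this]
    exact hzs
  have hev : ∀ᶠ y in 𝓝 x, y + (z - x) ∈ (cube a).source :=
    hcont.continuousAt.preimage_mem_nhds ((cube a).open_source.mem_nhds hmem)
  filter_upwards [hev] with y hy
  have hyt : toT6 y = toT6 (y + (z - x)) := by
    funext k
    have hk := congrFun hzx k
    have h1 : (((z k).re : ℝ) : AddCircle (1 : ℝ)) = (((x k).re : ℝ) : AddCircle (1 : ℝ)) :=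
      congrArg Prod.fst hk
    have h2 : (((z k).im : ℝ) : AddCircle (1 : ℝ)) = (((x k).im : ℝ) : AddCircle (1 : ℝ)) :=
      congrArg Prod.snd hk
    refine Prod.ext ?_ ?_
    · change (((y k).re : ℝ) : AddCircle (1 : ℝ)) = (((y + (z - x)) k).re : AddCircle (1 : ℝ))
      have e : ((y + (z - x)) k).re = (y k).re + ((z k).re - (x k).re) := rfl
      rw [e, AddCircle.coe_add, AddCircle.coe_sub, h1, sub_self, add_zero]
    · change (((y k).im : ℝ) : AddCircle (1 : ℝ)) = (((y + (z - x)) k).im : AddCircle (1 : ℝ))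
      have e : ((y + (z - x)) k).im = (y k).im + ((z k).im - (x k).im) := rfl
      rw [e, AddCircle.coe_add, AddCircle.coe_sub, h2, sub_self, add_zero]
  rw [hyt, ← cube_apply a]
  exact (cube a).left_inv hy

instance instMfdT6 : IsManifold 𝓘(ℝ, V 3) ∞ T6 := by
  apply isManifold_of_contDiffOn
  rintro e e' ⟨a, rfl⟩ ⟨b, rfl⟩
  intro x hx
  have hx1 : x ∈ ((cube a).symm.symm ≫ₕ (cube b).symm).source := hx.1
  have hx2 : toT6 x ∈ (cube b).target := by
    have h1 := hx1.2
    exact h1
  obtain ⟨n, hn⟩ := cube_toT6 b x hx2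
  have h2 : ContDiffAt ℝ ∞ (fun y : V 3 => y + n) x := contDiffAt_id.add contDiffAt_const
  have h3 : ContDiffAt ℝ ∞ (fun y : V 3 => (cube b).symm (toT6 y)) x :=
    h2.congr_of_eventuallyEq hn
  exact h3.contDiffWithinAt

theorem ld_toT6 (x : V 3) : LD 3 toT6 x := by
  have hmem : (cube x).symm ∈ atlas (V 3) T6 := ⟨x, rfl⟩
  have hmax : (cube x).symm ∈ IsManifold.maximalAtlas 𝓘(ℝ, V 3) ∞ T6 :=
    IsManifold.subset_maximalAtlas hmem
  have hx := cube_self x
  have hx' : toT6 x ∈ (cube x).target := by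
    rw [← cube_apply x x]
    exact (cube x).map_source hx
  have hl : (cube x).symm (toT6 x) = x := by
    rw [← cube_apply x x]
    exact (cube x).left_inv hx
  refine ⟨(contMDiffOn_symm_of_mem_maximalAtlas hmax).contMDiffAt
    ((cube x).open_source.mem_nhds hx), (cube x).symm,
    (contMDiffOn_of_mem_maximalAtlas hmax).contMDiffAt ((cube x).open_target.mem_nhds hx'), hl,
    ?_, ?_⟩
  · filter_upwards [(cube x).open_target.mem_nhds hx'] with p hp
    exact (cube x).right_inv hp
  · filter_upwards [(cube x).open_source.mem_nhds hx] with t ht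
    exact (cube x).left_inv ht

/-- `om` as an alternating form -/
def omA (d : ℕ) : (V d) [⋀^Fin 2]→L[ℝ] ℝ := Lam (fun _ => 1) 0

theorem omA_apply {d : ℕ} (h k : V d) : omA d ![h, k] = om h k := by
  unfold omA
  rw [Lam_apply contDiffAt_const]
  simp

theorem toT6_eq {x y : V 3} (h : toT6 x = toT6 y) (z : V 3) :
    toT6 (z + x) = toT6 (z + y) := by
  funext k
  have hk := congrFun h k
  have h1 : (((x k).re : ℝ) : AddCircle (1 : ℝ)) = (((y k).re : ℝ) : AddCircle (1 : ℝ)) :=
    congrArg Prod.fst hk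
  have h2 : (((x k).im : ℝ) : AddCircle (1 : ℝ)) = (((y k).im : ℝ) : AddCircle (1 : ℝ)) :=
    congrArg Prod.snd hk
  refine Prod.ext ?_ ?_
  · change (((z + x) k).re : AddCircle (1 : ℝ)) = (((z + y) k).re : AddCircle (1 : ℝ))
    rw [Pi.add_apply, Pi.add_apply, Complex.add_re, Complex.add_re, AddCircle.coe_add,
      AddCircle.coe_add, h1]
  · change (((z + x) k).im : AddCircle (1 : ℝ)) = (((z + y) k).im : AddCircle (1 : ℝ))
    rw [Pi.add_apply, Pi.add_apply, Complex.add_im, Complex.add_im, AddCircle.coe_add,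
      AddCircle.coe_add, h2]

theorem exists_symplectic_T6 : ∃ η : Form 3 T6 2, IsSymplectic η := by
  have hF : Fam (fun _ : Unit => (univ : Set (V 3))) (fun _ => toT6) :=
    ⟨fun _ => isOpen_univ, fun p => ⟨(), lift p, mem_univ _, toT6_lift p⟩,
      fun _ z _ => (ld_toT6 z).1, fun _ z _ => (ld_toT6 z).2⟩
  obtain ⟨η, h1, h2, h3⟩ := exists_form hF (fun _ _ => omA 3) (fun _ => contDiffOn_const)
    (fun _ z _ => by
      simp only [extDeriv, fderiv_fun_const, Pi.zero_apply]
      exact map_zero (ContinuousAlternatingMap.alternatizeUncurryFinCLM ℝ (V 3) ℝ)) (by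
    intro _ _ z _ z' _ h
    refine ⟨fun t => t + (z' - z), contDiffAt_id.add contDiffAt_const, by simp,
      Eventually.of_forall fun t => ?_, ?_⟩
    · have e : toT6 ((t - z) + z) = toT6 ((t - z) + z') := toT6_eq h _
      have e1 : (t - z) + z = t := by abel
      have e2 : (t - z) + z' = t + (z' - z) := by abel
      rw [e1, e2] at e
      exact e
    · have e : fderiv ℝ (fun t : V 3 => t + (z' - z)) z = ContinuousLinearMap.id ℝ (V 3) := by
        rw [fderiv_add_const, fderiv_fun_id]
      rw [e]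
      ext v
      rfl)
  refine ⟨η, h1, h2, ?_⟩
  intro p
  obtain ⟨z, rfl⟩ : ∃ z, toT6 z = p := ⟨lift p, toT6_lift p⟩
  refine nondeg_of_pb (ld_toT6 z) ?_
  intro u hu
  rw [h3 () z (mem_univ z)] at hu
  have := hu (Complex.I • u)
  rw [omA_apply, om_I] at this
  exact nsq_eq_zero.1 this

end Pool.Agent.X168.BU
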