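import Mathlib

/-!
Smoothness of the pull-back of alternating maps (taken from `Pool.Agent.Y604.SY.Pull`).
-/

set_option autoImplicit false

open Set Filter Topology
open scoped Manifold ContDiff

noncomputable section

namespace Pool.Agent.X168.BU

/-! ### Smoothness of the pull-back of alternating maps -/

section alt

variable {V V' : Type} [NormedAddCommGroup V] [NormedSpace ℝ V]
  [NormedAddCommGroup V'] [NormedSpace ℝ V'] {ι : Type} [Fintype ι] [DecidableEq ι]

/-- half of the alternatization, a left inverse of the inclusion -/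
def altL : ContinuousMultilinearMap ℝ (fun _ : ι => V) ℝ →L[ℝ] V [⋀^ι]→L[ℝ] ℝ :=
  LinearMap.mkContinuous
    { toFun := fun f => ((Fintype.card (Equiv.Perm ι) : ℝ))⁻¹ •
        ContinuousMultilinearMap.alternatization f
      map_add' := fun f g => by
        rw [map_add, smul_add]
      map_smul' := fun r f => by
        ext v
        simp only [ContinuousAlternatingMap.smul_apply,
          ContinuousMultilinearMap.alternatization_apply_apply,
          _root_.smul_apply, RingHom.id_apply, smul_eq_mul, Finset.mul_sum]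
        refine Finset.sum_congr rfl fun τ _ => ?_
        rw [mul_smul_comm, mul_smul_comm, mul_smul_comm]
        congr 1
        ring } 1 fun f => by
    refine ContinuousAlternatingMap.opNorm_le_bound _ (by positivity) fun v => ?_
    have h0 : (0 : ℝ) < Fintype.card (Equiv.Perm ι) := by exact_mod_cast Fintype.card_pos
    have h1 : ‖(ContinuousMultilinearMap.alternatization f) v‖ ≤
        Fintype.card (Equiv.Perm ι) * (‖f‖ * ∏ i, ‖v i‖) := by
      rw [ContinuousMultilinearMap.alternatization_apply_apply]
      refine (norm_sum_le _ _).trans ?_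
      have h2 : ∀ τ ∈ (Finset.univ : Finset (Equiv.Perm ι)),
          ‖Equiv.Perm.sign τ • f (v ∘ τ)‖ ≤ ‖f‖ * ∏ i, ‖v i‖ := by
        intro τ _
        have h3 : ‖Equiv.Perm.sign τ • f (v ∘ τ)‖ = ‖f (v ∘ τ)‖ := by
          rcases Int.units_eq_one_or (Equiv.Perm.sign τ) with h | h
          · rw [h, one_smul]
          · rw [h, Units.neg_smul, one_smul, norm_neg]
        rw [h3]
        refine (f.le_opNorm _).trans (le_of_eq ?_)
        congr 1
        exact Equiv.prod_comp τ fun i => ‖v i‖
      refine (Finset.sum_le_card_nsmul _ _ _ h2).trans (le_of_eq ?_)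
      rw [nsmul_eq_mul, Finset.card_univ]
    show ‖((Fintype.card (Equiv.Perm ι) : ℝ))⁻¹ • (ContinuousMultilinearMap.alternatization f) v‖ ≤
      1 * ‖f‖ * ∏ i, ‖v i‖
    rw [norm_smul, norm_inv, Real.norm_of_nonneg h0.le, inv_mul_le_iff₀ h0, one_mul]
    exact h1

theorem altL_coe (g : V [⋀^ι]→L[ℝ] ℝ) : altL g.toContinuousMultilinearMap = g := by
  ext v
  show ((Fintype.card (Equiv.Perm ι) : ℝ))⁻¹ •
    (ContinuousMultilinearMap.alternatization g.toContinuousMultilinearMap) v = g v
  rw [ContinuousMultilinearMap.alternatization_apply_apply]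
  have h1 : ∀ τ ∈ (Finset.univ : Finset (Equiv.Perm ι)),
      Equiv.Perm.sign τ • g.toContinuousMultilinearMap (v ∘ τ) = g v := by
    intro τ _
    have h2 : g.toContinuousMultilinearMap (v ∘ τ) = Equiv.Perm.sign τ • g v :=
      g.toAlternatingMap.map_perm v τ
    rw [h2, smul_smul]
    have h3 : Equiv.Perm.sign τ * Equiv.Perm.sign τ = 1 := Int.units_mul_self _
    rw [h3, one_smul]
  rw [Finset.sum_congr rfl h1, Finset.sum_const, Finset.card_univ, nsmul_eq_mul, smul_eq_mul]
  have h0 : (Fintype.card (Equiv.Perm ι) : ℝ) ≠ 0 := by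
    have : 0 < Fintype.card (Equiv.Perm ι) := Fintype.card_pos
    positivity
  field_simp

theorem contDiff_pull :
    ContDiff ℝ ∞ (fun q : (V' [⋀^ι]→L[ℝ] ℝ) × (V →L[ℝ] V') => q.1.compContinuousLinearMap q.2) := by
  have h1 : (fun q : (V' [⋀^ι]→L[ℝ] ℝ) × (V →L[ℝ] V') => q.1.compContinuousLinearMap q.2) =
      fun q => altL ((ContinuousMultilinearMap.compContinuousLinearMapContinuousMultilinear ℝ
        (fun _ : ι => V) (fun _ : ι => V') ℝ (fun _ => q.2))
          (ContinuousAlternatingMap.toContinuousMultilinearMapCLM ℝ q.1)) := by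
    funext q
    rw [← altL_coe (q.1.compContinuousLinearMap q.2)]
    rfl
  rw [h1]
  refine (altL (V := V) (ι := ι)).contDiff.comp (ContDiff.clm_apply ?_ ?_)
  · refine (ContinuousMultilinearMap.contDiff _).comp ?_
    exact contDiff_pi.2 fun _ => contDiff_snd
  · exact (ContinuousLinearMap.contDiff _).comp contDiff_fst

end alt


end Pool.Agent.X168.BU
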