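import Pool.Agent.X168.BU.FormGlue

/-! Local diffeomorphisms. -/

set_option autoImplicit false

open Set Topology Filter
open scoped ContDiff Manifold

noncomputable section

namespace Pool.Agent.X168.BU

variable {d : ℕ} {X Y Z : Type} [TopologicalSpace X] [ChartedSpace (V d) X]
  [TopologicalSpace Y] [ChartedSpace (V d) Y] [TopologicalSpace Z] [ChartedSpace (V d) Z]

/-- `f` is a local diffeomorphism at `x` -/
def LD (d : ℕ) {X Y : Type} [TopologicalSpace X] [ChartedSpace (V d) X]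
    [TopologicalSpace Y] [ChartedSpace (V d) Y] (f : X → Y) (x : X) : Prop :=
  ContMDiffAt 𝓘(ℝ, V d) 𝓘(ℝ, V d) ∞ f x ∧ ∃ g : Y → X,
    ContMDiffAt 𝓘(ℝ, V d) 𝓘(ℝ, V d) ∞ g (f x) ∧ g (f x) = x ∧
    (∀ᶠ p in 𝓝 (f x), f (g p) = p) ∧ ∀ᶠ t in 𝓝 x, g (f t) = t

theorem LD.comp {f : X → Y} {g : Y → Z} {x : X} (hg : LD d g (f x)) (hf : LD d f x) :
    LD d (fun t => g (f t)) x := by
  obtain ⟨hf1, f', hf2, hf3, hf4, hf5⟩ := hf
  obtain ⟨hg1, g', hg2, hg3, hg4, hg5⟩ := hg
  have h1 : ContMDiffAt 𝓘(ℝ, V d) 𝓘(ℝ, V d) ∞ f' (g' (g (f x))) := by rw [hg3]; exact hf2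
  refine ⟨hg1.comp x hf1, fun p => f' (g' p), h1.comp _ hg2, ?_, ?_, ?_⟩
  · change f' (g' (g (f x))) = x
    rw [hg3, hf3]
  · have h2 : ∀ᶠ p in 𝓝 (g (f x)), f (f' (g' p)) = g' p := by
      have : Tendsto g' (𝓝 (g (f x))) (𝓝 (f x)) := by
        have := hg2.continuousAt.tendsto
        rwa [hg3] at this
      exact this hf4
    filter_upwards [h2, hg4] with p a b
    rw [a, b]
  · filter_upwards [hf1.continuousAt.tendsto hg5, hf5] with t a b
    have a' : g' (g (f t)) = f t := a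
    rw [a', b]

theorem LD.congr {f f' : X → Y} {x : X} (hf : LD d f x) (h : f' =ᶠ[𝓝 x] f) : LD d f' x := by
  obtain ⟨h1, g, h2, h3, h4, h5⟩ := hf
  have hx : f' x = f x := h.eq_of_nhds
  refine ⟨h1.congr_of_eventuallyEq h, g, by rw [hx]; exact h2, by rw [hx]; exact h3, ?_, ?_⟩
  · rw [hx]
    have h6 : ∀ᶠ p in 𝓝 (f x), f' (g p) = f (g p) := by
      have : Tendsto g (𝓝 (f x)) (𝓝 x) := by
        have := h2.continuousAt.tendsto
        rwa [h3] at this
      exact this h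
    filter_upwards [h4, h6] with p a b
    rw [b, a]
  · filter_upwards [h5, h] with t a b
    rw [b, a]

theorem IsOpenEmb.injOn {f : X → Y} {U : Set X} (hf : IsOpenEmb d f U) : InjOn f U := by
  obtain ⟨g, hg, _⟩ := hf.smooth_inv
  intro x hx y hy h
  rw [← hg x hx, h, hg y hy]

theorem IsOpenEmb.ld {f : X → Y} {U : Set X} (hf : IsOpenEmb d f U) {x : X} (hx : x ∈ U) :
    LD d f x := by
  obtain ⟨g, hg, hg2⟩ := hf.smooth_inv
  have hn : f '' U ∈ 𝓝 (f x) := hf.isOpen_image.mem_nhds ⟨x, hx, rfl⟩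
  refine ⟨hf.smooth.contMDiffAt (hf.isOpen.mem_nhds hx), g, hg2.contMDiffAt hn, hg x hx, ?_, ?_⟩
  · filter_upwards [hn] with p hp
    obtain ⟨y, hy, rfl⟩ := hp
    rw [hg y hy]
  · filter_upwards [hf.isOpen.mem_nhds hx] with t ht
    exact hg t ht

theorem LD.image_mem {f : X → Y} {x : X} (hf : LD d f x) {N : Set X} (hN : N ∈ 𝓝 x) :
    f '' N ∈ 𝓝 (f x) := by
  obtain ⟨h1, g, h2, h3, h4, h5⟩ := hf
  have h6 : ∀ᶠ p in 𝓝 (f x), g p ∈ N := by
    have : Tendsto g (𝓝 (f x)) (𝓝 x) := by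
      have := h2.continuousAt.tendsto
      rwa [h3] at this
    exact this hN
  filter_upwards [h4, h6] with p a b
  exact ⟨g p, b, a⟩

theorem isOpen_image_of_LD {f : X → Y} {S : Set X} (hS : IsOpen S) (h : ∀ x ∈ S, LD d f x) :
    IsOpen (f '' S) := by
  rw [isOpen_iff_mem_nhds]
  rintro _ ⟨x, hx, rfl⟩
  exact (h x hx).image_mem (hS.mem_nhds hx)

theorem isOpenEmb_of_LD [Nonempty X] {f : X → Y} {S : Set X} (hS : IsOpen S) (hi : InjOn f S)
    (h : ∀ x ∈ S, LD d f x) : IsOpenEmb d f S where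
  isOpen := hS
  isOpen_image := isOpen_image_of_LD hS h
  smooth := fun x hx => (h x hx).1.contMDiffWithinAt
  smooth_inv := by
    have hl : ∀ x ∈ S, Function.invFunOn f S (f x) = x := fun x hx =>
      hi.leftInvOn_invFunOn hx
    refine ⟨Function.invFunOn f S, hl, ?_⟩
    rintro _ ⟨x, hx, rfl⟩
    obtain ⟨h1, g, h2, h3, h4, h5⟩ := h x hx
    refine (h2.congr_of_eventuallyEq ?_).contMDiffWithinAt
    have h6 : ∀ᶠ p in 𝓝 (f x), g p ∈ S := by
      have : Tendsto g (𝓝 (f x)) (𝓝 x) := by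
        have := h2.continuousAt.tendsto
        rwa [h3] at this
      exact this (hS.mem_nhds hx)
    filter_upwards [h4, h6] with p a b
    rw [← a, hl _ b, a]

/-- the transition between two systems of coordinates -/
theorem LD.trans {f₁ f₂ : V d → X} {z z' : V d} (h₁ : LD d f₁ z) (h₂ : LD d f₂ z')
    (h : f₁ z = f₂ z') : ∃ g : V d → V d, ContDiffAt ℝ ∞ g z ∧ g z = z' ∧
      ∀ᶠ t in 𝓝 z, f₁ t = f₂ (g t) := by
  obtain ⟨a1, _⟩ := h₁
  obtain ⟨_, g, b2, b3, b4, _⟩ := h₂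
  rw [← h] at b2 b3 b4
  refine ⟨fun t => g (f₁ t), (b2.comp z a1).contDiffAt, b3, ?_⟩
  filter_upwards [a1.continuousAt.tendsto b4] with t a
  exact a.symm

variable [SmoothMfd d X]

theorem ld_chart_symm (x : X) {z : V d} (hz : z ∈ (chartAt (V d) x).target) :
    LD d (chartAt (V d) x).symm z := by
  refine ⟨contMDiffAt_symm_of_mem_maximalAtlas (IsManifold.chart_mem_maximalAtlas x) hz,
    chartAt (V d) x, ?_, (chartAt (V d) x).right_inv hz, ?_, ?_⟩
  · exact contMDiffAt_of_mem_maximalAtlas (IsManifold.chart_mem_maximalAtlas x)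
      ((chartAt (V d) x).map_target hz)
  · exact (chartAt (V d) x).eventually_left_inverse ((chartAt (V d) x).map_target hz)
  · exact (chartAt (V d) x).eventually_right_inverse hz

theorem ld_chart (x : X) {p : X} (hp : p ∈ (chartAt (V d) x).source) :
    LD d (chartAt (V d) x) p := by
  refine ⟨contMDiffAt_of_mem_maximalAtlas (IsManifold.chart_mem_maximalAtlas x) hp,
    (chartAt (V d) x).symm, ?_, (chartAt (V d) x).left_inv hp, ?_, ?_⟩
  · exact contMDiffAt_symm_of_mem_maximalAtlas (IsManifold.chart_mem_maximalAtlas x)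
      ((chartAt (V d) x).map_source hp)
  · exact (chartAt (V d) x).eventually_right_inverse ((chartAt (V d) x).map_source hp)
  · exact (chartAt (V d) x).eventually_left_inverse hp

end Pool.Agent.X168.BU
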