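import Pool.Agent.X168.BU.CP
import Pool.Agent.X168.BU.LD

/-! Complex projective space is compact and Hausdorff; complex conjugation. -/

set_option autoImplicit false

open Set Filter Topology
open scoped Manifold ContDiff ComplexConjugate

noncomputable section

namespace Pool.Agent.X168.BU

variable {d : ℕ}

/-- the norm of a vector -/
def nn (x : V d × ℂ) : ℝ := ∑ m, ‖hco m x‖ ^ 2

/-- the projection onto the line spanned by a vector -/
def GG (x : V d × ℂ) (k l : Option (Fin d)) : ℂ := hco k x * conj (hco l x) / (nn x : ℂ)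

theorem hco_ne {x : V d × ℂ} (hx : x ≠ 0) : ∃ l, hco l x ≠ 0 := by
  by_contra h
  push Not at h
  apply hx
  exact Prod.ext (funext fun k => h (some k)) (h none)

theorem nn_pos {x : V d × ℂ} (hx : x ≠ 0) : 0 < nn x := by
  obtain ⟨l, hl⟩ := hco_ne hx
  have h1 : 0 < ‖hco l x‖ ^ 2 := by
    have := norm_pos_iff.2 hl
    positivity
  exact lt_of_lt_of_le h1 (Finset.single_le_sum (f := fun m => ‖hco m x‖ ^ 2)
    (fun _ _ => by positivity) (Finset.mem_univ l))

theorem nn_smul (c : ℂ) (x : V d × ℂ) : nn (c • x) = ‖c‖ ^ 2 * nn x := by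
  simp only [nn, hco_smul, norm_mul, mul_pow, Finset.mul_sum]

theorem GG_smul {c : ℂ} (hc : c ≠ 0) (x : V d × ℂ) : GG (c • x) = GG x := by
  funext k l
  rcases eq_or_ne x 0 with rfl | hx
  · simp
  · have h1 : (nn x : ℂ) ≠ 0 := by exact_mod_cast (nn_pos hx).ne'
    have h2 : (((‖c‖ ^ 2 : ℝ)) : ℂ) = c * conj c := by
      rw [Complex.mul_conj, Complex.normSq_eq_norm_sq]
    have h3 : conj c ≠ 0 := by simpa using hc
    simp only [GG, hco_smul, nn_smul, map_mul, Complex.ofReal_mul]
    rw [h2]
    field_simp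

theorem GG_inj {x y : V d × ℂ} (hx : x ≠ 0) (hy : y ≠ 0) (h : GG x = GG y) :
    ∃ c : ℂ, c • y = x := by
  obtain ⟨l, hl⟩ := hco_ne hy
  have h1 : (nn x : ℂ) ≠ 0 := by exact_mod_cast (nn_pos hx).ne'
  have h2 : (nn y : ℂ) ≠ 0 := by exact_mod_cast (nn_pos hy).ne'
  have h3 : hco l x ≠ 0 := by
    intro h4
    have h5 := congrFun (congrFun h l) l
    simp only [GG, h4, zero_mul, zero_div] at h5
    have h6 : hco l y * conj (hco l y) / (nn y : ℂ) ≠ 0 :=
      div_ne_zero (mul_ne_zero hl (by simpa using hl)) h2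
    exact h6 h5.symm
  have h4 : conj (hco l x) ≠ 0 := by simpa using h3
  have h6 : ∀ k, hco k x = (conj (hco l y) * nn x / (nn y * conj (hco l x))) * hco k y := by
    intro k
    have h5 := congrFun (congrFun h k) l
    simp only [GG] at h5
    rw [div_eq_div_iff h1 h2] at h5
    field_simp
    linear_combination h5
  refine ⟨conj (hco l y) * nn x / (nn y * conj (hco l x)), ?_⟩
  exact Prod.ext (funext fun k => (h6 (some k)).symm) (h6 none).symm

/-- an embedding of projective space in a space of matrices -/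
def FF (p : CP d) : Option (Fin d) → Option (Fin d) → ℂ := GG (rp p)

theorem FF_line {x : V d × ℂ} (hx : x ≠ 0) : FF (line x hx) = GG x := by
  obtain ⟨c, hc0, hc⟩ := exists_rp hx
  unfold FF
  rw [← hc, GG_smul hc0]

theorem FF_inj : Function.Injective (FF : CP d → _) := by
  intro p q h
  have h1 := GG_inj (rp_ne p) (rp_ne q) h
  rw [← line_rp p, ← line_rp q, line_eq]
  exact h1

theorem continuous_nn : Continuous (nn : V d × ℂ → ℝ) := by
  unfold nn
  exact continuous_finsetSum _ fun m _ => ((contDiff_hco m).continuous.norm).pow 2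

theorem continuous_FF : Continuous (FF : CP d → _) := by
  rw [continuous_iSup_dom]
  intro l
  rw [continuous_coinduced_dom]
  have h1 : (FF ∘ aff l : V d → _) = fun v => GG (hvec l v) := by
    funext v
    exact FF_line (hvec_ne l v)
  rw [h1, continuous_pi_iff]
  intro k
  rw [continuous_pi_iff]
  intro m
  have h2 : Continuous (hvec l : V d → V d × ℂ) := (contDiff_hvec l).continuous
  refine Continuous.div ?_ ?_ ?_
  · exact ((contDiff_hco k).continuous.comp h2).mul
      (Complex.continuous_conj.comp ((contDiff_hco m).continuous.comp h2))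
  · exact Complex.continuous_ofReal.comp (continuous_nn.comp h2)
  · intro v
    exact_mod_cast (nn_pos (hvec_ne l v)).ne'

instance instT2CP : T2Space (CP d) := T2Space.of_injective_continuous FF_inj continuous_FF

theorem norm_aco {l : Option (Fin d)} {x : V d × ℂ} (h : ∀ k, ‖hco k x‖ ≤ ‖hco l x‖) :
    ‖aco l x‖ ≤ 1 := by
  have key : ∀ z : ℂ, ‖z‖ ≤ ‖hco l x‖ → ‖(hco l x)⁻¹ * z‖ ≤ 1 := by
    intro z hz
    rw [norm_mul, norm_inv]
    exact inv_mul_le_one_of_le₀ hz (norm_nonneg _)
  rw [pi_norm_le_iff_of_nonneg zero_le_one]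
  intro k
  cases l with
  | none => exact key _ (h (some k))
  | some l =>
    by_cases hk : k = l
    · subst hk
      simp only [aco, Function.update_self]
      exact key _ (h none)
    · simp only [aco, Function.update_of_ne hk]
      exact key _ (h (some k))

instance instCompactCP : CompactSpace (CP d) := by
  refine ⟨?_⟩
  have e : (univ : Set (CP d)) = ⋃ l, aff l '' Metric.closedBall (0 : V d) 1 := by
    apply Subset.antisymm _ (subset_univ _)
    rintro p -
    obtain ⟨l, hl⟩ := Finite.exists_max fun l : Option (Fin d) => ‖hco l (rp p)‖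
    obtain ⟨k, hk⟩ := hco_ne (rp_ne p)
    have hl0 : hco l (rp p) ≠ 0 := by
      intro h
      have := hl k
      simp only [h, norm_zero] at this
      exact hk (norm_le_zero_iff.1 this)
    rw [mem_iUnion]
    refine ⟨l, co l p, ?_, aff_co l hl0⟩
    rw [mem_closedBall_zero_iff]
    exact norm_aco hl
  rw [e]
  exact isCompact_iUnion fun l => (isCompact_closedBall _ _).image (continuous_aff l)

/-- complex conjugation of vectors -/
def conjV (v : V d) : V d := fun k => conj (v k)

theorem conjV_conjV (v : V d) : conjV (conjV v) = v := by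
  funext k; simp [conjV]

theorem contDiff_conjV : ContDiff ℝ ∞ (conjV : V d → V d) := by
  rw [contDiff_pi]
  intro k
  exact Complex.conjCLE.contDiff.comp (contDiff_apply ℝ ℂ k)

theorem conjV_zero : conjV (0 : V d) = 0 := by funext k; simp [conjV]

/-- complex conjugation of vectors -/
def conjW (x : V d × ℂ) : V d × ℂ := (conjV x.1, conj x.2)

theorem conjW_ne {x : V d × ℂ} (hx : x ≠ 0) : conjW x ≠ 0 := by
  intro h
  apply hx
  have h1 : conjV x.1 = 0 := congrArg Prod.fst h
  have h2 : conj x.2 = 0 := congrArg Prod.snd h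
  refine Prod.ext ?_ ?_
  · rw [← conjV_conjV x.1, h1, conjV_zero]; rfl
  · simpa using h2

theorem conjW_smul (c : ℂ) (x : V d × ℂ) : conjW (c • x) = conj c • conjW x := by
  refine Prod.ext ?_ ?_
  · funext k; simp [conjW, conjV]
  · simp [conjW]

theorem conjW_hvec (l : Option (Fin d)) (v : V d) : conjW (hvec l v) = hvec l (conjV v) := by
  cases l with
  | none => simp [conjW, hvec, conjV]
  | some l =>
    refine Prod.ext ?_ ?_
    · funext k
      by_cases hk : k = l
      · subst hk; simp [conjW, hvec, conjV]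
      · simp [conjW, hvec, conjV, Function.update_of_ne hk]
    · simp [conjW, hvec, conjV]

/-- complex conjugation of projective space -/
def conjCP (p : CP d) : CP d := line (conjW (rp p)) (conjW_ne (rp_ne p))

theorem conjCP_line {x : V d × ℂ} (hx : x ≠ 0) :
    conjCP (line x hx) = line (conjW x) (conjW_ne hx) := by
  obtain ⟨c, hc0, hc⟩ := exists_rp hx
  unfold conjCP
  rw [line_eq]
  refine ⟨conj c, ?_⟩
  rw [← conjW_smul, hc]

theorem conjCP_aff (l : Option (Fin d)) (v : V d) : conjCP (aff l v) = aff l (conjV v) := by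
  unfold aff
  rw [conjCP_line]
  congr 1
  exact conjW_hvec l v

theorem conjCP_conjCP (p : CP d) : conjCP (conjCP p) = p := by
  obtain ⟨l, hl⟩ := exists_dom p
  rw [← aff_co l hl, conjCP_aff, conjCP_aff, conjV_conjV]

theorem contMDiff_conjCP : ContMDiff 𝓘(ℝ, V d) 𝓘(ℝ, V d) ∞ (conjCP : CP d → CP d) := by
  intro p
  obtain ⟨l, hl⟩ := exists_dom p
  have hl' : p ∈ range (aff l) := by rw [range_aff]; exact hl
  have ho : range (aff l) ∈ 𝓝 p := (isOpenMap_aff l).isOpen_range.mem_nhds hl'
  have h1 : ContMDiffAt 𝓘(ℝ, V d) 𝓘(ℝ, V d) ∞ (fun q : CP d => aff l (conjV (co l q))) p := by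
    have a1 : ContMDiffAt 𝓘(ℝ, V d) 𝓘(ℝ, V d) ∞ (co l : CP d → V d) p :=
      (contMDiffOn_co l).contMDiffAt ho
    have a2 : ContMDiffAt 𝓘(ℝ, V d) 𝓘(ℝ, V d) ∞ (conjV : V d → V d) (co l p) :=
      contDiff_conjV.contDiffAt.contMDiffAt
    have a3 : ContMDiffAt 𝓘(ℝ, V d) 𝓘(ℝ, V d) ∞ (aff l : V d → CP d) (conjV (co l p)) :=
      contMDiff_aff l _
    have a4 : ContMDiffAt 𝓘(ℝ, V d) 𝓘(ℝ, V d) ∞ (conjV ∘ co l : CP d → V d) p := a2.comp p a1
    exact ContMDiffAt.comp (g := (aff l : V d → CP d)) (f := (conjV ∘ co l : CP d → V d)) p a3 a4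
  refine h1.congr_of_eventuallyEq ?_
  filter_upwards [ho] with q hq
  rw [range_aff] at hq
  rw [← conjCP_aff, aff_co l hq]

theorem ld_conjCP (p : CP d) : LD d (conjCP : CP d → CP d) p :=
  ⟨contMDiff_conjCP p, conjCP, contMDiff_conjCP _, conjCP_conjCP p,
    Eventually.of_forall conjCP_conjCP, Eventually.of_forall conjCP_conjCP⟩

/-- the connected sum with `ℂPᵈ` and with its mirror image -/
theorem IsConnectedSum.conj {X W : Type} [TopologicalSpace X] [ChartedSpace (V d) X]
    [TopologicalSpace W] [ChartedSpace (V d) W] {a : V d → X} {i : X → W} {j : CP d → W}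
    (h : IsConnectedSum a (aff none) i j) :
    IsConnectedSum a (fun v => aff none (conjV v)) i (fun p => j (conjCP p)) := by
  have e0 : aff none (conjV (0 : V d)) = aff none 0 := by rw [conjV_zero]
  have hne : ∀ p : CP d, p ≠ aff none 0 → conjCP p ≠ aff none 0 := by
    intro p hp hc
    apply hp
    rw [← conjCP_conjCP p, hc, conjCP_aff, conjV_zero]
  have hne' : ∀ p : CP d, p ≠ aff none (conjV 0) → conjCP p ≠ aff none 0 := by
    intro p hp
    rw [e0] at hp
    exact hne p hp
  have : Nonempty (CP d) := ⟨aff none 0⟩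
  refine ⟨h.disc_left, ?_, h.left, ?_, ?_, ?_⟩
  · refine isOpenEmb_of_LD isOpen_univ ?_ ?_
    · intro v _ w _ hvw
      rw [← conjV_conjV v, aff_injective none hvw, conjV_conjV]
    · intro v _
      have h1 : LD d (conjV : V d → V d) v :=
        ⟨contDiff_conjV.contDiffAt.contMDiffAt, conjV, contDiff_conjV.contDiffAt.contMDiffAt,
          conjV_conjV v, Eventually.of_forall conjV_conjV, Eventually.of_forall conjV_conjV⟩
      exact ((isOpenEmb_aff none).ld (mem_univ _)).comp h1
  · refine isOpenEmb_of_LD isOpen_compl_singleton ?_ ?_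
    · intro p hp q hq hpq
      have := h.right.injOn (hne' p hp) (hne' q hq) hpq
      rw [← conjCP_conjCP p, this, conjCP_conjCP]
    · intro p hp
      exact (h.right.ld (hne' p hp)).comp (ld_conjCP p)
  · intro w
    rcases h.cover w with ⟨x, hx, rfl⟩ | ⟨y, hy, rfl⟩
    · exact Or.inl ⟨x, hx, rfl⟩
    · refine Or.inr ⟨conjCP y, ?_, by rw [conjCP_conjCP]⟩
      rw [e0]
      exact hne y hy
  · intro x p hx hp
    rw [h.glue x (conjCP p) hx (hne' p hp)]
    constructor
    · rintro ⟨v, hv, h1, h2⟩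
      exact ⟨v, hv, h1, by rw [← conjCP_conjCP p, h2, conjCP_aff]⟩
    · rintro ⟨v, hv, h1, h2⟩
      exact ⟨v, hv, h1, by rw [h2, conjCP_aff, conjV_conjV]⟩

end Pool.Agent.X168.BU
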