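import Pool.Agent.X168.BU.Cut
import Pool.Agent.X168.BU.CPTop

/-! The symplectic form of the connected sum with projective space. -/

set_option autoImplicit false

open Set Filter Topology
open scoped Manifold ContDiff ComplexConjugate

noncomputable section

namespace Pool.Agent.X168.BU

variable {d : ℕ}

section general

variable {X Y : Type} [TopologicalSpace X] [ChartedSpace (V d) X]
  [TopologicalSpace Y] [ChartedSpace (V d) Y]

theorem LD.surj {f : X → Y} {x : X} (hf : LD d f x) :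
    Function.Surjective (mfderiv 𝓘(ℝ, V d) 𝓘(ℝ, V d) f x) := by
  obtain ⟨h1, g, h2, h3, h4, h5⟩ := hf
  have hg : MDifferentiableAt 𝓘(ℝ, V d) 𝓘(ℝ, V d) g (f x) := h2.mdifferentiableAt (by simp)
  have hf : MDifferentiableAt 𝓘(ℝ, V d) 𝓘(ℝ, V d) f (g (f x)) := by
    rw [h3]; exact h1.mdifferentiableAt (by simp)
  have e1 := mfderiv_comp (f x) hf hg
  have e2 : (f ∘ g) =ᶠ[𝓝 (f x)] id := h4
  rw [e2.mfderiv_eq, mfderiv_id] at e1
  intro w
  have e3 := congrArg (fun L : (V d →L[ℝ] V d) => L w) e1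
  rw [h3] at e3
  exact ⟨_, e3.symm⟩

theorem LD.inj {f : X → Y} {x : X} (hf : LD d f x) :
    Function.Injective (mfderiv 𝓘(ℝ, V d) 𝓘(ℝ, V d) f x) := by
  obtain ⟨h1, g, h2, h3, h4, h5⟩ := hf
  have hg : MDifferentiableAt 𝓘(ℝ, V d) 𝓘(ℝ, V d) g (f x) := h2.mdifferentiableAt (by simp)
  have hf : MDifferentiableAt 𝓘(ℝ, V d) 𝓘(ℝ, V d) f x := h1.mdifferentiableAt (by simp)
  have e1 := mfderiv_comp x hg hf
  have e2 : (g ∘ f) =ᶠ[𝓝 x] id := h5
  rw [e2.mfderiv_eq, mfderiv_id] at e1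
  intro v w hvw
  have e3 := congrArg (fun L : (V d →L[ℝ] V d) => L v) e1
  have e4 := congrArg (fun L : (V d →L[ℝ] V d) => L w) e1
  have e5 : v = mfderiv 𝓘(ℝ, V d) 𝓘(ℝ, V d) g (f x) (mfderiv 𝓘(ℝ, V d) 𝓘(ℝ, V d) f x v) := e3
  have e6 : w = mfderiv 𝓘(ℝ, V d) 𝓘(ℝ, V d) g (f x) (mfderiv 𝓘(ℝ, V d) 𝓘(ℝ, V d) f x w) := e4
  rw [e5, e6, hvw]

theorem pb_apply {φ : V d → X} {σ : Form d X 2} {z : V d} (h g : V d) :
    pb φ σ z ![h, g] = σ (φ z) ![mfderiv 𝓘(ℝ, V d) 𝓘(ℝ, V d) φ z h,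
      mfderiv 𝓘(ℝ, V d) 𝓘(ℝ, V d) φ z g] := by
  unfold pb
  rw [ContinuousAlternatingMap.compContinuousLinearMap_apply]
  congr 1
  funext i
  fin_cases i <;> rfl

theorem nondeg_of_pb {φ : V d → X} {σ : Form d X 2} {z : V d} (hφ : LD d φ z)
    (h : ∀ u, (∀ g, pb φ σ z ![u, g] = 0) → u = 0)
    (v : TangentSpace 𝓘(ℝ, V d) (φ z)) (hv : ∀ w, σ (φ z) ![v, w] = 0) : v = 0 := by
  obtain ⟨u, rfl⟩ := hφ.surj v
  have hu := h u fun g => by rw [pb_apply]; exact hv _
  rw [hu]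
  exact map_zero _

theorem pb_nondeg {φ : V d → X} {σ : Form d X 2} {z : V d} (hφ : LD d φ z)
    (h : ∀ v : TangentSpace 𝓘(ℝ, V d) (φ z), (∀ w, σ (φ z) ![v, w] = 0) → v = 0)
    (u : V d) (hu : ∀ g, pb φ σ z ![u, g] = 0) : u = 0 := by
  have e0 : mfderiv 𝓘(ℝ, V d) 𝓘(ℝ, V d) φ z (0 : V d) = 0 :=
    ContinuousLinearMap.map_zero (mfderiv 𝓘(ℝ, V d) 𝓘(ℝ, V d) φ z)
  refine hφ.inj (Eq.trans ?_ e0.symm)
  apply h
  intro w
  obtain ⟨g, rfl⟩ := hφ.surj w
  rw [← pb_apply]
  exact hu g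

end general

section rel

variable {W ι : Type} [TopologicalSpace W] [ChartedSpace (V d) W]

/-- compatibility of two local forms -/
def Rel (κ : ι → V d → W) (s : ι → V d → (V d) [⋀^Fin 2]→L[ℝ] ℝ) (i : ι) (z : V d)
    (j : ι) (z' : V d) : Prop :=
  ∃ h : V d → V d, ContDiffAt ℝ ∞ h z ∧ h z = z' ∧ (∀ᶠ t in 𝓝 z, κ i t = κ j (h t)) ∧
      s i z = (s j z').compContinuousLinearMap (fderiv ℝ h z)

omit [TopologicalSpace W] [ChartedSpace (V d) W] in
theorem Rel.trans {κ : ι → V d → W} {s : ι → V d → (V d) [⋀^Fin 2]→L[ℝ] ℝ} {i j k : ι}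
    {z z' z'' : V d} (h1 : Rel κ s i z j z') (h2 : Rel κ s j z' k z'') : Rel κ s i z k z'' := by
  obtain ⟨g, a1, rfl, a3, a4⟩ := h1
  obtain ⟨f, b1, rfl, b3, b4⟩ := h2
  refine ⟨fun t => f (g t), b1.comp z a1, rfl, ?_, ?_⟩
  · filter_upwards [a3, a1.continuousAt.tendsto b3] with t c1 c2
    rw [c1]
    exact c2
  · rw [a4, b4]
    have e : fderiv ℝ (fun t => f (g t)) z = (fderiv ℝ f (g z)).comp (fderiv ℝ g z) :=
      fderiv_comp z (b1.differentiableAt (by simp)) (a1.differentiableAt (by simp))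
    rw [e]
    ext v
    rfl

theorem Rel.symm {κ : ι → V d → W} {s : ι → V d → (V d) [⋀^Fin 2]→L[ℝ] ℝ} {i j : ι}
    {z z' : V d} (h1 : Rel κ s i z j z') (hi : LD d (κ i) z) (hj : LD d (κ j) z') :
    Rel κ s j z' i z := by
  obtain ⟨g, a1, rfl, a3, a4⟩ := h1
  have hz : κ i z = κ j (g z) := a3.self_of_nhds
  obtain ⟨f, b1, b2, b3⟩ := hj.trans hi hz.symm
  have hj' := hj
  obtain ⟨_, q, c2, c3, c4, c5⟩ := hj
  -- `g (f t) = t` near `g z`
  have hf : Tendsto f (𝓝 (g z)) (𝓝 z) := by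
    have := b1.continuousAt.tendsto
    rwa [b2] at this
  have hg : Tendsto g (𝓝 z) (𝓝 (g z)) := a1.continuousAt
  have e1 : ∀ᶠ t in 𝓝 (g z), g (f t) = t := by
    have d1 : ∀ᶠ t in 𝓝 (g z), κ i (f t) = κ j (g (f t)) := hf a3
    have d2 : ∀ᶠ t in 𝓝 (g z), q (κ j (g (f t))) = g (f t) := (hg.comp hf) c5
    filter_upwards [b3, d1, d2, c5] with t k1 k2 k3 k4
    rw [← k3, ← k2, ← k1, k4]
  refine ⟨f, b1, b2, b3, ?_⟩
  rw [a4]
  have a1' : ContDiffAt ℝ ∞ g (f (g z)) := by rw [b2]; exact a1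
  have e2 : (fderiv ℝ g z).comp (fderiv ℝ f (g z)) = ContinuousLinearMap.id ℝ (V d) := by
    have k1 : fderiv ℝ (fun t => g (f t)) (g z) = (fderiv ℝ g (f (g z))).comp (fderiv ℝ f (g z)) :=
      fderiv_comp (g z) (a1'.differentiableAt (by simp)) (b1.differentiableAt (by simp))
    rw [b2] at k1
    rw [← k1]
    have k2 : (fun t => g (f t)) =ᶠ[𝓝 (g z)] id := e1
    rw [k2.fderiv_eq, fderiv_id]
  have e3 : ((s j (g z)).compContinuousLinearMap (fderiv ℝ g z)).compContinuousLinearMap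
      (fderiv ℝ f (g z)) =
      (s j (g z)).compContinuousLinearMap ((fderiv ℝ g z).comp (fderiv ℝ f (g z))) := by
    ext v; rfl
  rw [e3, e2]
  ext v
  rfl

end rel

variable {X W : Type} [TopologicalSpace X] [ChartedSpace (V d) X] [T2Space X] [SmoothMfd d X]
  [TopologicalSpace W] [ChartedSpace (V d) W] [SmoothMfd d W]

/-- coordinate domains -/
def fU (a : V d → X) (R : ℝ) : X ⊕ Option (Fin d) → Set (V d)
  | Sum.inl x => (chartAt (V d) x).target ∩ (chartAt (V d) x).symm ⁻¹' (a '' {v | nsq v ≤ R})ᶜ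
  | Sum.inr none => {0}ᶜ
  | Sum.inr (some _) => univ

/-- coordinate systems -/
def fK (a : V d → X) (i : X → W) (j : CP d → W) : X ⊕ Option (Fin d) → V d → W
  | Sum.inl x => fun z => i ((chartAt (V d) x).symm z)
  | Sum.inr none => fun z => i (a z)
  | Sum.inr (some k) => fun z => j (aff (some k) z)

/-- forms -/
def fS (η : Form d X 2) (sB : V d → (V d) [⋀^Fin 2]→L[ℝ] ℝ)
    (sC : Fin d → V d → (V d) [⋀^Fin 2]→L[ℝ] ℝ) :
    X ⊕ Option (Fin d) → V d → (V d) [⋀^Fin 2]→L[ℝ] ℝ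
  | Sum.inl x => pb (chartAt (V d) x).symm η
  | Sum.inr none => sB
  | Sum.inr (some k) => sC k

theorem aff_some_ne (k : Fin d) (c : V d) : aff (some k) c ≠ aff none 0 := by
  intro h
  obtain ⟨t, ht⟩ := (line_eq (hvec_ne (some k) c) (hvec_ne none (0 : V d))).1 h
  have h1 := congrArg Prod.fst ht
  simp only [hvec, Prod.smul_fst, smul_zero] at h1
  exact Zk_ne k c h1.symm

theorem aff_bk {k : Fin d} {c : V d} (hc : c k ≠ 0) :
    aff (some k) c = aff none (inversion (bk k c)) := by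
  unfold bk
  rw [inversion_inversion]
  exact (aff_line none (hvec_ne (some k) c) hc).symm

theorem bk_ne {k : Fin d} {c : V d} (hc : c k ≠ 0) : bk k c ≠ 0 := by
  rw [bk_eq]
  refine smul_ne_zero (div_ne_zero (by simpa using hc) ?_) (Zk_ne k c)
  exact_mod_cast (nsq_pos (Zk_ne k c)).ne'

theorem bk_of_eq {k : Fin d} {c v : V d} (hv : v ≠ 0)
    (h : aff (some k) c = aff none (inversion v)) : c k ≠ 0 ∧ bk k c = v := by
  have h1 : bk k c = v := by
    have h2 := congrArg (co none) h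
    rw [co_aff] at h2
    have h3 : co none (aff (some k) c) = aco none (hvec (some k) c) := co_line _ _
    rw [h3] at h2
    unfold bk
    rw [h2, inversion_inversion]
  refine ⟨fun hc => hv ?_, h1⟩
  rw [← h1, bk_zero hc]

theorem exists_blow {η : Form d X 2} (hη : IsSymplectic η) {a : V d → X} {i : X → W}
    {j : CP d → W} (h : IsConnectedSum a (aff none) i j)
    (h0 : ∀ u v, pb a η 0 ![u, v] = om u v) :
    ∃ Ω : Form d W 2, IsSymplectic Ω ∧ ∀ x, x ∉ range a → ∀ u v,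
      Ω (i x) ![mfderiv 𝓘(ℝ, V d) 𝓘(ℝ, V d) i x u, mfderiv 𝓘(ℝ, V d) 𝓘(ℝ, V d) i x v] =
        η x ![u, v] := by
  have ha := h.disc_left
  have hinj := ha.injOn
  have ha0 : ∀ v, v ≠ 0 → a v ≠ a 0 := fun v hv e => hv (hinj (mem_univ _) (mem_univ _) e)
  have hσ : ContDiff ℝ ∞ (pb a η) := by
    rw [← contDiffOn_univ]
    exact hη.smooth univ a isOpen_univ ha.smooth
  obtain ⟨R, sB, sC, L⟩ := exists_loc hσ
    (fun v => hη.closed univ a isOpen_univ ha.smooth v (mem_univ v)) h0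
    (fun v u hu => pb_nondeg (ha.ld (mem_univ v)) (hη.nondeg _) u hu)
  have hK : IsClosed (a '' {v | nsq v ≤ R}) :=
    ((isCompact_nsq R).image_of_continuousOn
      (ha.smooth.continuousOn.mono (subset_univ _))).isClosed
  have hK0 : a 0 ∈ a '' {v | nsq v ≤ R} := ⟨0, by
    change nsq 0 ≤ R
    rw [nsq_eq_zero.2 rfl]; exact L.pos.le, rfl⟩
  have hgl : ∀ v, v ≠ 0 → i (a v) = j (aff none (inversion v)) := fun v hv =>
    (h.glue _ _ (ha0 v hv) fun e => inversion_ne hv (aff_injective none e)).2 ⟨v, hv, rfl, rfl⟩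
  have hld : ∀ l, ∀ z ∈ fU a R l, LD d (fK a i j l) z := by
    rintro (x | _ | k) z hz
    · refine (h.left.ld ?_).comp (ld_chart_symm x hz.1)
      intro e
      exact hz.2 (by rw [mem_singleton_iff.1 e]; exact hK0)
    · exact (h.left.ld (ha0 z hz)).comp (ha.ld (mem_univ z))
    · exact (h.right.ld (aff_some_ne k z)).comp ((isOpenEmb_aff (some k)).ld (mem_univ z))
  have hop : ∀ l, IsOpen (fU a R l) := by
    rintro (x | _ | k)
    · exact (chartAt (V d) x).symm.isOpen_inter_preimage hK.isOpen_compl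
    · exact isOpen_compl_singleton
    · exact isOpen_univ
  have covi : ∀ x, x ≠ a 0 → (∃ z ∈ fU a R (Sum.inl x), fK a i j (Sum.inl x) z = i x) ∨
      ∃ z ∈ fU a R (Sum.inr none), fK a i j (Sum.inr none) z = i x := by
    intro x hx
    by_cases hxK : x ∈ a '' {v | nsq v ≤ R}
    · obtain ⟨v, hv, rfl⟩ := hxK
      exact Or.inr ⟨v, fun e => hx (by rw [mem_singleton_iff.1 e]), rfl⟩
    · refine Or.inl ⟨chartAt (V d) x x, ⟨mem_chart_target _ x, ?_⟩, ?_⟩
      · change (chartAt (V d) x).symm _ ∉ _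
        rw [(chartAt (V d) x).left_inv (mem_chart_source _ x)]
        exact hxK
      · change i ((chartAt (V d) x).symm _) = _
        rw [(chartAt (V d) x).left_inv (mem_chart_source _ x)]
  have cov3 : ∀ w : W, (∃ x, x ≠ a 0 ∧ i x = w) ∨ ∃ k c, c k = 0 ∧ j (aff (some k) c) = w := by
    intro w
    rcases h.cover w with hw | ⟨y, hy, rfl⟩
    · exact Or.inl hw
    · obtain ⟨l, hl⟩ := exists_dom y
      rw [← aff_co l hl] at hy ⊢
      cases l with
      | none =>
        have hv : co none y ≠ 0 := fun e => hy (by rw [e])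
        refine Or.inl ⟨a (inversion (co none y)), ha0 _ (inversion_ne hv), ?_⟩
        rw [hgl _ (inversion_ne hv), inversion_inversion]
      | some k =>
        by_cases hc : co (some k) y k = 0
        · exact Or.inr ⟨k, _, hc, rfl⟩
        · refine Or.inl ⟨a (bk k (co (some k) y)), ha0 _ (bk_ne hc), ?_⟩
          rw [hgl _ (bk_ne hc), ← aff_bk hc]
  have hF : Fam (fU a R) (fK a i j) := by
    refine ⟨hop, ?_, fun l z hz => (hld l z hz).1, fun l z hz => (hld l z hz).2⟩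
    intro w
    rcases cov3 w with ⟨x, hx, rfl⟩ | ⟨k, c, hc, rfl⟩
    · rcases covi x hx with ⟨z, hz, hz2⟩ | ⟨z, hz, hz2⟩
      · exact ⟨_, z, hz, hz2⟩
      · exact ⟨_, z, hz, hz2⟩
    · exact ⟨Sum.inr (some k), c, mem_univ c, rfl⟩
  set κ := fK a i j with hκ
  set s := fS η sB sC with hs
  have notK : ∀ (x : X) (z : V d), z ∈ fU a R (Sum.inl x) → (chartAt (V d) x).symm z ≠ a 0 := by
    intro x z hz e
    exact hz.2 (by rw [e]; exact hK0)
  have rAB : ∀ (x : X) (z v : V d), z ∈ fU a R (Sum.inl x) → v ≠ 0 →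
      (chartAt (V d) x).symm z = a v → Rel κ s (Sum.inl x) z (Sum.inr none) v := by
    intro x z v hz hv e
    obtain ⟨g, g1, g2, g3⟩ := (ld_chart_symm x hz.1).trans (ha.ld (mem_univ v)) e
    refine ⟨g, g1, g2, g3.mono fun t ht => congrArg i ht, ?_⟩
    have hvR : R < nsq v := by
      by_contra hc
      exact hz.2 ⟨v, not_lt.1 hc, e.symm⟩
    change pb (chartAt (V d) x).symm η z = (sB v).compContinuousLinearMap (fderiv ℝ g z)
    rw [L.far v hvR, ← g2]
    exact pb_comp η ((ha.ld (mem_univ _)).1.mdifferentiableAt (by simp))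
      (g1.differentiableAt (by simp)) g3
  have rCB : ∀ (k : Fin d) (c v : V d), v ≠ 0 → aff (some k) c = aff none (inversion v) →
      Rel κ s (Sum.inr (some k)) c (Sum.inr none) v := by
    intro k c v hv e
    obtain ⟨hc, hb⟩ := bk_of_eq hv e
    refine ⟨bk k, (contDiff_bk k).contDiffAt, hb, ?_, ?_⟩
    · have h1 : ∀ᶠ t : V d in 𝓝 c, t k ≠ 0 :=
        (isOpen_ne_fun (continuous_apply k) continuous_const).mem_nhds hc
      filter_upwards [h1] with t ht
      change j (aff (some k) t) = i (a (bk k t))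
      rw [hgl _ (bk_ne ht), ← aff_bk ht]
    · change sC k c = (sB v).compContinuousLinearMap (fderiv ℝ (bk k) c)
      rw [L.trB k c hc, ← hb]
      rfl
  obtain ⟨Ω, hΩ1, hΩ2, hΩ3⟩ := exists_form hF s (by
    rintro (x | _ | k)
    · exact hη.smooth _ _ (hop (Sum.inl x)) fun z hz =>
        (ld_chart_symm x hz.1).1.contMDiffWithinAt
    · exact fun z hz => (L.smB z hz).contDiffWithinAt
    · exact (L.smC k).contDiffOn) (by
    rintro (x | _ | k) z hz
    · exact hη.closed _ _ (hop (Sum.inl x)) (fun z hz =>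
        (ld_chart_symm x hz.1).1.contMDiffWithinAt) z hz
    · exact L.clB z hz
    · exact L.clC k z) (by
    have hAC : ∀ (x : X) (k : Fin d) (z c : V d), z ∈ fU a R (Sum.inl x) →
        κ (Sum.inl x) z = κ (Sum.inr (some k)) c →
        Rel κ s (Sum.inl x) z (Sum.inr (some k)) c := by
      intro x k z c hz e
      obtain ⟨v, hv, e1, e2⟩ := (h.glue _ _ (notK x z hz) (aff_some_ne k c)).1 e
      exact (rAB x z v hz hv e1).trans ((rCB k c v hv e2).symm (hld (Sum.inr (some k)) c (mem_univ c))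
        (hld (Sum.inr none) v hv))
    have hCB : ∀ (k : Fin d) (c v : V d), v ≠ 0 → κ (Sum.inr (some k)) c = κ (Sum.inr none) v →
        Rel κ s (Sum.inr (some k)) c (Sum.inr none) v := by
      intro k c v hv e
      obtain ⟨u, hu, e1, e2⟩ := (h.glue _ _ (ha0 v hv) (aff_some_ne k c)).1 e.symm
      have := hinj (mem_univ _) (mem_univ _) e1
      subst this
      exact rCB k c v hu e2
    rintro (x | _ | k) (x' | _ | l) z hz z' hz' e
    · have e1 : (chartAt (V d) x).symm z = (chartAt (V d) x').symm z' :=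
        h.left.injOn (notK x z hz) (notK x' z' hz') e
      obtain ⟨g, g1, g2, g3⟩ := (ld_chart_symm x hz.1).trans (ld_chart_symm x' hz'.1) e1
      refine ⟨g, g1, g2, g3.mono fun t ht => congrArg i ht, ?_⟩
      change pb (chartAt (V d) x).symm η z =
        (pb (chartAt (V d) x').symm η z').compContinuousLinearMap (fderiv ℝ g z)
      have k1 : LD d (chartAt (V d) x').symm (g z) := by
        rw [g2]; exact ld_chart_symm x' hz'.1
      rw [← g2]
      exact pb_comp η (k1.1.mdifferentiableAt (by simp)) (g1.differentiableAt (by simp)) g3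
    · exact rAB x z z' hz hz' (h.left.injOn (notK x z hz) (ha0 _ hz') e)
    · exact hAC x l z z' hz e
    · exact (rAB x' z' z hz' hz (h.left.injOn (notK x' z' hz') (ha0 _ hz) e.symm)).symm
        (hld (Sum.inl x') z' hz') (hld (Sum.inr none) z hz)
    · have e1 : z = z' := hinj (mem_univ _) (mem_univ _)
        (h.left.injOn (ha0 _ hz) (ha0 _ hz') e)
      subst e1
      refine ⟨id, contDiffAt_id, rfl, Eventually.of_forall fun t => rfl, ?_⟩
      rw [fderiv_id]
      ext v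
      rfl
    · exact (hCB l z' z hz e.symm).symm (hld (Sum.inr (some l)) z' hz') (hld (Sum.inr none) z hz)
    · exact (hAC x' k z' z hz' e.symm).symm (hld (Sum.inl x') z' hz')
        (hld (Sum.inr (some k)) z hz)
    · exact hCB k z z' hz' e
    · have e1 : aff (some k) z = aff (some l) z' :=
        h.right.injOn (aff_some_ne k z) (aff_some_ne l z') e
      have e2 : Zk k z l ≠ 0 := by
        have k1 : aff (some k) z ∈ dom (some l) := by
          rw [e1, ← range_aff]; exact ⟨z', rfl⟩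
        exact (mk_mem_dom (some l) (hvec_ne (some k) z)).1 k1
      have e3 : Hk k l z = z' := by
        have k1 := congrArg (co (some l)) e1
        rw [co_aff] at k1
        rw [← k1]
        exact (co_line _ _).symm
      refine ⟨Hk k l, contDiffAt_Hk e2, e3, ?_, ?_⟩
      · filter_upwards [eventually_Zk e2] with t ht
        change j (aff (some k) t) = j (aff (some l) (Hk k l t))
        congr 1
        exact (aff_line (some l) (hvec_ne (some k) t) ht).symm
      · change sC k z = (sC l z').compContinuousLinearMap (fderiv ℝ (Hk k l) z)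
        rw [L.trC k l z e2, ← e3]
        rfl)
  refine ⟨Ω, ⟨hΩ1, hΩ2, ?_⟩, ?_⟩
  · intro w
    rcases cov3 w with ⟨x, hx, rfl⟩ | ⟨k, c, hc, rfl⟩
    · rcases covi x hx with ⟨z, hz, hz2⟩ | ⟨z, hz, hz2⟩
      · rw [← hz2]
        refine nondeg_of_pb (hld _ z hz) ?_
        intro u hu
        rw [hΩ3 _ z hz] at hu
        exact pb_nondeg (ld_chart_symm x hz.1) (hη.nondeg _) u hu
      · rw [← hz2]
        refine nondeg_of_pb (hld _ z hz) ?_
        intro u hu
        rw [hΩ3 _ z hz] at hu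
        exact L.ndB z hz u hu
    · refine nondeg_of_pb (φ := κ (Sum.inr (some k))) (hld (Sum.inr (some k)) c (mem_univ c)) ?_
      intro u hu
      rw [hΩ3 (Sum.inr (some k)) c (mem_univ c)] at hu
      exact L.ndC k c hc u hu
  · intro x hx u v
    have hxs := mem_chart_source (V d) x
    have hz : chartAt (V d) x x ∈ fU a R (Sum.inl x) := by
      refine ⟨mem_chart_target _ x, ?_⟩
      change (chartAt (V d) x).symm _ ∉ _
      rw [(chartAt (V d) x).left_inv hxs]
      exact fun hc => hx (image_subset_range _ _ hc)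
    have hL := ld_chart_symm x hz.1
    have hx0 : x ≠ a 0 := fun e => hx ⟨0, e.symm⟩
    have h1 := hΩ3 _ _ hz
    obtain ⟨z, hzz⟩ : ∃ z, z = chartAt (V d) x x := ⟨_, rfl⟩
    rw [← hzz] at hz h1 hL
    have hzx : (chartAt (V d) x).symm z = x := by
      rw [hzz]; exact (chartAt (V d) x).left_inv hxs
    have hi : MDifferentiableAt 𝓘(ℝ, V d) 𝓘(ℝ, V d) i ((chartAt (V d) x).symm z) := by
      rw [hzx]
      exact (h.left.ld hx0).1.mdifferentiableAt (by simp)
    have h2 : mfderiv 𝓘(ℝ, V d) 𝓘(ℝ, V d) (κ (Sum.inl x)) z =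
        (mfderiv 𝓘(ℝ, V d) 𝓘(ℝ, V d) i ((chartAt (V d) x).symm z)).comp
          (mfderiv 𝓘(ℝ, V d) 𝓘(ℝ, V d) (chartAt (V d) x).symm z) :=
      mfderiv_comp z hi (hL.1.mdifferentiableAt (by simp))
    have key : ∀ y : X, y = (chartAt (V d) x).symm z → ∀ u v : TangentSpace 𝓘(ℝ, V d) y,
        Ω (i y) ![mfderiv 𝓘(ℝ, V d) 𝓘(ℝ, V d) i y u, mfderiv 𝓘(ℝ, V d) 𝓘(ℝ, V d) i y v] =
        η y ![u, v] := by
      rintro _ rfl u v
      obtain ⟨p, rfl⟩ := hL.surj u
      obtain ⟨q, rfl⟩ := hL.surj v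
      have h3 := congrArg (fun L => L ![p, q]) h1
      have h4 : pb (κ (Sum.inl x)) Ω z ![p, q] = pb (chartAt (V d) x).symm η z ![p, q] := h3
      rw [pb_apply, pb_apply, h2] at h4
      exact h4
    exact key x hzx.symm u v

end Pool.Agent.X168.BU
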