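import Pool.Agent.X168.BU.Defs

/-! The smooth structure of complex projective space. -/

set_option autoImplicit false

open Set Filter Topology
open scoped Manifold ContDiff

noncomputable section

namespace Pool.Agent.X168.BU

variable {d : ℕ}

theorem hco_hvec (l : Option (Fin d)) (v : V d) : hco l (hvec l v) = 1 := by
  cases l with
  | none => rfl
  | some l => simp [hco, hvec]

theorem hco_smul (l : Option (Fin d)) (c : ℂ) (x : V d × ℂ) : hco l (c • x) = c * hco l x := by
  cases l <;> rfl

theorem aco_hvec (l : Option (Fin d)) (v : V d) : aco l (hvec l v) = v := by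
  cases l with
  | none => simp [aco, hvec]
  | some l => simp [aco, hvec]

theorem aco_smul (l : Option (Fin d)) {c : ℂ} (hc : c ≠ 0) (x : V d × ℂ) :
    aco l (c • x) = aco l x := by
  cases l with
  | none =>
    simp only [aco, Prod.smul_snd, Prod.smul_fst, smul_eq_mul, mul_inv, smul_smul]
    congr 1
    field_simp
  | some l =>
    simp only [aco, Prod.smul_snd, Prod.smul_fst, Pi.smul_apply, smul_eq_mul, mul_inv, smul_smul]
    have h1 : c⁻¹ * (x.1 l)⁻¹ * c = (x.1 l)⁻¹ := by field_simp
    have h2 : c⁻¹ * (x.1 l)⁻¹ * (c * x.2) = (x.1 l)⁻¹ * x.2 := by field_simp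
    rw [h1, h2]

/-- a vector is a multiple of the standard vector with the same affine coordinates -/
theorem hvec_aco (l : Option (Fin d)) {x : V d × ℂ} (hx : hco l x ≠ 0) :
    x = hco l x • hvec l (aco l x) := by
  cases l with
  | none =>
    simp only [hco] at hx
    simp only [hco, hvec, aco]
    refine Prod.ext ?_ ?_
    · simp [smul_smul, hx]
    · simp
  | some l =>
    simp only [hco] at hx
    simp only [hco, hvec, aco]
    refine Prod.ext ?_ ?_
    · funext j
      by_cases hj : j = l
      · subst hj; simp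
      · simp [Function.update_of_ne hj, hx]
    · simp [hx]

/-- a nonzero vector on a line -/
def rp (p : CP d) : V d × ℂ := Projectivization.rep (K := ℂ) (V := V d × ℂ) p

theorem rp_ne (p : CP d) : rp p ≠ 0 := Projectivization.rep_nonzero (K := ℂ) (V := V d × ℂ) p

theorem line_rp (p : CP d) : line (rp p) (rp_ne p) = p :=
  Projectivization.mk_rep (K := ℂ) (V := V d × ℂ) p

theorem line_eq {x y : V d × ℂ} (hx : x ≠ 0) (hy : y ≠ 0) :
    (line x hx : CP d) = line y hy ↔ ∃ c : ℂ, c • y = x :=
  Projectivization.mk_eq_mk_iff' ℂ x y hx hy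

theorem exists_rp {x : V d × ℂ} (hx : x ≠ 0) : ∃ c : ℂ, c ≠ 0 ∧ c • x = rp (line x hx) := by
  obtain ⟨c, hc⟩ := Projectivization.exists_smul_eq_mk_rep ℂ x hx
  exact ⟨c, c.ne_zero, hc⟩

/-- affine coordinates of a point of projective space -/
def co (l : Option (Fin d)) (p : CP d) : V d := aco l (rp p)

theorem aff_line (l : Option (Fin d)) {x : V d × ℂ} (hx : x ≠ 0) (hl : hco l x ≠ 0) :
    aff l (aco l x) = line x hx := by
  unfold aff
  rw [line_eq]
  refine ⟨(hco l x)⁻¹, ?_⟩
  have h := congrArg (fun y => (hco l x)⁻¹ • y) (hvec_aco l hl)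
  simp only [smul_smul, inv_mul_cancel₀ hl, one_smul] at h
  exact h

theorem co_line (l : Option (Fin d)) {x : V d × ℂ} (hx : x ≠ 0) :
    co l (line x hx) = aco l x := by
  obtain ⟨c, hc0, hc⟩ := exists_rp hx
  unfold co
  rw [← hc]
  exact aco_smul l hc0 x

theorem co_aff (l : Option (Fin d)) (v : V d) : co l (aff l v) = v := by
  unfold aff
  rw [co_line, aco_hvec]

theorem aff_injective (l : Option (Fin d)) : Function.Injective (aff l) :=
  Function.LeftInverse.injective (co_aff l)

/-- the domain of the `l`-th affine chart -/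
def dom (l : Option (Fin d)) : Set (CP d) := {p | hco l (rp p) ≠ 0}

theorem mk_mem_dom (l : Option (Fin d)) {x : V d × ℂ} (hx : x ≠ 0) :
    line x hx ∈ dom l ↔ hco l x ≠ 0 := by
  obtain ⟨c, hc0, hc⟩ := exists_rp hx
  change hco l (rp (line x hx)) ≠ 0 ↔ _
  rw [← hc, hco_smul, mul_ne_zero_iff]
  exact ⟨fun h => h.2, fun h => ⟨hc0, h⟩⟩

theorem aff_co (l : Option (Fin d)) {p : CP d} (hp : p ∈ dom l) : aff l (co l p) = p := by
  have h := aff_line l (rp_ne p) hp
  rw [line_rp] at h
  exact h

theorem range_aff (l : Option (Fin d)) : range (aff l) = dom l := by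
  ext p
  constructor
  · rintro ⟨v, rfl⟩
    unfold aff
    rw [mk_mem_dom, hco_hvec]
    exact one_ne_zero
  · intro hp
    exact ⟨co l p, aff_co l hp⟩

theorem contDiff_update {E : Type*} [NormedAddCommGroup E] [NormedSpace ℝ E] {f : E → V d}
    {g : E → ℂ} {l : Fin d} {s : Set E} (hf : ContDiffOn ℝ ∞ f s) (hg : ContDiffOn ℝ ∞ g s) :
    ContDiffOn ℝ ∞ (fun x => Function.update (f x) l (g x)) s := by
  rw [contDiffOn_pi]
  intro j
  by_cases hj : j = l
  · subst hj; simpa using hg
  · simpa [Function.update_of_ne hj] using (contDiffOn_pi.1 hf) j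

theorem contDiff_hvec (l : Option (Fin d)) : ContDiff ℝ ∞ (hvec l : V d → V d × ℂ) := by
  cases l with
  | none => exact contDiff_id.prodMk contDiff_const
  | some l =>
    refine ContDiff.prodMk ?_ (contDiff_apply ℝ ℂ l)
    rw [← contDiffOn_univ]
    exact contDiff_update contDiffOn_id contDiffOn_const

theorem contDiff_hco (l : Option (Fin d)) : ContDiff ℝ ∞ (hco l : V d × ℂ → ℂ) := by
  cases l with
  | none => exact contDiff_snd
  | some l => exact (contDiff_apply ℝ ℂ l).comp contDiff_fst

theorem contDiffOn_aco (l : Option (Fin d)) :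
    ContDiffOn ℝ ∞ (aco l : V d × ℂ → V d) {x | hco l x ≠ 0} := by
  cases l with
  | none =>
    have h1 : ContDiffOn ℝ ∞ (fun x : V d × ℂ => x.2⁻¹) {x | hco none x ≠ 0} :=
      contDiff_snd.contDiffOn.inv fun x hx => hx
    exact h1.smul contDiff_fst.contDiffOn
  | some l =>
    have h0 : ContDiff ℝ ∞ (fun x : V d × ℂ => x.1 l) := (contDiff_apply ℝ ℂ l).comp contDiff_fst
    have h1 : ContDiffOn ℝ ∞ (fun x : V d × ℂ => (x.1 l)⁻¹) {x | hco (some l) x ≠ 0} :=
      h0.contDiffOn.inv fun x hx => hx
    exact contDiff_update (h1.smul contDiff_fst.contDiffOn) (h1.mul contDiff_snd.contDiffOn)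

theorem isOpen_CP {s : Set (CP d)} : IsOpen s ↔ ∀ l, IsOpen (aff l ⁻¹' s) := by
  rw [isOpen_iSup_iff]
  exact forall_congr' fun l => isOpen_coinduced

theorem continuous_aff (l : Option (Fin d)) : Continuous (aff l : V d → CP d) := by
  rw [continuous_def]
  intro s hs
  exact isOpen_CP.1 hs l

theorem isOpen_hco (l : Option (Fin d)) : IsOpen {x : V d × ℂ | hco l x ≠ 0} :=
  isOpen_ne_fun (contDiff_hco l).continuous continuous_const

theorem isOpen_trans (k l : Option (Fin d)) : IsOpen {v : V d | hco k (hvec l v) ≠ 0} :=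
  (isOpen_hco k).preimage (contDiff_hvec l).continuous

theorem contDiffOn_trans (k l : Option (Fin d)) :
    ContDiffOn ℝ ∞ (fun v : V d => aco k (hvec l v)) {v : V d | hco k (hvec l v) ≠ 0} :=
  (contDiffOn_aco k).comp (contDiff_hvec l).contDiffOn fun _ hv => hv

theorem isOpenMap_aff (l : Option (Fin d)) : IsOpenMap (aff l : V d → CP d) := by
  intro U hU
  rw [isOpen_CP]
  intro k
  have h : aff k ⁻¹' (aff l '' U) =
      {v : V d | hco l (hvec k v) ≠ 0} ∩ (fun v : V d => aco l (hvec k v)) ⁻¹' U := by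
    ext v
    constructor
    · rintro ⟨u, hu, huv⟩
      have h1 : aff k v ∈ dom l := by rw [← huv, ← range_aff]; exact ⟨u, rfl⟩
      have h2 : hco l (hvec k v) ≠ 0 := (mk_mem_dom l (hvec_ne k v)).1 h1
      refine ⟨h2, ?_⟩
      have h3 : co l (aff k v) = u := by rw [← huv, co_aff]
      have h4 : co l (aff k v) = aco l (hvec k v) := co_line l (hvec_ne k v)
      change aco l (hvec k v) ∈ U
      rw [← h4, h3]; exact hu
    · rintro ⟨h1, h2⟩
      exact ⟨aco l (hvec k v), h2, aff_line l (hvec_ne k v) h1⟩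
  rw [h]
  exact (contDiffOn_trans l k).continuousOn.isOpen_inter_preimage (isOpen_trans l k) hU

theorem isOpen_dom (l : Option (Fin d)) : IsOpen (dom l : Set (CP d)) := by
  rw [← range_aff]
  exact (isOpenMap_aff l).isOpen_range

/-- The affine charts. -/
def affChart (l : Option (Fin d)) : OpenPartialHomeomorph (CP d) (V d) where
  toFun := co l
  invFun := aff l
  source := range (aff l)
  target := univ
  map_source' := fun _ _ => mem_univ _
  map_target' := fun v _ => ⟨v, rfl⟩
  left_inv' := fun p hp => aff_co l (by rw [← range_aff]; exact hp)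
  right_inv' := fun v _ => co_aff l v
  open_source := (isOpenMap_aff l).isOpen_range
  open_target := isOpen_univ
  continuousOn_toFun := by
    rw [continuousOn_open_iff ((isOpenMap_aff l).isOpen_range)]
    intro U hU
    have h : range (aff l) ∩ co l ⁻¹' U = aff l '' U := by
      ext p
      constructor
      · rintro ⟨⟨v, rfl⟩, hv⟩
        rw [mem_preimage, co_aff] at hv
        exact ⟨v, hv, rfl⟩
      · rintro ⟨v, hv, rfl⟩
        exact ⟨⟨v, rfl⟩, by rw [mem_preimage, co_aff]; exact hv⟩
    rw [h]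
    exact isOpenMap_aff l U hU
  continuousOn_invFun := (continuous_aff l).continuousOn

theorem exists_dom (p : CP d) : ∃ l, p ∈ dom l := by
  by_contra h
  have h1 : ∀ l, hco l (rp p) = 0 := fun l => by
    by_contra h2
    exact h ⟨l, h2⟩
  apply rp_ne p
  exact Prod.ext (funext fun k => h1 (some k)) (h1 none)

/-- The smooth structure of `ℂPᵈ`: the atlas consists of the `d + 1` affine charts. -/
instance instChartedCP : ChartedSpace (V d) (CP d) where
  atlas := range affChart
  chartAt p := affChart (exists_dom p).choose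
  mem_chart_source p := by
    change p ∈ range (aff _)
    rw [range_aff]
    exact (exists_dom p).choose_spec
  chart_mem_atlas p := ⟨_, rfl⟩

instance instMfdCP : IsManifold 𝓘(ℝ, V d) ∞ (CP d) := by
  apply isManifold_of_contDiffOn
  rintro _ _ ⟨k, rfl⟩ ⟨l, rfl⟩
  have h1 : (𝓘(ℝ, V d) ∘ ((affChart k).symm ≫ₕ (affChart l)) ∘ 𝓘(ℝ, V d).symm) =
      fun v : V d => aco l (hvec k v) := by
    funext v
    simp only [modelWithCornersSelf_coe_symm, modelWithCornersSelf_coe, Function.comp_apply,
      id_eq, OpenPartialHomeomorph.coe_trans]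
    exact co_line l (hvec_ne k v)
  rw [h1]
  refine (contDiffOn_trans l k).mono ?_
  intro v hv
  have h2 : aff k v ∈ range (aff l) := by
    simp only [modelWithCornersSelf_coe_symm, range_id, inter_univ, modelWithCornersSelf_coe,
      preimage_id_eq, id_eq, OpenPartialHomeomorph.trans_source] at hv
    exact hv.2
  rw [range_aff] at h2
  exact (mk_mem_dom l (hvec_ne k v)).1 h2

theorem affChart_mem (l : Option (Fin d)) :
    affChart l ∈ IsManifold.maximalAtlas 𝓘(ℝ, V d) ∞ (CP d) :=
  IsManifold.subset_maximalAtlas ⟨l, rfl⟩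

theorem contMDiff_aff (l : Option (Fin d)) :
    ContMDiff 𝓘(ℝ, V d) 𝓘(ℝ, V d) ∞ (aff l : V d → CP d) := by
  have h := contMDiffOn_symm_of_mem_maximalAtlas (affChart_mem (d := d) l)
  have h2 : (affChart l : OpenPartialHomeomorph (CP d) (V d)).target = univ := rfl
  rw [h2] at h
  exact contMDiffOn_univ.1 h

theorem contMDiffOn_co (l : Option (Fin d)) :
    ContMDiffOn 𝓘(ℝ, V d) 𝓘(ℝ, V d) ∞ (co l : CP d → V d) (range (aff l)) :=
  contMDiffOn_of_mem_maximalAtlas (affChart_mem (d := d) l)

theorem isOpenEmb_aff (l : Option (Fin d)) : IsOpenEmb d (aff l : V d → CP d) univ where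
  isOpen := isOpen_univ
  isOpen_image := by rw [image_univ]; exact (isOpenMap_aff l).isOpen_range
  smooth := (contMDiff_aff l).contMDiffOn
  smooth_inv := ⟨co l, fun v _ => co_aff l v, by rw [image_univ]; exact contMDiffOn_co l⟩

end Pool.Agent.X168.BU
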