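import Mathlib

/-!
Manifolds of dimension `2 d` modelled on `ℂᵈ`, differential forms on them, symplectic forms,
complex projective space, connected sums.
-/

set_option autoImplicit false

open Set Filter Topology
open scoped Manifold ContDiff

noncomputable section

namespace Pool.Agent.X168.BU

/-- `ℂᵈ`. Regarded as a real vector space of dimension `2 d`, it is the model space of all
the manifolds of dimension `2 d` below. -/
abbrev V (d : ℕ) : Type := Fin d → ℂ

section forms

variable {d : ℕ} {X : Type} [TopologicalSpace X] [ChartedSpace (V d) X]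

/-- A smooth `2 d`-dimensional manifold: the coordinate changes are real `C^∞` maps. -/
abbrev SmoothMfd (d : ℕ) (X : Type) [TopologicalSpace X] [ChartedSpace (V d) X] : Prop :=
  IsManifold 𝓘(ℝ, V d) ∞ X

variable (d X) in
/-- A differential form of degree `k` on `X`: an alternating `k`-linear form on each tangent
space; no regularity is required here. -/
abbrev Form (k : ℕ) : Type := (x : X) → (TangentSpace 𝓘(ℝ, V d) x) [⋀^Fin k]→L[ℝ] ℝ

/-- The pull-back of a form by a map from the model space. -/
def pb {k : ℕ} (φ : V d → X) (σ : Form d X k) (p : V d) : (V d) [⋀^Fin k]→L[ℝ] ℝ :=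
  (σ (φ p)).compContinuousLinearMap (mfderiv 𝓘(ℝ, V d) 𝓘(ℝ, V d) φ p)

/-- A form is smooth if its pull-back by every smooth map from an open subset of the model space
(such as an inverse chart) is smooth. -/
def IsSmooth {k : ℕ} (σ : Form d X k) : Prop :=
  ∀ (U : Set (V d)) (φ : V d → X), IsOpen U → ContMDiffOn 𝓘(ℝ, V d) 𝓘(ℝ, V d) ∞ φ U →
    ContDiffOn ℝ ∞ (pb φ σ) U

/-- A form is closed if the exterior derivative of its pull-back by every smooth map from an open
subset of the model space vanishes. -/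
def IsClosedForm {k : ℕ} (σ : Form d X k) : Prop :=
  ∀ (U : Set (V d)) (φ : V d → X), IsOpen U → ContMDiffOn 𝓘(ℝ, V d) 𝓘(ℝ, V d) ∞ φ U →
    ∀ p ∈ U, extDeriv (pb φ σ) p = 0

/-- Symplectic forms: smooth closed nondegenerate two-forms. -/
structure IsSymplectic (σ : Form d X 2) : Prop where
  smooth : IsSmooth σ
  closed : IsClosedForm σ
  nondeg : ∀ (x : X) (v : TangentSpace 𝓘(ℝ, V d) x), (∀ w, σ x ![v, w] = 0) → v = 0

end forms

section maps

variable {d : ℕ} {X Y : Type} [TopologicalSpace X] [ChartedSpace (V d) X]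
  [TopologicalSpace Y] [ChartedSpace (V d) Y]

/-- `f` maps the open set `U` diffeomorphically onto an open set. -/
structure IsOpenEmb (d : ℕ) {X Y : Type} [TopologicalSpace X] [ChartedSpace (V d) X]
    [TopologicalSpace Y] [ChartedSpace (V d) Y] (f : X → Y) (U : Set X) : Prop where
  isOpen : IsOpen U
  isOpen_image : IsOpen (f '' U)
  smooth : ContMDiffOn 𝓘(ℝ, V d) 𝓘(ℝ, V d) ∞ f U
  smooth_inv : ∃ g : Y → X, (∀ x ∈ U, g (f x) = x) ∧
    ContMDiffOn 𝓘(ℝ, V d) 𝓘(ℝ, V d) ∞ g (f '' U)

end maps

/-- The square of the Euclidean norm of `ℂᵈ`. -/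
def nsq {d : ℕ} (v : V d) : ℝ := ∑ i, ‖v i‖ ^ 2

/-- The inversion `v ↦ v / |v|²` of `ℂᵈ ∖ {0}` in the unit sphere. -/
def inversion {d : ℕ} (v : V d) : V d := (nsq v)⁻¹ • v

/-- The standard (linear) symplectic form `∑ dx_k ∧ dy_k` of `ℂᵈ`, as a bilinear function. -/
def om {d : ℕ} (h k : V d) : ℝ := ∑ i, ((h i).re * (k i).im - (h i).im * (k i).re)

/-- `W` is a connected sum of `X` and `Y`, formed with the embedded discs `a : ℂᵈ → X` and
`b : ℂᵈ → Y`: it is the union of the open submanifolds `i (X ∖ {a 0})` and `j (Y ∖ {b 0})`, where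
`i` and `j` are diffeomorphisms from `X ∖ {a 0}` and `Y ∖ {b 0}` onto open subsets, and the two
pieces are glued by identifying `a v` with `b (v / |v|²)`, for `v ≠ 0`. -/
structure IsConnectedSum {d : ℕ} {X Y W : Type} [TopologicalSpace X] [ChartedSpace (V d) X]
    [TopologicalSpace Y] [ChartedSpace (V d) Y] [TopologicalSpace W] [ChartedSpace (V d) W]
    (a : V d → X) (b : V d → Y) (i : X → W) (j : Y → W) : Prop where
  disc_left : IsOpenEmb d a univ
  disc_right : IsOpenEmb d b univ
  left : IsOpenEmb d i {a 0}ᶜ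
  right : IsOpenEmb d j {b 0}ᶜ
  cover : ∀ w : W, (∃ x, x ≠ a 0 ∧ i x = w) ∨ (∃ y, y ≠ b 0 ∧ j y = w)
  glue : ∀ x y, x ≠ a 0 → y ≠ b 0 →
    (i x = j y ↔ ∃ v, v ≠ 0 ∧ x = a v ∧ y = b (inversion v))

section projective

variable {d : ℕ}

/-- Complex projective space `ℂPᵈ`: the set of lines of `ℂᵈ⁺¹ = ℂᵈ × ℂ`. -/
def CP (d : ℕ) : Type := Projectivization ℂ (V d × ℂ)

/-- The line through a nonzero vector, as a point of `ℂPᵈ`. -/
def line (x : V d × ℂ) (hx : x ≠ 0) : CP d := Projectivization.mk ℂ x hx

/-- The vectors with homogeneous coordinates `(v₁ : … : v_d : 1)` (for `l = none`), and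
`(v₁ : … : 1 : … : v_d : v_l)`, with `1` in the place `l` (for `l = some l`). -/
def hvec : Option (Fin d) → V d → V d × ℂ
  | none, v => (v, 1)
  | some l, v => (Function.update v l 1, v l)

theorem hvec_ne (l : Option (Fin d)) (v : V d) : hvec l v ≠ 0 := by
  cases l with
  | none => intro h; exact one_ne_zero (congrArg Prod.snd h)
  | some l =>
    intro h
    have h1 := congrFun (congrArg Prod.fst h) l
    simp [hvec] at h1

/-- The inverses of the `d + 1` standard affine charts of `ℂPᵈ`. -/
def aff (l : Option (Fin d)) (v : V d) : CP d := line (hvec l v) (hvec_ne l v)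

/-- The topology of `ℂPᵈ`: a set is open if its preimages in the affine charts are open. -/
instance instTopCP : TopologicalSpace (CP d) :=
  ⨆ l : Option (Fin d), TopologicalSpace.coinduced (aff l) inferInstance

/-- The homogeneous coordinates of a vector of `ℂᵈ⁺¹`. -/
def hco : Option (Fin d) → V d × ℂ → ℂ
  | none, x => x.2
  | some l, x => x.1 l

/-- The affine coordinates, in the `l`-th affine chart, of the line through a vector. -/
def aco : Option (Fin d) → V d × ℂ → V d
  | none, x => x.2⁻¹ • x.1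
  | some l, x => Function.update ((x.1 l)⁻¹ • x.1) l ((x.1 l)⁻¹ * x.2)

end projective

end Pool.Agent.X168.BU
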