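import Pool.Agent.X168.BU.Alt
import Pool.Agent.X168.BU.Defs

/-! The hermitian form of `ℂᵈ`, and the two-forms `d (f(|v|²) · ½ om(v, ·))`. -/

set_option autoImplicit false

open Set Filter Topology Finset
open scoped Manifold ContDiff ComplexConjugate

noncomputable section

namespace Pool.Agent.X168.BU

variable {d : ℕ}

/-- the hermitian form -/
def hm (v h : V d) : ℂ := ∑ i, conj (v i) * h i

theorem hm_im (v h : V d) : (hm v h).im = om v h := by
  simp only [hm, om, Complex.im_sum, Complex.mul_im, Complex.conj_re, Complex.conj_im]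
  exact Finset.sum_congr rfl fun i _ => by ring

theorem hm_self (v : V d) : hm v v = (nsq v : ℂ) := by
  simp only [hm, nsq, Complex.ofReal_sum]
  refine Finset.sum_congr rfl fun i _ => ?_
  rw [mul_comm, Complex.mul_conj, Complex.normSq_eq_norm_sq]

theorem hm_add_right (v h k : V d) : hm v (h + k) = hm v h + hm v k := by
  simp only [hm, Pi.add_apply, mul_add, Finset.sum_add_distrib]

theorem hm_add_left (v h k : V d) : hm (v + h) k = hm v k + hm h k := by
  simp only [hm, Pi.add_apply, map_add, add_mul, Finset.sum_add_distrib]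

theorem hm_smul_right (c : ℂ) (v h : V d) : hm v (c • h) = c * hm v h := by
  simp only [hm, Pi.smul_apply, smul_eq_mul, Finset.mul_sum]
  exact Finset.sum_congr rfl fun i _ => by ring

theorem hm_smul_left (c : ℂ) (v h : V d) : hm (c • v) h = conj c * hm v h := by
  simp only [hm, Pi.smul_apply, smul_eq_mul, map_mul, Finset.mul_sum]
  exact Finset.sum_congr rfl fun i _ => by ring

theorem hm_conj (v h : V d) : conj (hm v h) = hm h v := by
  simp only [hm, map_sum, map_mul, Complex.conj_conj]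
  exact Finset.sum_congr rfl fun i _ => by ring

theorem nsq_nonneg (v : V d) : 0 ≤ nsq v := Finset.sum_nonneg fun _ _ => by positivity

theorem nsq_pos {v : V d} (hv : v ≠ 0) : 0 < nsq v := by
  obtain ⟨i, hi⟩ := Function.ne_iff.1 hv
  have h1 : 0 < ‖v i‖ ^ 2 := by
    have := norm_pos_iff.2 hi
    positivity
  exact lt_of_lt_of_le h1 (Finset.single_le_sum (f := fun i => ‖v i‖ ^ 2)
    (fun _ _ => by positivity) (Finset.mem_univ i))

theorem nsq_eq_zero {v : V d} : nsq v = 0 ↔ v = 0 := by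
  constructor
  · intro h
    by_contra h2
    exact (nsq_pos h2).ne' h
  · rintro rfl
    simp [nsq]

theorem nsq_smul (c : ℂ) (v : V d) : nsq (c • v) = ‖c‖ ^ 2 * nsq v := by
  simp only [nsq, Pi.smul_apply, smul_eq_mul, norm_mul, mul_pow, Finset.mul_sum]

theorem nsq_rsmul (c : ℝ) (v : V d) : nsq (c • v) = c ^ 2 * nsq v := by
  have h : (c • v : V d) = (c : ℂ) • v := by
    funext i; simp
  rw [h, nsq_smul]
  simp

theorem cauchy (v h : V d) : ‖hm v h‖ ^ 2 ≤ nsq v * nsq h := by
  have h1 : ‖hm v h‖ ≤ ∑ i, ‖v i‖ * ‖h i‖ := by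
    refine (norm_sum_le _ _).trans (le_of_eq ?_)
    refine Finset.sum_congr rfl fun i _ => ?_
    rw [norm_mul, RCLike.norm_conj]
  have h2 : (∑ i, ‖v i‖ * ‖h i‖) ^ 2 ≤ (∑ i, ‖v i‖ ^ 2) * ∑ i, ‖h i‖ ^ 2 :=
    Finset.sum_mul_sq_le_sq_mul_sq _ _ _
  calc ‖hm v h‖ ^ 2 ≤ (∑ i, ‖v i‖ * ‖h i‖) ^ 2 := by
        apply pow_le_pow_left₀ (norm_nonneg _) h1
    _ ≤ _ := h2

/-- the form `om` as a bilinear map -/
def omL (d : ℕ) : V d →L[ℝ] V d →L[ℝ] ℝ :=
  ∑ i, ((Complex.reCLM.comp (ContinuousLinearMap.proj (R := ℝ) (φ := fun _ : Fin d => ℂ) i)).smulRight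
      (Complex.imCLM.comp (ContinuousLinearMap.proj (R := ℝ) (φ := fun _ : Fin d => ℂ) i)) -
    (Complex.imCLM.comp (ContinuousLinearMap.proj (R := ℝ) (φ := fun _ : Fin d => ℂ) i)).smulRight
      (Complex.reCLM.comp (ContinuousLinearMap.proj (R := ℝ) (φ := fun _ : Fin d => ℂ) i)))

@[simp] theorem omL_apply (h k : V d) : omL d h k = om h k := by
  simp [omL, om, _root_.sum_apply]

theorem om_anti (h k : V d) : om h k = - om k h := by
  simp only [om, ← Finset.sum_neg_distrib]
  exact Finset.sum_congr rfl fun i _ => by ring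

theorem om_self (h : V d) : om h h = 0 := by
  simp only [om]
  exact Finset.sum_eq_zero fun i _ => by ring

theorem I_smul_hm (v h : V d) : hm v (Complex.I • h) = Complex.I * hm v h := hm_smul_right _ _ _

theorem om_I (h : V d) : om h (Complex.I • h) = nsq h := by
  rw [← hm_im, hm_smul_right, hm_self]
  simp

theorem om_vI (v h : V d) : om v (Complex.I • h) = (hm v h).re := by
  rw [← hm_im, hm_smul_right]
  simp

theorem re_vI (v h : V d) : (hm v (Complex.I • h)).re = - om v h := by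
  rw [← hm_im, hm_smul_right]
  simp

/-- derivative of the square of the norm -/
theorem hasFDerivAt_nsq (v : V d) :
    HasFDerivAt (nsq : V d → ℝ)
      (∑ i, (2 * (v i).re) • (Complex.reCLM.comp
          (ContinuousLinearMap.proj (R := ℝ) (φ := fun _ : Fin d => ℂ) i)) +
        ∑ i, (2 * (v i).im) • (Complex.imCLM.comp
          (ContinuousLinearMap.proj (R := ℝ) (φ := fun _ : Fin d => ℂ) i))) v := by
  have h0 : (nsq : V d → ℝ) = fun v => ∑ i, (v i).re ^ 2 + ∑ i, (v i).im ^ 2 := by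
    funext w
    simp only [nsq, ← Finset.sum_add_distrib]
    refine Finset.sum_congr rfl fun i _ => ?_
    rw [← Complex.normSq_eq_norm_sq, Complex.normSq_apply]
    ring
  rw [h0]
  refine HasFDerivAt.add ?_ ?_
  · refine HasFDerivAt.fun_sum fun i _ => ?_
    have h1 : HasFDerivAt (fun w : V d => (w i).re) (Complex.reCLM.comp
        (ContinuousLinearMap.proj (R := ℝ) (φ := fun _ : Fin d => ℂ) i)) v :=
      (Complex.reCLM.comp (ContinuousLinearMap.proj (R := ℝ) (φ := fun _ : Fin d => ℂ) i)).hasFDerivAt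
    exact (h1.pow 2).congr_fderiv (by ext w; simp)
  · refine HasFDerivAt.fun_sum fun i _ => ?_
    have h1 : HasFDerivAt (fun w : V d => (w i).im) (Complex.imCLM.comp
        (ContinuousLinearMap.proj (R := ℝ) (φ := fun _ : Fin d => ℂ) i)) v :=
      (Complex.imCLM.comp (ContinuousLinearMap.proj (R := ℝ) (φ := fun _ : Fin d => ℂ) i)).hasFDerivAt
    exact (h1.pow 2).congr_fderiv (by ext w; simp)

theorem fderiv_nsq (v h : V d) : fderiv ℝ (nsq : V d → ℝ) v h = 2 * (hm v h).re := by
  rw [(hasFDerivAt_nsq v).fderiv]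
  simp only [_root_.add_apply, _root_.sum_apply,
    _root_.smul_apply, ContinuousLinearMap.comp_apply, ContinuousLinearMap.proj_apply,
    Complex.reCLM_apply, Complex.imCLM_apply, smul_eq_mul, hm, Complex.re_sum, Complex.mul_re,
    Complex.conj_re, Complex.conj_im, Finset.mul_sum, ← Finset.sum_add_distrib]
  exact Finset.sum_congr rfl fun i _ => by ring

theorem contDiff_nsq : ContDiff ℝ ∞ (nsq : V d → ℝ) := by
  unfold nsq
  refine ContDiff.sum fun i _ => ?_
  exact (contDiff_norm_sq ℝ).comp (contDiff_apply ℝ ℂ i)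

/-- one-forms as alternating maps -/
def oneL (d : ℕ) : (V d →L[ℝ] ℝ) →L[ℝ] (V d) [⋀^Fin 1]→L[ℝ] ℝ :=
  LinearMap.mkContinuous
    { toFun := fun a => ContinuousAlternatingMap.ofSubsingleton ℝ (V d) ℝ (0 : Fin 1) a
      map_add' := fun a b => by ext v; rfl
      map_smul' := fun c a => by ext v; rfl } 1 fun a => by
    refine ContinuousAlternatingMap.opNorm_le_bound _ (by positivity) fun v => ?_
    simpa using a.le_opNorm (v 0)

@[simp] theorem oneL_apply (a : V d →L[ℝ] ℝ) (v : Fin 1 → V d) : oneL d a v = a (v 0) := rfl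

/-- the one-form `½ f(|v|²) om(v, ·)` -/
def lam (f : ℝ → ℝ) (v : V d) : (V d) [⋀^Fin 1]→L[ℝ] ℝ := oneL d ((f (nsq v) / 2) • omL d v)

/-- the two-form `d (½ f(|v|²) om(v, ·))` -/
def Lam (f : ℝ → ℝ) : V d → (V d) [⋀^Fin 2]→L[ℝ] ℝ := extDeriv (lam f)

theorem contDiffAt_lam {f : ℝ → ℝ} {v : V d} (hf : ContDiffAt ℝ ∞ f (nsq v)) :
    ContDiffAt ℝ ∞ (lam f : V d → _) v := by
  unfold lam
  refine (oneL d).contDiff.contDiffAt.comp v ?_
  have h1 : ContDiffAt ℝ ∞ (fun v : V d => f (nsq v) / 2) v :=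
    (hf.comp v contDiff_nsq.contDiffAt).div_const 2
  have h2 : ContDiffAt ℝ ∞ (fun v : V d => omL d v) v := (omL d).contDiff.contDiffAt
  exact h1.smul h2

theorem contDiffAt_extDeriv {k : ℕ} {s : V d → (V d) [⋀^Fin k]→L[ℝ] ℝ} {v : V d}
    (hs : ContDiffAt ℝ ∞ s v) : ContDiffAt ℝ ∞ (extDeriv s) v := by
  have h1 : ContDiffAt ℝ ∞ (fderiv ℝ s) v := hs.fderiv_right (by simp)
  exact (ContinuousAlternatingMap.alternatizeUncurryFinCLM ℝ (V d) ℝ).contDiff.contDiffAt.comp v h1

theorem contDiffAt_Lam {f : ℝ → ℝ} {v : V d} (hf : ContDiffAt ℝ ∞ f (nsq v)) :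
    ContDiffAt ℝ ∞ (Lam f : V d → _) v := contDiffAt_extDeriv (contDiffAt_lam hf)

theorem closed_Lam {f : ℝ → ℝ} {v : V d} (hf : ContDiffAt ℝ ∞ f (nsq v)) :
    extDeriv (Lam f : V d → _) v = 0 :=
  extDeriv_extDeriv_apply (contDiffAt_lam hf)
    (by rw [minSmoothness_of_isRCLikeNormedField]; exact ENat.LEInfty.out)

theorem Lam_apply {f : ℝ → ℝ} {v : V d} (hf : ContDiffAt ℝ ∞ f (nsq v)) (h k : V d) :
    Lam f v ![h, k] = f (nsq v) * om h k +
      deriv f (nsq v) * ((hm v h).re * om v k - (hm v k).re * om v h) := by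
  unfold Lam
  rw [extDeriv_apply ((contDiffAt_lam hf).differentiableAt (by simp))]
  have hfd : HasFDerivAt (fun w : V d => f (nsq w))
      (deriv f (nsq v) • fderiv ℝ (nsq : V d → ℝ) v) v := by
    have h1 : HasDerivAt f (deriv f (nsq v)) (nsq v) :=
      (hf.differentiableAt (by simp)).hasDerivAt
    exact h1.comp_hasFDerivAt v (contDiff_nsq.contDiffAt.differentiableAt (by simp)).hasFDerivAt
  have key : ∀ a : V d, ∀ b : V d, fderiv ℝ (fun w : V d => (f (nsq w) / 2) * om w a) v b =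
      deriv f (nsq v) * (hm v b).re * om v a + f (nsq v) / 2 * om b a := by
    intro a b
    have h1 : HasFDerivAt (fun w : V d => om w a) ((omL d).flip a) v := by
      have h3 := ((omL d).flip a).hasFDerivAt (x := v)
      have e : (fun w : V d => om w a) = fun w => (omL d).flip a w := by
        funext w
        simp
      rw [e]
      exact h3
    have h2 := (hfd.mul_const (1 / 2)).mul h1
    have e2 : (fun w : V d => (f (nsq w) / 2) * om w a) =
        fun w => (f (nsq w) * (1 / 2)) * om w a := by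
      funext w
      ring
    rw [e2]
    change (fderiv ℝ ((fun y => f (nsq y) * (1 / 2)) * fun w => om w a) v) b = _
    rw [h2.fderiv]
    simp only [_root_.add_apply, _root_.smul_apply, smul_eq_mul,
      ContinuousLinearMap.flip_apply, omL_apply, fderiv_nsq]
    ring
  rw [Fin.sum_univ_two]
  have e1 : (fun w : V d => lam f w (Fin.removeNth 0 ![h, k])) =
      fun w => (f (nsq w) / 2) * om w k := by
    funext w
    simp [lam, Fin.removeNth]
  have e2 : (fun w : V d => lam f w (Fin.removeNth 1 ![h, k])) =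
      fun w => (f (nsq w) / 2) * om w h := by
    funext w
    simp [lam, Fin.removeNth]
  rw [e1, e2, key, key]
  simp only [Fin.val_zero, pow_zero, Matrix.cons_val_zero, one_smul, Fin.val_one, pow_one,
    Matrix.cons_val_one, neg_smul]
  rw [om_anti k h]
  ring

theorem Lam_tame {f : ℝ → ℝ} {v : V d} (hf : ContDiffAt ℝ ∞ f (nsq v)) (h : V d) :
    Lam f v ![h, Complex.I • h] = f (nsq v) * nsq h + deriv f (nsq v) * ‖hm v h‖ ^ 2 := by
  rw [Lam_apply hf, om_I, om_vI, re_vI, ← hm_im, ← Complex.normSq_eq_norm_sq,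
    Complex.normSq_apply]
  ring

end Pool.Agent.X168.BU
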