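import Pool.Agent.X168.BU.LD
import Pool.Agent.X168.BU.Herm

/-! Connected sums: construction. -/

set_option autoImplicit false

open Set Topology Filter
open scoped ContDiff Manifold

noncomputable section

namespace Pool.Agent.X168.BU

variable {d : ℕ}

theorem nsq_inversion (v : V d) : nsq (inversion v) = (nsq v)⁻¹ := by
  unfold inversion
  rw [nsq_rsmul]
  rcases eq_or_ne (nsq v) 0 with h | h
  · simp [h]
  · field_simp

theorem inversion_inversion (v : V d) : inversion (inversion v) = v := by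
  rcases eq_or_ne v 0 with rfl | h
  · simp [inversion]
  · have h1 : nsq v ≠ 0 := (nsq_pos h).ne'
    have h2 : inversion (inversion v) = (nsq (inversion v))⁻¹ • inversion v := rfl
    rw [h2, nsq_inversion, inv_inv]
    unfold inversion
    rw [smul_smul, mul_inv_cancel₀ h1, one_smul]

theorem inversion_ne {v : V d} (h : v ≠ 0) : inversion v ≠ 0 := by
  intro h1
  apply h
  rw [← inversion_inversion v, h1]
  simp [inversion]

theorem contDiffAt_inversion {v : V d} (h : v ≠ 0) : ContDiffAt ℝ ∞ (inversion : V d → V d) v :=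
  (contDiff_nsq.contDiffAt.inv (nsq_pos h).ne').smul contDiffAt_id

theorem ld_inversion {v : V d} (h : v ≠ 0) : LD d (inversion : V d → V d) v := by
  refine ⟨(contDiffAt_inversion h).contMDiffAt, inversion,
    (contDiffAt_inversion (inversion_ne h)).contMDiffAt, inversion_inversion v, ?_, ?_⟩
  · exact Eventually.of_forall inversion_inversion
  · exact Eventually.of_forall inversion_inversion

theorem isCompact_nsq (r : ℝ) : IsCompact {v : V d | nsq v ≤ r} := by
  apply Metric.isCompact_of_isClosed_isBounded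
  · exact isClosed_le contDiff_nsq.continuous continuous_const
  · refine (Metric.isBounded_closedBall (x := (0 : V d)) (r := |r| + 1)).subset fun v hv => ?_
    rw [mem_closedBall_zero_iff, pi_norm_le_iff_of_nonneg (by positivity)]
    intro i
    have h1 : ‖v i‖ ^ 2 ≤ nsq v := Finset.single_le_sum (f := fun i => ‖v i‖ ^ 2)
      (fun _ _ => by positivity) (Finset.mem_univ i)
    have h2 : nsq v ≤ r := hv
    have h3 : r ≤ |r| := le_abs_self r
    nlinarith [norm_nonneg (v i), abs_nonneg r]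

/-- set-level connected sum -/
structure SetSum {X Y W : Type} (a : V d → X) (b : V d → Y) (i : X → W) (j : Y → W) : Prop where
  inj_left : InjOn i {a 0}ᶜ
  inj_right : InjOn j {b 0}ᶜ
  cover : ∀ w : W, (∃ x, x ≠ a 0 ∧ i x = w) ∨ (∃ y, y ≠ b 0 ∧ j y = w)
  glue : ∀ x y, x ≠ a 0 → y ≠ b 0 → (i x = j y ↔ ∃ v, v ≠ 0 ∧ x = a v ∧ y = b (inversion v))

theorem SetSum.symm {X Y W : Type} {a : V d → X} {b : V d → Y} {i : X → W} {j : Y → W}
    (h : SetSum a b i j) : SetSum b a j i where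
  inj_left := h.inj_right
  inj_right := h.inj_left
  cover := fun w => (h.cover w).symm
  glue := fun y x hy hx => by
    rw [eq_comm, h.glue x y hx hy]
    constructor
    · rintro ⟨v, hv, h1, h2⟩
      exact ⟨inversion v, inversion_ne hv, h2, by rw [inversion_inversion, h1]⟩
    · rintro ⟨v, hv, h1, h2⟩
      exact ⟨inversion v, inversion_ne hv, h2, by rw [inversion_inversion, h1]⟩

/-- the underlying set of the connected sum -/
def SumSet {X Y : Type} (a : V d → X) (b : V d → Y) : Type :=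
  {x : X // x ≠ a 0} ⊕ {y : Y // y ∉ range b}

open Classical in
theorem exists_setSum {X Y : Type} {a : V d → X} {b : V d → Y} (hd : 0 < d)
    (ha : Function.Injective a) (hb : Function.Injective b) :
    ∃ (i : X → SumSet a b) (j : Y → SumSet a b), SetSum a b i j := by
  have h1 : a 1 ≠ a 0 := fun h => by
    have h2 := congrFun (ha h) ⟨0, hd⟩
    simp at h2
  set w0 : SumSet a b := Sum.inl ⟨a 1, h1⟩
  set i : X → SumSet a b := fun x => if h : x ≠ a 0 then Sum.inl ⟨x, h⟩ else w0 with hi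
  set j : Y → SumSet a b := fun y => if h : y ∈ range b then i (a (inversion h.choose)) else
    Sum.inr ⟨y, h⟩ with hj
  have i1 : ∀ x (h : x ≠ a 0), i x = Sum.inl ⟨x, h⟩ := fun x h => by
    rw [hi]; exact dif_pos h
  have j1 : ∀ v, j (b v) = i (a (inversion v)) := fun v => by
    have h : b v ∈ range b := ⟨v, rfl⟩
    have h2 : h.choose = v := hb h.choose_spec
    have h3 : j (b v) = i (a (inversion h.choose)) := by rw [hj]; exact dif_pos h
    rw [h3, h2]
  have j2 : ∀ y (h : y ∉ range b), j y = Sum.inr ⟨y, h⟩ := fun y h => by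
    rw [hj]; exact dif_neg h
  have i2 : ∀ x x', x ≠ a 0 → x' ≠ a 0 → i x = i x' → x = x' := fun x x' h h' h3 => by
    rw [i1 x h, i1 x' h'] at h3
    exact congrArg Subtype.val (Sum.inl_injective h3)
  have i3 : ∀ v, v ≠ 0 → a v ≠ a 0 := fun v hv h => hv (ha h)
  have jj : ∀ y, y ≠ b 0 → y ∈ range b → ∃ v, v ≠ 0 ∧ y = b v := by
    rintro _ hy ⟨v, rfl⟩
    exact ⟨v, fun h => hy (by rw [h]), rfl⟩
  have ij : ∀ x y, x ≠ a 0 → y ≠ b 0 → (i x = j y ↔ ∃ v, v ≠ 0 ∧ x = a v ∧ y = b (inversion v)) := by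
    intro x y hx hy
    constructor
    · intro h
      by_cases hyb : y ∈ range b
      · obtain ⟨v, hv, rfl⟩ := jj y hy hyb
        rw [j1] at h
        exact ⟨inversion v, inversion_ne hv, i2 _ _ hx (i3 _ (inversion_ne hv)) h,
          by rw [inversion_inversion]⟩
      · rw [j2 y hyb, i1 x hx] at h
        exact absurd h Sum.inl_ne_inr
    · rintro ⟨v, hv, rfl, rfl⟩
      rw [j1, inversion_inversion]
  refine ⟨i, j, fun x hx x' hx' h => i2 x x' hx hx' h, ?_, ?_, ij⟩
  · intro y hy y' hy' h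
    by_cases hyb : y ∈ range b
    · obtain ⟨v, hv, rfl⟩ := jj y hy hyb
      rw [j1] at h
      obtain ⟨u, hu, h1, h2⟩ := (ij _ _ (i3 _ (inversion_ne hv)) hy').1 h
      rw [h2, ← ha h1, inversion_inversion]
    · by_cases hyb' : y' ∈ range b
      · obtain ⟨v, hv, rfl⟩ := jj y' hy' hyb'
        rw [j1] at h
        obtain ⟨u, hu, h1, h2⟩ := (ij _ _ (i3 _ (inversion_ne hv)) hy).1 h.symm
        rw [h2, ← ha h1, inversion_inversion]
      · rw [j2 y hyb, j2 y' hyb'] at h
        exact congrArg Subtype.val (Sum.inr_injective h)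
  · rintro (⟨x, hx⟩ | ⟨y, hy⟩)
    · exact Or.inl ⟨x, hx, i1 x hx⟩
    · exact Or.inr ⟨y, fun h => hy ⟨0, h.symm⟩, j2 y hy⟩

variable {X Y W : Type} [TopologicalSpace X] [ChartedSpace (V d) X] [T2Space X] [SmoothMfd d X]
  [TopologicalSpace Y] [ChartedSpace (V d) Y] [T2Space Y] [SmoothMfd d Y]

/-- the coordinate domains -/
def cU (a : V d → X) (b : V d → Y) : X ⊕ Y → Set (V d)
  | Sum.inl x => (chartAt (V d) x).target ∩ (chartAt (V d) x).symm ⁻¹' {a 0}ᶜ
  | Sum.inr y => (chartAt (V d) y).target ∩ (chartAt (V d) y).symm ⁻¹' {b 0}ᶜ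

/-- the coordinate systems -/
def cK (i : X → W) (j : Y → W) : X ⊕ Y → V d → W
  | Sum.inl x => fun z => i ((chartAt (V d) x).symm z)
  | Sum.inr y => fun z => j ((chartAt (V d) y).symm z)

omit [T2Space X] [T2Space Y] in
theorem trans_same (x x' : X) {z z' : V d} (hz : z ∈ (chartAt (V d) x).target)
    (hz' : z' ∈ (chartAt (V d) x').target) {i : X → W}
    (h : (chartAt (V d) x).symm z = (chartAt (V d) x').symm z') :
    ∃ g : V d → V d, ContDiffAt ℝ ∞ g z ∧ g z = z' ∧
      ∀ᶠ t in 𝓝 z, i ((chartAt (V d) x).symm t) = i ((chartAt (V d) x').symm (g t)) := by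
  obtain ⟨g, h1, h2, h3⟩ := (ld_chart_symm x hz).trans (ld_chart_symm x' hz') h
  exact ⟨g, h1, h2, h3.mono fun t ht => by rw [ht]⟩

omit [T2Space X] [T2Space Y] in
theorem trans_diff {a : V d → X} {b : V d → Y} (ha : IsOpenEmb d a univ)
    (hb : IsOpenEmb d b univ) {i : X → W} {j : Y → W} (hs : SetSum a b i j) (x : X) (y : Y)
    {z z' : V d} (hz : z ∈ (chartAt (V d) x).target) (hza : (chartAt (V d) x).symm z ≠ a 0)
    (hz' : z' ∈ (chartAt (V d) y).target) (hzb : (chartAt (V d) y).symm z' ≠ b 0)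
    (h : i ((chartAt (V d) x).symm z) = j ((chartAt (V d) y).symm z')) :
    ∃ g : V d → V d, ContDiffAt ℝ ∞ g z ∧ g z = z' ∧
      ∀ᶠ t in 𝓝 z, i ((chartAt (V d) x).symm t) = j ((chartAt (V d) y).symm (g t)) := by
  obtain ⟨v, hv, h1, h2⟩ := (hs.glue _ _ hza hzb).1 h
  obtain ⟨g₁, a1, a2, a3⟩ := (ld_chart_symm x hz).trans (ha.ld (mem_univ v)) h1
  obtain ⟨g₂, b1, b2, b3⟩ := (hb.ld (mem_univ (inversion v))).trans (ld_chart_symm y hz') h2.symm
  have hg1 : Tendsto g₁ (𝓝 z) (𝓝 v) := by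
    rw [← a2]; exact a1.continuousAt
  have hin : Tendsto (inversion : V d → V d) (𝓝 v) (𝓝 (inversion v)) :=
    (contDiffAt_inversion hv).continuousAt
  refine ⟨fun t => g₂ (inversion (g₁ t)), ?_, ?_, ?_⟩
  · have b1' : ContDiffAt ℝ ∞ g₂ (inversion (g₁ z)) := by rw [a2]; exact b1
    have c1 : ContDiffAt ℝ ∞ (inversion : V d → V d) (g₁ z) := by
      rw [a2]; exact contDiffAt_inversion hv
    exact (b1'.comp (g₁ z) c1).comp z a1
  · change g₂ (inversion (g₁ z)) = z'
    rw [a2, b2]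
  · have e1 : ∀ᶠ t in 𝓝 z, g₁ t ≠ 0 := hg1 (isOpen_ne.mem_nhds hv)
    have e2 : ∀ᶠ t in 𝓝 z, b (inversion (g₁ t)) =
        (chartAt (V d) y).symm (g₂ (inversion (g₁ t))) := (hin.comp hg1) b3
    have e3 : ∀ᶠ t in 𝓝 z, inversion (g₁ t) ≠ 0 := e1.mono fun t ht => inversion_ne ht
    filter_upwards [a3, e1, e2] with t c1 c2 c3
    rw [c1, ← c3]
    refine (hs.glue _ _ ?_ ?_).2 ⟨g₁ t, c2, rfl, rfl⟩
    · exact fun h => c2 (ha.injOn (mem_univ _) (mem_univ _) h)
    · exact fun h => inversion_ne c2 (hb.injOn (mem_univ _) (mem_univ _) h)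

omit [SmoothMfd d X] in
theorem ball_closed {a : V d → X} (ha : IsOpenEmb d a univ) : IsClosed (a '' {v | nsq v ≤ 1}) := by
  apply IsCompact.isClosed
  exact (isCompact_nsq 1).image_of_continuousOn (ha.smooth.continuousOn.mono (subset_univ _))

omit [T2Space X] [SmoothMfd d X] in
theorem compl_closed {a : V d → X} (ha : IsOpenEmb d a univ) :
    IsClosed (a '' {v | nsq v < 1})ᶜ := by
  rw [isClosed_compl_iff]
  apply isOpen_image_of_LD (d := d)
  · exact isOpen_lt contDiff_nsq.continuous continuous_const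
  · exact fun v _ => ha.ld (mem_univ v)

theorem exists_sum {a : V d → X} {b : V d → Y} (ha : IsOpenEmb d a univ)
    (hb : IsOpenEmb d b univ) {i : X → W} {j : Y → W} (hs : SetSum a b i j) :
    ∃ (_ : TopologicalSpace W) (_ : ChartedSpace (V d) W), SmoothMfd d W ∧ T2Space W ∧
      IsConnectedSum a b i j ∧ (CompactSpace X → CompactSpace Y → CompactSpace W) := by
  have hs' := hs.symm
  have hU : ∀ l, IsOpen (cU a b l) := by
    rintro (x | y)
    · exact (chartAt (V d) x).symm.isOpen_inter_preimage isOpen_compl_singleton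
    · exact (chartAt (V d) y).symm.isOpen_inter_preimage isOpen_compl_singleton
  obtain ⟨iT, iC, hm, hT, hO, hS, hG⟩ := glue W (X ⊕ Y) (cU a b) (cK i j) hU (by
    intro w
    rcases hs.cover w with ⟨x, hx, rfl⟩ | ⟨y, hy, rfl⟩
    · refine ⟨Sum.inl x, chartAt (V d) x x, ⟨mem_chart_target _ x, ?_⟩, ?_⟩
      · change (chartAt (V d) x).symm _ ≠ _
        rw [(chartAt (V d) x).left_inv (mem_chart_source _ x)]
        exact hx
      · change i ((chartAt (V d) x).symm _) = _
        rw [(chartAt (V d) x).left_inv (mem_chart_source _ x)]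
    · refine ⟨Sum.inr y, chartAt (V d) y y, ⟨mem_chart_target _ y, ?_⟩, ?_⟩
      · change (chartAt (V d) y).symm _ ≠ _
        rw [(chartAt (V d) y).left_inv (mem_chart_source _ y)]
        exact hy
      · change j ((chartAt (V d) y).symm _) = _
        rw [(chartAt (V d) y).left_inv (mem_chart_source _ y)]) (by
    rintro (x | y) z hz
    · refine ⟨cU a b (Sum.inl x), (hU _).mem_nhds hz, ?_⟩
      intro t ht t' ht' h
      have h1 := hs.inj_left ht.2 ht'.2 h
      exact (chartAt (V d) x).symm.injOn ht.1 ht'.1 h1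
    · refine ⟨cU a b (Sum.inr y), (hU _).mem_nhds hz, ?_⟩
      intro t ht t' ht' h
      have h1 := hs.inj_right ht.2 ht'.2 h
      exact (chartAt (V d) y).symm.injOn ht.1 ht'.1 h1) (by
    rintro (x | y) (x' | y') z hz z' hz' h
    · exact trans_same x x' hz.1 hz'.1 (hs.inj_left hz.2 hz'.2 h)
    · exact trans_diff ha hb hs x y' hz.1 hz.2 hz'.1 hz'.2 h
    · exact trans_diff hb ha hs' y x' hz.1 hz.2 hz'.1 hz'.2 h
    · exact trans_same y y' hz.1 hz'.1 (hs.inj_right hz.2 hz'.2 h))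
  have hld : ∀ l, ∀ z ∈ cU a b l, LD d (cK i j l) z := fun l z hz => ⟨hS l z hz, hG l z hz⟩
  have hi : ∀ x ∈ ({a 0}ᶜ : Set X), LD d i x := by
    intro x hx
    have h1 : chartAt (V d) x x ∈ cU a b (Sum.inl x) := by
      refine ⟨mem_chart_target _ x, ?_⟩
      change (chartAt (V d) x).symm _ ≠ _
      rw [(chartAt (V d) x).left_inv (mem_chart_source _ x)]
      exact hx
    refine ((hld _ _ h1).comp (ld_chart x (mem_chart_source _ x))).congr ?_
    filter_upwards [(chartAt (V d) x).eventually_left_inverse (mem_chart_source _ x)] with p hp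
    change i p = i ((chartAt (V d) x).symm _)
    rw [hp]
  have hj : ∀ y ∈ ({b 0}ᶜ : Set Y), LD d j y := by
    intro y hy
    have h1 : chartAt (V d) y y ∈ cU a b (Sum.inr y) := by
      refine ⟨mem_chart_target _ y, ?_⟩
      change (chartAt (V d) y).symm _ ≠ _
      rw [(chartAt (V d) y).left_inv (mem_chart_source _ y)]
      exact hy
    refine ((hld _ _ h1).comp (ld_chart y (mem_chart_source _ y))).congr ?_
    filter_upwards [(chartAt (V d) y).eventually_left_inverse (mem_chart_source _ y)] with p hp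
    change j p = j ((chartAt (V d) y).symm _)
    rw [hp]
  have : Nonempty X := ⟨a 0⟩
  have : Nonempty Y := ⟨b 0⟩
  have Hi : IsOpenEmb d i {a 0}ᶜ := isOpenEmb_of_LD isOpen_compl_singleton hs.inj_left hi
  have Hj : IsOpenEmb d j {b 0}ᶜ := isOpenEmb_of_LD isOpen_compl_singleton hs.inj_right hj
  have ha0 : ∀ v, v ≠ 0 → a v ≠ a 0 := fun v hv h => hv (ha.injOn (mem_univ _) (mem_univ _) h)
  have hb0 : ∀ v, v ≠ 0 → b v ≠ b 0 := fun v hv h => hv (hb.injOn (mem_univ _) (mem_univ _) h)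
  have hgl : ∀ v, v ≠ 0 → i (a v) = j (b (inversion v)) := fun v hv =>
    (hs.glue _ _ (ha0 v hv) (hb0 _ (inversion_ne hv))).2 ⟨v, hv, rfl, rfl⟩
  have sepi : ∀ x x', x ≠ a 0 → x' ≠ a 0 → i x ≠ i x' → ∃ u v : Set W, IsOpen u ∧ IsOpen v ∧
      i x ∈ u ∧ i x' ∈ v ∧ Disjoint u v := by
    intro x x' hx hx' h
    obtain ⟨u, v, hu, hv, hxu, hxv, huv⟩ := t2_separation (fun e => h (congrArg i e) : x ≠ x')
    refine ⟨i '' (u ∩ {a 0}ᶜ), i '' (v ∩ {a 0}ᶜ),
      isOpen_image_of_LD (hu.inter isOpen_compl_singleton) fun t ht => hi t ht.2,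
      isOpen_image_of_LD (hv.inter isOpen_compl_singleton) fun t ht => hi t ht.2,
      ⟨x, ⟨hxu, hx⟩, rfl⟩, ⟨x', ⟨hxv, hx'⟩, rfl⟩, ?_⟩
    rw [Set.disjoint_left]
    rintro _ ⟨s, hs1, rfl⟩ ⟨t, ht1, ht⟩
    have := hs.inj_left ht1.2 hs1.2 ht
    subst this
    exact (Set.disjoint_left.1 huv) hs1.1 ht1.1
  have sepj : ∀ x x', x ≠ b 0 → x' ≠ b 0 → j x ≠ j x' → ∃ u v : Set W, IsOpen u ∧ IsOpen v ∧
      j x ∈ u ∧ j x' ∈ v ∧ Disjoint u v := by
    intro x x' hx hx' h
    obtain ⟨u, v, hu, hv, hxu, hxv, huv⟩ := t2_separation (fun e => h (congrArg j e) : x ≠ x')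
    refine ⟨j '' (u ∩ {b 0}ᶜ), j '' (v ∩ {b 0}ᶜ),
      isOpen_image_of_LD (hu.inter isOpen_compl_singleton) fun t ht => hj t ht.2,
      isOpen_image_of_LD (hv.inter isOpen_compl_singleton) fun t ht => hj t ht.2,
      ⟨x, ⟨hxu, hx⟩, rfl⟩, ⟨x', ⟨hxv, hx'⟩, rfl⟩, ?_⟩
    rw [Set.disjoint_left]
    rintro _ ⟨s, hs1, rfl⟩ ⟨t, ht1, ht⟩
    have := hs.inj_right ht1.2 hs1.2 ht
    subst this
    exact (Set.disjoint_left.1 huv) hs1.1 ht1.1
  have sepij : ∀ x y, x ≠ a 0 → y ≠ b 0 → i x ≠ j y → ∃ u v : Set W, IsOpen u ∧ IsOpen v ∧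
      i x ∈ u ∧ j y ∈ v ∧ Disjoint u v := by
    intro x y hx hy h
    by_cases hxa : x ∈ range a
    · obtain ⟨v, rfl⟩ := hxa
      have hv : v ≠ 0 := fun e => hx (by rw [e])
      rw [hgl v hv] at h ⊢
      exact sepj _ _ (hb0 _ (inversion_ne hv)) hy h
    · by_cases hyb : y ∈ range b
      · obtain ⟨v, rfl⟩ := hyb
        have hv : v ≠ 0 := fun e => hy (by rw [e])
        have h1 : j (b v) = i (a (inversion v)) := by
          rw [hgl _ (inversion_ne hv), inversion_inversion]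
        rw [h1] at h ⊢
        exact sepi _ _ hx (ha0 _ (inversion_ne hv)) h
      · have hz1 : (0 : V d) ∈ {v : V d | nsq v ≤ 1} := by
          change nsq (0 : V d) ≤ 1
          rw [nsq_eq_zero.2 rfl]; exact zero_le_one
        refine ⟨i '' (a '' {v | nsq v ≤ 1})ᶜ, j '' (b '' {v | nsq v ≤ 1})ᶜ,
          isOpen_image_of_LD (ball_closed ha).isOpen_compl fun t ht => hi t ?_,
          isOpen_image_of_LD (ball_closed hb).isOpen_compl fun t ht => hj t ?_,
          ⟨x, fun h => hxa (image_subset_range _ _ h), rfl⟩,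
          ⟨y, fun h => hyb (image_subset_range _ _ h), rfl⟩, ?_⟩
        · rintro rfl
          exact ht ⟨0, hz1, rfl⟩
        · rintro rfl
          exact ht ⟨0, hz1, rfl⟩
        · rw [Set.disjoint_left]
          rintro _ ⟨s, hs1, rfl⟩ ⟨t, ht1, ht⟩
          have hsa : s ≠ a 0 := fun e => hs1 ⟨0, hz1, e.symm⟩
          have htb : t ≠ b 0 := fun e => ht1 ⟨0, hz1, e.symm⟩
          obtain ⟨v, hv, e1, e2⟩ := (hs.glue _ _ hsa htb).1 ht.symm
          have c1 : 1 < nsq v := by
            by_contra hc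
            exact hs1 ⟨v, not_lt.1 hc, e1.symm⟩
          have c2 : 1 < nsq (inversion v) := by
            by_contra hc
            exact ht1 ⟨_, not_lt.1 hc, e2.symm⟩
          rw [nsq_inversion] at c2
          have c3 : (nsq v)⁻¹ < 1 := inv_lt_one_of_one_lt₀ c1
          linarith
  have hT2 : T2Space W := by
    refine ⟨fun w w' hw => ?_⟩
    rcases hs.cover w with ⟨x, hx, rfl⟩ | ⟨y, hy, rfl⟩
    · rcases hs.cover w' with ⟨x', hx', rfl⟩ | ⟨y', hy', rfl⟩
      · exact sepi x x' hx hx' hw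
      · exact sepij x y' hx hy' hw
    · rcases hs.cover w' with ⟨x', hx', rfl⟩ | ⟨y', hy', rfl⟩
      · obtain ⟨u, v, h1, h2, h3, h4, h5⟩ := sepij x' y hx' hy hw.symm
        exact ⟨v, u, h2, h1, h4, h3, h5.symm⟩
      · exact sepj y y' hy hy' hw
  refine ⟨iT, iC, hm, hT2, ⟨ha, hb, Hi, Hj, hs.cover, hs.glue⟩, ?_⟩
  intro hX hY
  refine ⟨?_⟩
  have e : (univ : Set W) = i '' (a '' {v | nsq v < 1})ᶜ ∪ j '' (b '' {v | nsq v < 1})ᶜ := by
    apply Subset.antisymm _ (subset_univ _)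
    rintro w -
    by_cases hw : ∃ y, y ≠ b 0 ∧ j y = w ∧ y ∉ b '' {v | nsq v < 1}
    · obtain ⟨y, _, h2, h3⟩ := hw
      exact Or.inr ⟨y, h3, h2⟩
    · refine Or.inl ?_
      rcases hs.cover w with ⟨x, hx, rfl⟩ | ⟨y, hy, rfl⟩
      · refine ⟨x, ?_, rfl⟩
        rintro ⟨v, hv, rfl⟩
        have hv0 : v ≠ 0 := fun e => hx (by rw [e])
        apply hw
        refine ⟨b (inversion v), hb0 _ (inversion_ne hv0), (hgl v hv0).symm, ?_⟩
        rintro ⟨u, hu, hu2⟩
        have := hb.injOn (mem_univ _) (mem_univ _) hu2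
        subst this
        have hu' : nsq (inversion v) < 1 := hu
        rw [nsq_inversion] at hu'
        have h4 : 1 < (nsq v)⁻¹ := (one_lt_inv₀ (nsq_pos hv0)).2 hv
        linarith
      · by_cases hy2 : y ∈ b '' {v | nsq v < 1}
        · obtain ⟨v, hv, rfl⟩ := hy2
          have hv0 : v ≠ 0 := fun e => hy (by rw [e])
          refine ⟨a (inversion v), ?_, ?_⟩
          · rintro ⟨u, hu, hu2⟩
            have := ha.injOn (mem_univ _) (mem_univ _) hu2
            subst this
            have hu' : nsq (inversion v) < 1 := hu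
            rw [nsq_inversion] at hu'
            have h4 : 1 < (nsq v)⁻¹ := (one_lt_inv₀ (nsq_pos hv0)).2 hv
            linarith
          · rw [hgl _ (inversion_ne hv0), inversion_inversion]
        · exact absurd ⟨y, hy, rfl, hy2⟩ hw
  rw [e]
  have hz1 : (0 : V d) ∈ {v : V d | nsq v < 1} := by
    change nsq (0 : V d) < 1
    rw [nsq_eq_zero.2 rfl]; exact zero_lt_one
  refine IsCompact.union ?_ ?_
  · refine (compl_closed ha).isCompact.image_of_continuousOn (Hi.smooth.continuousOn.mono ?_)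
    intro x hx hx2
    exact hx ⟨0, hz1, (mem_singleton_iff.1 hx2).symm⟩
  · refine (compl_closed hb).isCompact.image_of_continuousOn (Hj.smooth.continuousOn.mono ?_)
    intro x hx hx2
    exact hx ⟨0, hz1, (mem_singleton_iff.1 hx2).symm⟩

end Pool.Agent.X168.BU
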