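import Pool.Agent.X168.BU.Trans

/-! The cut off of the Fubini-Study form, and the local model of the blow-up. -/

set_option autoImplicit false

open Set Filter Topology Finset
open scoped Manifold ContDiff ComplexConjugate

noncomputable section

namespace Pool.Agent.X168.BU

variable {d : ℕ}

/-- the cut off -/
def mf (R r : ℝ) : ℝ := 1 - Real.smoothTransition (3 * r / R - 1)

/-- the radial function of the correction term -/
def nf (R r : ℝ) : ℝ := (mf R r - 1) * r⁻¹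

theorem contDiff_mf (R : ℝ) : ContDiff ℝ ∞ (mf R) := by
  unfold mf
  refine contDiff_const.sub (Real.smoothTransition.contDiff.comp ?_)
  exact ((contDiff_const.mul contDiff_id).div_const R).sub contDiff_const

theorem mf_one {R r : ℝ} (hR : 0 < R) (h : r ≤ R / 3) : mf R r = 1 := by
  unfold mf
  rw [Real.smoothTransition.zero_of_nonpos, sub_zero]
  rw [sub_nonpos, div_le_one hR]
  linarith

theorem mf_zero {R r : ℝ} (hR : 0 < R) (h : 2 * R / 3 ≤ r) : mf R r = 0 := by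
  unfold mf
  rw [Real.smoothTransition.one_of_one_le, sub_self]
  rw [le_sub_iff_add_le, le_div_iff₀ hR]
  linarith

theorem mf_nonneg (R r : ℝ) : 0 ≤ mf R r := by
  unfold mf
  linarith [Real.smoothTransition.le_one (3 * r / R - 1)]

theorem nf_zero {R r : ℝ} (hR : 0 < R) (h : r ≤ R / 3) : nf R r = 0 := by
  unfold nf
  rw [mf_one hR h, sub_self, zero_mul]

theorem nf_ev {R r : ℝ} (hR : 0 < R) (h : r < R / 3) : nf R =ᶠ[𝓝 r] fun _ => 0 := by
  filter_upwards [isOpen_Iio.mem_nhds h] with x hx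
  exact nf_zero hR (le_of_lt hx)

theorem contDiffAt_nf {R : ℝ} (hR : 0 < R) (r : ℝ) : ContDiffAt ℝ ∞ (nf R) r := by
  rcases lt_or_ge r (R / 3) with h | h
  · exact contDiffAt_const.congr_of_eventuallyEq (nf_ev hR h)
  · have hr : 0 < r := by linarith [div_pos hR (by norm_num : (0 : ℝ) < 3)]
    exact ((contDiff_mf R).contDiffAt.sub contDiffAt_const).mul (contDiffAt_id.inv hr.ne')

theorem deriv_nf {R r : ℝ} (hr : r ≠ 0) :
    deriv (nf R) r = deriv (mf R) r * r⁻¹ - (mf R r - 1) * (r ^ 2)⁻¹ := by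
  have h1 : HasDerivAt (mf R) (deriv (mf R) r) r :=
    ((contDiff_mf R).contDiffAt.differentiableAt (by simp)).hasDerivAt
  have h2 := (h1.sub_const 1).mul (hasDerivAt_inv hr)
  have h3 : HasDerivAt (nf R) (deriv (mf R) r * r⁻¹ + (mf R r - 1) * -(r ^ 2)⁻¹) r := h2
  rw [h3.deriv]
  ring

theorem deriv_nf_zero {R : ℝ} (hR : 0 < R) : deriv (nf R) 0 = 0 := by
  rw [(nf_ev hR (by positivity)).deriv_eq]
  simp

/-- the correction form at the origin -/
theorem Lam_nf_zero {R : ℝ} (hR : 0 < R) : Lam (nf R) (0 : V d) = 0 := by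
  apply ext2
  intro h k
  rw [Lam_apply (contDiffAt_nf hR _), nsq_eq_zero.2 rfl, deriv_nf_zero hR,
    nf_zero hR (by positivity)]
  simp

/-- the correction form far away -/
theorem Lam_nf_far {R : ℝ} (hR : 0 < R) {v : V d} (hv : 2 * R / 3 < nsq v) :
    Lam (nf R) v + Fs v = 0 := by
  have hp : 0 < nsq v := lt_trans (by positivity) hv
  apply ext2
  intro h k
  have h1 : mf R =ᶠ[𝓝 (nsq v)] fun _ => 0 := by
    filter_upwards [isOpen_Ioi.mem_nhds hv] with x hx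
    exact mf_zero hR (le_of_lt hx)
  have h2 : deriv (mf R) (nsq v) = 0 := by rw [h1.deriv_eq]; simp
  have h3 : mf R (nsq v) = 0 := h1.eq_of_nhds
  have h4 : deriv (fun r : ℝ => r⁻¹) (nsq v) = -(nsq v ^ 2)⁻¹ := by rw [deriv_inv]
  rw [ContinuousAlternatingMap.add_apply]
  unfold Fs
  rw [Lam_apply (contDiffAt_nf hR _), Lam_apply (contDiffAt_inv' hp), deriv_nf hp.ne', h2, h4]
  unfold nf
  rw [h3]
  simp
  ring

/-- the correction form is not too negative -/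
theorem Lam_nf_tame {R C : ℝ} (hR : 0 < R) (hC : ∀ r ∈ Icc 0 R, |deriv (mf R) r| ≤ C) {v : V d}
    (hv0 : v ≠ 0) (hv : nsq v ≤ R) (h : V d) :
    -(C * nsq h) ≤ (Lam (nf R) v + Fs v) ![h, Complex.I • h] := by
  have hp : 0 < nsq v := nsq_pos hv0
  have h4 : deriv (fun r : ℝ => r⁻¹) (nsq v) = -(nsq v ^ 2)⁻¹ := by rw [deriv_inv]
  rw [ContinuousAlternatingMap.add_apply]
  unfold Fs
  rw [Lam_tame (contDiffAt_nf hR _), Lam_tame (contDiffAt_inv' hp), deriv_nf hp.ne', h4]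
  unfold nf
  have h5 := cauchy v h
  have h6 := hC _ ⟨hp.le, hv⟩
  have h7 := mf_nonneg R (nsq v)
  have h8 := nsq_nonneg h
  have e : (mf R (nsq v) - 1) * (nsq v)⁻¹ * nsq h + (deriv (mf R) (nsq v) * (nsq v)⁻¹ -
      (mf R (nsq v) - 1) * (nsq v ^ 2)⁻¹) * ‖hm v h‖ ^ 2 +
      ((nsq v)⁻¹ * nsq h + -(nsq v ^ 2)⁻¹ * ‖hm v h‖ ^ 2) =
      mf R (nsq v) * (nsq v * nsq h - ‖hm v h‖ ^ 2) / nsq v ^ 2 +
        deriv (mf R) (nsq v) * (‖hm v h‖ ^ 2 / nsq v) := by
    field_simp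
    ring
  rw [e]
  have h9 : 0 ≤ mf R (nsq v) * (nsq v * nsq h - ‖hm v h‖ ^ 2) / nsq v ^ 2 :=
    div_nonneg (mul_nonneg h7 (by linarith)) (by positivity)
  have h10 : ‖hm v h‖ ^ 2 / nsq v ≤ nsq h := by
    rw [div_le_iff₀ hp]
    linarith
  have h11 : 0 ≤ ‖hm v h‖ ^ 2 / nsq v := by positivity
  have h12 := (abs_le.1 h6).1
  have h13 : 0 ≤ C := (abs_nonneg _).trans h6
  nlinarith

theorem exists_C (R : ℝ) : ∃ C : ℝ, 0 ≤ C ∧ ∀ r ∈ Icc 0 R, |deriv (mf R) r| ≤ C := by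
  have h1 : Continuous (deriv (mf R)) := (contDiff_mf R).continuous_deriv (by simp)
  obtain ⟨C, hC⟩ := (isCompact_Icc (a := (0 : ℝ)) (b := R)).exists_bound_of_continuousOn
    h1.continuousOn
  exact ⟨|C|, abs_nonneg _, fun r hr => (hC r hr).trans (le_abs_self _)⟩

theorem norm_le_nsq (v : V d) : ‖v‖ ^ 2 ≤ nsq v := by
  rcases isEmpty_or_nonempty (Fin d) with h | h
  · have : v = 0 := Subsingleton.elim _ _
    subst this
    simp [nsq]
  · obtain ⟨i, hi⟩ := Finite.exists_max fun i => ‖v i‖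
    have h1 : ‖v‖ ≤ ‖v i‖ := (pi_norm_le_iff_of_nonneg (norm_nonneg _)).2 hi
    have h2 : ‖v i‖ ^ 2 ≤ nsq v := Finset.single_le_sum (f := fun i => ‖v i‖ ^ 2)
      (fun _ _ => by positivity) (Finset.mem_univ i)
    nlinarith [norm_nonneg v, norm_nonneg (v i)]

/-- tameness near the origin -/
theorem exists_R {σ : V d → (V d) [⋀^Fin 2]→L[ℝ] ℝ} (hσ : Continuous σ)
    (h0 : ∀ h k, σ 0 ![h, k] = om h k) : ∃ R : ℝ, 0 < R ∧ ∀ v, nsq v ≤ R → ∀ h,
      1 / 2 * nsq h ≤ σ v ![h, Complex.I • h] := by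
  have h1 : ∀ᶠ v in 𝓝 (0 : V d), ‖σ v - σ 0‖ < 1 / 2 := by
    have h2 : Tendsto (fun v => ‖σ v - σ 0‖) (𝓝 (0 : V d)) (𝓝 0) := by
      have h3 : Continuous fun v => ‖σ v - σ 0‖ := (hσ.sub continuous_const).norm
      have h4 := h3.tendsto 0
      simpa using h4
    exact h2.eventually (gt_mem_nhds (by norm_num))
  obtain ⟨δ, hδ, hδ2⟩ := Metric.eventually_nhds_iff.1 h1
  refine ⟨(δ / 2) ^ 2, by positivity, fun v hv h => ?_⟩
  have h2 : ‖v‖ < δ := by
    have h3 := (norm_le_nsq v).trans hv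
    have h4 : ‖v‖ ≤ δ / 2 := by
      rwa [pow_le_pow_iff_left₀ (norm_nonneg _) (by positivity) (by norm_num)] at h3
    linarith
  have h3 := hδ2 (y := v) (by simpa using h2)
  have h4 : σ v ![h, Complex.I • h] = nsq h + (σ v - σ 0) ![h, Complex.I • h] := by
    rw [ContinuousAlternatingMap.sub_apply, h0, om_I]
    ring
  have h5 : ‖(σ v - σ 0) ![h, Complex.I • h]‖ ≤ ‖σ v - σ 0‖ * ∏ i, ‖(![h, Complex.I • h] : Fin 2 → V d) i‖ :=
    ContinuousAlternatingMap.le_opNorm _ _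
  rw [Fin.prod_univ_two] at h5
  simp only [Matrix.cons_val_zero, Matrix.cons_val_one, norm_smul, Complex.norm_I, one_mul] at h5
  have h6 := norm_le_nsq h
  have h7 : ‖(σ v - σ 0) ![h, Complex.I • h]‖ ≤ 1 / 2 * nsq h := by
    refine h5.trans ?_
    have : ‖h‖ * ‖h‖ = ‖h‖ ^ 2 := by ring
    rw [this]
    exact mul_le_mul h3.le h6 (by positivity) (by norm_num)
  rw [h4]
  have h8 := (abs_le.1 h7).1
  linarith

/-- the local model of the blow-up -/
structure Loc (σ : V d → (V d) [⋀^Fin 2]→L[ℝ] ℝ) (R : ℝ) (sB : V d → (V d) [⋀^Fin 2]→L[ℝ] ℝ)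
    (sC : Fin d → V d → (V d) [⋀^Fin 2]→L[ℝ] ℝ) : Prop where
  pos : 0 < R
  smB : ∀ v, v ≠ 0 → ContDiffAt ℝ ∞ sB v
  clB : ∀ v, v ≠ 0 → extDeriv sB v = 0
  far : ∀ v, R < nsq v → sB v = σ v
  ndB : ∀ v, v ≠ 0 → ∀ h, (∀ k, sB v ![h, k] = 0) → h = 0
  smC : ∀ k, ContDiff ℝ ∞ (sC k)
  clC : ∀ k v, extDeriv (sC k) v = 0
  trB : ∀ k v, v k ≠ 0 → sC k v = pull (bk k) sB v
  trC : ∀ k l v, Zk k v l ≠ 0 → sC k v = pull (Hk k l) (sC l) v
  ndC : ∀ k v, v k = 0 → ∀ h, (∀ g, sC k v ![h, g] = 0) → h = 0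

theorem exists_loc {σ : V d → (V d) [⋀^Fin 2]→L[ℝ] ℝ} (hσ : ContDiff ℝ ∞ σ)
    (hc : ∀ v, extDeriv σ v = 0) (h0 : ∀ h k, σ 0 ![h, k] = om h k)
    (hnd : ∀ v h, (∀ k, σ v ![h, k] = 0) → h = 0) :
    ∃ (R : ℝ) (sB : V d → (V d) [⋀^Fin 2]→L[ℝ] ℝ)
      (sC : Fin d → V d → (V d) [⋀^Fin 2]→L[ℝ] ℝ), Loc σ R sB sC := by
  obtain ⟨R, hR, htame⟩ := exists_R hσ.continuous h0
  obtain ⟨C, hC0, hC⟩ := exists_C R
  set ε : ℝ := 1 / (4 * (C + 1)) with hε
  have hεp : 0 < ε := by positivity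
  have hεC : ε * C ≤ 1 / 4 := by
    rw [hε, div_mul_eq_mul_div, div_le_iff₀ (by positivity)]
    linarith
  set A : V d → (V d) [⋀^Fin 2]→L[ℝ] ℝ := fun v => σ v + ε • Lam (nf R) v with hA
  have hL : ∀ v, ContDiffAt ℝ ∞ (Lam (nf R) : V d → _) v := fun v =>
    contDiffAt_Lam (contDiffAt_nf hR _)
  have hAs : ContDiff ℝ ∞ A := by
    rw [contDiff_iff_contDiffAt]
    intro v
    exact hσ.contDiffAt.add ((hL v).const_smul ε)
  have hAc : ∀ v, extDeriv A v = 0 := fun v =>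
    extDeriv_add' hσ.contDiffAt (hL v) (hc v) (closed_Lam (contDiffAt_nf hR _))
  have hA0 : ∀ h k, A 0 ![h, k] = om h k := by
    intro h k
    rw [hA]
    simp only [Lam_nf_zero hR, smul_zero, add_zero]
    exact h0 h k
  have hfar : ∀ v, 2 * R / 3 < nsq v → A v + ε • Fs v = σ v := by
    intro v hv
    rw [hA]
    have h1 := Lam_nf_far hR hv
    have h2 : Fs v = - Lam (nf R) v := (neg_eq_of_add_eq_zero_right h1).symm
    simp only [h2, smul_neg]
    abel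
  refine ⟨R, fun v => A v + ε • Fs v, sC A ε, ⟨hR, ?_, ?_, ?_, ?_, ?_, ?_, ?_, ?_, ?_⟩⟩
  · intro v hv
    exact hAs.contDiffAt.add ((contDiffAt_Fs hv).const_smul ε)
  · intro v hv
    exact extDeriv_add' hAs.contDiffAt (contDiffAt_Fs hv) (hAc v) (closed_Fs hv)
  · intro v hv
    exact hfar v (by linarith)
  · intro v hv h hh
    rcases le_or_gt (nsq v) R with h1 | h1
    · have h2 := hh (Complex.I • h)
      have h3 : (A v + ε • Fs v) ![h, Complex.I • h] = σ v ![h, Complex.I • h] +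
          ε * (Lam (nf R) v + Fs v) ![h, Complex.I • h] := by
        rw [hA]
        simp only [ContinuousAlternatingMap.add_apply, ContinuousAlternatingMap.smul_apply,
          smul_eq_mul]
        ring
      have h4 := Lam_nf_tame hR hC hv h1 h
      have h5 := htame v h1 h
      have h6 := nsq_nonneg h
      rw [h3] at h2
      have h7 : nsq h = 0 := by
        have h8 : ε * (-(C * nsq h)) ≤ ε * (Lam (nf R) v + Fs v) ![h, Complex.I • h] :=
          mul_le_mul_of_nonneg_left h4 hεp.le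
        have h9 : (ε * C) * nsq h ≤ 1 / 4 * nsq h := mul_le_mul_of_nonneg_right hεC h6
        nlinarith
      exact nsq_eq_zero.1 h7
    · apply hnd v h
      intro k
      rw [← hfar v (by linarith)]
      exact hh k
  · exact fun k => contDiff_sC hAs k
  · exact fun k v => closed_sC hAs hAc k v
  · exact fun k v hv => sC_sB hv
  · exact fun k l v hv => sC_trans hv
  · exact fun k v hv h hh => nondeg_sC hεp hA0 hv h hh

end Pool.Agent.X168.BU
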