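import Pool.Agent.X168.BU.Herm
import Pool.Agent.X168.BU.CP

/-! The Fubini-Study form of `ℂᵈ ∖ {0}` and its invariance. -/

set_option autoImplicit false

open Set Filter Topology Finset
open scoped Manifold ContDiff ComplexConjugate

noncomputable section

namespace Pool.Agent.X168.BU

variable {d : ℕ}

/-- pull-back of forms on `ℂᵈ` -/
def pull {k : ℕ} (φ : V d → V d) (s : V d → (V d) [⋀^Fin k]→L[ℝ] ℝ) (z : V d) :
    (V d) [⋀^Fin k]→L[ℝ] ℝ := (s (φ z)).compContinuousLinearMap (fderiv ℝ φ z)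

theorem pull_apply {φ : V d → V d} {s : V d → (V d) [⋀^Fin 2]→L[ℝ] ℝ} {z h g : V d} :
    pull φ s z ![h, g] = s (φ z) ![fderiv ℝ φ z h, fderiv ℝ φ z g] := by
  unfold pull
  rw [ContinuousAlternatingMap.compContinuousLinearMap_apply]
  congr 1
  funext i
  fin_cases i <;> rfl

theorem ext2 {s t : (V d) [⋀^Fin 2]→L[ℝ] ℝ} (h : ∀ x y, s ![x, y] = t ![x, y]) : s = t := by
  ext v
  have : v = ![v 0, v 1] := by
    funext i
    fin_cases i <;> rfl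
  rw [this]
  exact h _ _

theorem contDiffAt_pull {k : ℕ} {φ : V d → V d} {s : V d → (V d) [⋀^Fin k]→L[ℝ] ℝ} {z : V d}
    (hφ : ContDiffAt ℝ ∞ φ z) (hs : ContDiffAt ℝ ∞ s (φ z)) : ContDiffAt ℝ ∞ (pull φ s) z := by
  have h6 : ContDiffAt ℝ ∞ (fun t => ((s (φ t), fderiv ℝ φ t) :
      ((V d) [⋀^Fin k]→L[ℝ] ℝ) × (V d →L[ℝ] V d))) z :=
    (hs.comp z hφ).prodMk (hφ.fderiv_right (by simp))
  exact contDiff_pull.contDiffAt.comp z h6

theorem closed_pull {k : ℕ} {φ : V d → V d} {s : V d → (V d) [⋀^Fin k]→L[ℝ] ℝ} {z : V d}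
    (hφ : ContDiffAt ℝ ∞ φ z) (hs : ContDiffAt ℝ ∞ s (φ z)) (h : extDeriv s (φ z) = 0) :
    extDeriv (pull φ s) z = 0 := by
  have h1 : extDeriv (fun t => (s (φ t)).compContinuousLinearMap (fderiv ℝ φ t)) z = _ :=
    extDeriv_pullback (hs.differentiableAt (by simp)) hφ (r := ∞)
      (by rw [minSmoothness_of_isRCLikeNormedField]; exact ENat.LEInfty.out)
  change extDeriv (fun t => (s (φ t)).compContinuousLinearMap (fderiv ℝ φ t)) z = 0
  rw [h1, h]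
  ext v
  simp

theorem pull_comp {k : ℕ} {φ ψ h : V d → V d} {s : V d → (V d) [⋀^Fin k]→L[ℝ] ℝ} {z : V d}
    (hψ : DifferentiableAt ℝ ψ (h z)) (hh : DifferentiableAt ℝ h z)
    (he : φ =ᶠ[𝓝 z] fun t => ψ (h t)) :
    pull φ s z = (pull ψ s (h z)).compContinuousLinearMap (fderiv ℝ h z) := by
  have h1 : fderiv ℝ φ z = (fderiv ℝ ψ (h z)).comp (fderiv ℝ h z) := by
    rw [he.fderiv_eq]
    exact fderiv_comp z hψ hh
  have h2 : φ z = ψ (h z) := he.eq_of_nhds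
  unfold pull
  rw [h1, h2]
  ext v
  rfl

/-- the sesquilinear form of Fubini and Study -/
def Bf (v h k : V d) : ℂ := (nsq v : ℂ) * hm h k - hm h v * hm v k

theorem Bf_im (v h k : V d) :
    (Bf v h k).im = nsq v * om h k - ((hm v h).re * om v k - (hm v k).re * om v h) := by
  unfold Bf
  rw [← hm_conj v h, ← hm_im, ← hm_im, ← hm_im]
  simp
  ring

theorem Bf_scale (v h k : V d) (t τ τ' : ℂ) :
    Bf (t • v) (t • h + τ • v) (t • k + τ' • v) = ((‖t‖ ^ 2 : ℝ) : ℂ) ^ 2 * Bf v h k := by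
  have h2 : (((‖t‖ ^ 2 : ℝ)) : ℂ) = t * conj t := by
    rw [Complex.mul_conj, Complex.normSq_eq_norm_sq]
  unfold Bf
  rw [nsq_smul, Complex.ofReal_mul, h2]
  simp only [hm_add_left, hm_add_right, hm_smul_left, hm_smul_right, hm_self]
  ring

/-- the Fubini-Study form -/
def Fs : V d → (V d) [⋀^Fin 2]→L[ℝ] ℝ := Lam (fun r => r⁻¹)

theorem contDiffAt_inv' {r : ℝ} (h : 0 < r) : ContDiffAt ℝ ∞ (fun r : ℝ => r⁻¹) r :=
  contDiffAt_id.inv h.ne'

theorem Fs_apply {v : V d} (hv : v ≠ 0) (h k : V d) :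
    Fs v ![h, k] = (Bf v h k).im / nsq v ^ 2 := by
  have hp := nsq_pos hv
  unfold Fs
  rw [Lam_apply (contDiffAt_inv' hp), Bf_im]
  have h1 : deriv (fun r : ℝ => r⁻¹) (nsq v) = -(nsq v ^ 2)⁻¹ := by
    rw [deriv_inv]
  rw [h1]
  field_simp
  ring

theorem Fs_scale {v : V d} (hv : v ≠ 0) {t : ℂ} (ht : t ≠ 0) (h k : V d) (τ τ' : ℂ) :
    Fs (t • v) ![t • h + τ • v, t • k + τ' • v] = Fs v ![h, k] := by
  have h1 : t • v ≠ 0 := smul_ne_zero ht hv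
  rw [Fs_apply h1, Fs_apply hv, Bf_scale, nsq_smul]
  have h2 : ((‖t‖ ^ 2 : ℝ) : ℂ) ^ 2 = (((‖t‖ ^ 2) ^ 2 : ℝ) : ℂ) := by push_cast; ring
  rw [h2, Complex.im_ofReal_mul]
  have h3 : 0 < ‖t‖ := norm_pos_iff.2 ht
  have h4 := nsq_pos hv
  field_simp

end Pool.Agent.X168.BU
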