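import Pool.Agent.X168.BU.Glue
import Pool.Agent.X168.BU.Alt

/-! Gluing of differential forms given in coordinate systems. -/

set_option autoImplicit false

open Set Topology Filter
open scoped ContDiff Manifold

noncomputable section

namespace Pool.Agent.X168.BU

variable {d : ℕ}

/-- a family of coordinate systems of a manifold -/
structure Fam {X : Type} [TopologicalSpace X] [ChartedSpace (V d) X] {ι : Type}
    (U : ι → Set (V d)) (κ : ι → V d → X) : Prop where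
  op : ∀ i, IsOpen (U i)
  cov : ∀ p, ∃ i, ∃ z ∈ U i, κ i z = p
  sm : ∀ i, ∀ z ∈ U i, ContMDiffAt 𝓘(ℝ, V d) 𝓘(ℝ, V d) ∞ (κ i) z
  inv : ∀ i, ∀ z ∈ U i, ∃ g : X → V d, ContMDiffAt 𝓘(ℝ, V d) 𝓘(ℝ, V d) ∞ g (κ i z) ∧
    g (κ i z) = z ∧ (∀ᶠ p in 𝓝 (κ i z), κ i (g p) = p) ∧ ∀ᶠ t in 𝓝 z, g (κ i t) = t

variable {X : Type} [TopologicalSpace X] [ChartedSpace (V d) X]

theorem pb_comp {k : ℕ} (σ : Form d X k) {φ : V d → X} {κ : V d → X} {h : V d → V d} {p : V d}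
    (hκ : MDifferentiableAt 𝓘(ℝ, V d) 𝓘(ℝ, V d) κ (h p)) (hh : DifferentiableAt ℝ h p)
    (he : φ =ᶠ[𝓝 p] fun t => κ (h t)) :
    pb φ σ p = (pb κ σ (h p)).compContinuousLinearMap (fderiv ℝ h p) := by
  have hp : φ p = κ (h p) := he.eq_of_nhds
  have h1 : mfderiv 𝓘(ℝ, V d) 𝓘(ℝ, V d) φ p =
      (mfderiv 𝓘(ℝ, V d) 𝓘(ℝ, V d) κ (h p)).comp (fderiv ℝ h p) := by
    rw [he.mfderiv_eq]
    have h2 := mfderiv_comp p hκ hh.mdifferentiableAt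
    rw [mfderiv_eq_fderiv] at h2
    exact h2
  unfold pb
  rw [h1]
  ext v
  simp only [ContinuousAlternatingMap.compContinuousLinearMap_apply]
  rw [hp]
  rfl

theorem exists_form {ι : Type} {U : ι → Set (V d)} {κ : ι → V d → X} (hF : Fam U κ) {k : ℕ}
    (s : ι → V d → (V d) [⋀^Fin k]→L[ℝ] ℝ) (hs : ∀ i, ContDiffOn ℝ ∞ (s i) (U i))
    (hcl : ∀ i, ∀ z ∈ U i, extDeriv (s i) z = 0)
    (hc : ∀ i j, ∀ z ∈ U i, ∀ z' ∈ U j, κ i z = κ j z' → ∃ h : V d → V d,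
      ContDiffAt ℝ ∞ h z ∧ h z = z' ∧ (∀ᶠ t in 𝓝 z, κ i t = κ j (h t)) ∧
      s i z = (s j z').compContinuousLinearMap (fderiv ℝ h z)) :
    ∃ Ω : Form d X k, IsSmooth Ω ∧ IsClosedForm Ω ∧ ∀ i, ∀ z ∈ U i, pb (κ i) Ω z = s i z := by
  classical
  choose I Z hZ hZp using hF.cov
  have hinv : ∀ p : X, ∃ g : X → V d, ContMDiffAt 𝓘(ℝ, V d) 𝓘(ℝ, V d) ∞ g p ∧
      g p = Z p ∧ (∀ᶠ q in 𝓝 p, κ (I p) (g q) = q) ∧ ∀ᶠ t in 𝓝 (Z p), g (κ (I p) t) = t := by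
    intro p
    obtain ⟨g, h1, h2, h3, h4⟩ := hF.inv (I p) (Z p) (hZ p)
    rw [hZp] at h1 h2 h3
    exact ⟨g, h1, h2, h3, h4⟩
  choose G hG1 hG2 hG3 hG4 using hinv
  set Ω : Form d X k := fun p =>
    (s (I p) (Z p)).compContinuousLinearMap (mfderiv 𝓘(ℝ, V d) 𝓘(ℝ, V d) (G p) p) with hΩ
  have key : ∀ i, ∀ z ∈ U i, pb (κ i) Ω z = s i z := by
    intro i z hz
    obtain ⟨p, hp⟩ : ∃ p, p = κ i z := ⟨_, rfl⟩
    obtain ⟨h, h1, h2, h3, h4⟩ := hc i (I p) z hz (Z p) (hZ p) (by rw [hZp, hp])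
    have e1 : (fun t => G p (κ i t)) =ᶠ[𝓝 z] h := by
      have e2 : Tendsto h (𝓝 z) (𝓝 (Z p)) := by
        rw [← h2]; exact h1.continuousAt
      filter_upwards [h3, e2 (hG4 p)] with t a b
      rw [a]
      exact b
    have e3 : fderiv ℝ h z = (mfderiv 𝓘(ℝ, V d) 𝓘(ℝ, V d) (G p) (κ i z)).comp
        (mfderiv 𝓘(ℝ, V d) 𝓘(ℝ, V d) (κ i) z) := by
      have h5 : MDifferentiableAt 𝓘(ℝ, V d) 𝓘(ℝ, V d) (G p) (κ i z) := by
        rw [← hp]; exact (hG1 p).mdifferentiableAt (by simp)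
      have h6 : MDifferentiableAt 𝓘(ℝ, V d) 𝓘(ℝ, V d) (κ i) z :=
        (hF.sm i z hz).mdifferentiableAt (by simp)
      rw [← mfderiv_comp z h5 h6, ← mfderiv_eq_fderiv]
      exact e1.symm.mfderiv_eq
    rw [h4, e3]
    unfold pb
    rw [hΩ, ← hp]
    ext v
    rfl
  have loc : ∀ (W : Set (V d)) (φ : V d → X), IsOpen W →
      ContMDiffOn 𝓘(ℝ, V d) 𝓘(ℝ, V d) ∞ φ W → ∀ p ∈ W, ∃ (i : ι) (h : V d → V d),
      ContDiffAt ℝ ∞ h p ∧ h p ∈ U i ∧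
      pb φ Ω =ᶠ[𝓝 p] fun t => (s i (h t)).compContinuousLinearMap (fderiv ℝ h t) := by
    intro W φ hW hφ p hp
    set q : X := φ p with hq
    have hφp : ContMDiffAt 𝓘(ℝ, V d) 𝓘(ℝ, V d) ∞ φ p := hφ.contMDiffAt (hW.mem_nhds hp)
    have h1 : ContMDiffAt 𝓘(ℝ, V d) 𝓘(ℝ, V d) ∞ (fun t => G q (φ t)) p :=
      ContMDiffAt.comp p (hG1 q) hφp
    have h2 : ContDiffAt ℝ ∞ (fun t => G q (φ t)) p := h1.contDiffAt
    have hq2 : G q (φ p) = Z q := hG2 q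
    have h3 : ∀ᶠ t in 𝓝 p, κ (I q) (G q (φ t)) = φ t := hφp.continuousAt.eventually (hG3 q)
    have h4 : ∀ᶠ t in 𝓝 p, G q (φ t) ∈ U (I q) := by
      apply h2.continuousAt
      change U (I q) ∈ 𝓝 (G q (φ p))
      rw [hq2]
      exact (hF.op _).mem_nhds (hZ q)
    have h5 : ∀ᶠ t in 𝓝 p, DifferentiableAt ℝ (fun t => G q (φ t)) t := by
      have h6 : ContDiffAt ℝ 1 (fun t => G q (φ t)) p := h2.of_le (by simp)
      filter_upwards [h6.eventually (by simp)] with t ht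
      exact ht.differentiableAt (by simp)
    refine ⟨I q, fun t => G q (φ t), h2, ?_, ?_⟩
    · change G q (φ p) ∈ _
      rw [hq2]; exact hZ q
    · filter_upwards [h3.eventually_nhds, h4, h5] with t a b c
      rw [pb_comp Ω (κ := κ (I q)) (h := fun t => G q (φ t)) ((hF.sm _ _ b).mdifferentiableAt (by simp))
        c (a.mono fun _ h => h.symm)]
      rw [key _ _ b]
  refine ⟨Ω, ?_, ?_, key⟩
  · intro W φ hW hφ p hp
    obtain ⟨i, h, h1, h2, h3⟩ := loc W φ hW hφ p hp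
    have h4 : ContDiffAt ℝ ∞ (s i) (h p) := (hs i).contDiffAt ((hF.op i).mem_nhds h2)
    have h5 : ContDiffAt ℝ ∞ (fun t => (s i (h t)).compContinuousLinearMap (fderiv ℝ h t)) p := by
      have h6 : ContDiffAt ℝ ∞ (fun t => ((s i (h t), fderiv ℝ h t) :
          ((V d) [⋀^Fin k]→L[ℝ] ℝ) × (V d →L[ℝ] V d))) p :=
        (h4.comp p h1).prodMk (h1.fderiv_right (by simp))
      exact contDiff_pull.contDiffAt.comp p h6
    exact (h5.congr_of_eventuallyEq h3).contDiffWithinAt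
  · intro W φ hW hφ p hp
    obtain ⟨i, h, h1, h2, h3⟩ := loc W φ hW hφ p hp
    rw [h3.extDeriv_eq]
    have h4 : ContDiffAt ℝ ∞ (s i) (h p) := (hs i).contDiffAt ((hF.op i).mem_nhds h2)
    rw [extDeriv_pullback (h4.differentiableAt (by simp)) h1 (r := ∞)
      (by rw [minSmoothness_of_isRCLikeNormedField]; exact ENat.LEInfty.out), hcl i _ h2]
    ext v
    simp

end Pool.Agent.X168.BU
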