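import Pool.Agent.X168.BU.Disc

/-! The connected sum of a symplectic manifold and projective space is symplectic. -/

set_option autoImplicit false

open Set Filter Topology
open scoped Manifold ContDiff

noncomputable section

namespace Pool.Agent.X168.BU

variable {d : ℕ}

theorem exists_blow_sum (hd : 0 < d) {M : Type} [TopologicalSpace M] [T2Space M]
    [ChartedSpace (V d) M] [SmoothMfd d M] {η : Form d M 2} (hη : IsSymplectic η) (q : M) :
    ∃ (W : Type) (_ : TopologicalSpace W) (_ : ChartedSpace (V d) W) (a : V d → M) (i : M → W)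
      (j : CP d → W) (Ω : Form d W 2), SmoothMfd d W ∧ T2Space W ∧
      (CompactSpace M → CompactSpace W) ∧ a 0 = q ∧ (∀ u v, pb a η 0 ![u, v] = om u v) ∧
      IsConnectedSum a (aff none) i j ∧ IsSymplectic Ω ∧ ∀ x, x ∉ range a → ∀ u v,
      Ω (i x) ![mfderiv 𝓘(ℝ, V d) 𝓘(ℝ, V d) i x u, mfderiv 𝓘(ℝ, V d) 𝓘(ℝ, V d) i x v] =
        η x ![u, v] := by
  obtain ⟨a, ha, haq, ha0⟩ := exists_disc hη q
  obtain ⟨i, j, hs⟩ := exists_setSum hd (fun v w h => ha.injOn (mem_univ v) (mem_univ w) h)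
    (aff_injective (d := d) none)
  obtain ⟨iT, iC, hm, hT2, hcs, hc⟩ := exists_sum ha (isOpenEmb_aff none) hs
  obtain ⟨Ω, h1, h2⟩ := exists_blow hη hcs ha0
  exact ⟨SumSet a (aff none), iT, iC, a, i, j, Ω, hm, hT2, fun h => hc h inferInstance, haq, ha0,
    hcs, h1, h2⟩

end Pool.Agent.X168.BU
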