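import Pool.Agent.X168.BU.Main

/-! Definitions for the statement on connected sums with projective space. -/

set_option autoImplicit false

open Set Filter Topology
open scoped Manifold ContDiff

noncomputable section

namespace Pool.Agent.X168.BU

variable {d : ℕ}

/-- A closed manifold: smooth, Hausdorff, compact. (All manifolds here have no boundary.) -/
structure IsClosedMfd (d : ℕ) (X : Type) [TopologicalSpace X] [ChartedSpace (V d) X] : Prop where
  smooth : SmoothMfd d X
  t2 : T2Space X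
  compact : CompactSpace X

variable {M W : Type} [TopologicalSpace M] [ChartedSpace (V d) M]
  [TopologicalSpace W] [ChartedSpace (V d) W]

/-- The pull-back of `η` by the disc `a` is, at the origin, the standard linear symplectic form;
in particular the disc `a` preserves the orientations. -/
def IsStandardAtZero (a : V d → M) (η : Form d M 2) : Prop :=
  ∀ u v, pb a η 0 ![u, v] = om u v

/-- The map `i` pulls `Ω` back to `η` at every point outside the disc `a (ℂᵈ)`. -/
def AgreeOutside (a : V d → M) (i : M → W) (η : Form d M 2) (Ω : Form d W 2) : Prop :=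
  ∀ (U : Set (V d)) (φ : V d → M), IsOpen U → ContMDiffOn 𝓘(ℝ, V d) 𝓘(ℝ, V d) ∞ φ U →
    ∀ p ∈ U, φ p ∉ range a → pb (fun t => i (φ t)) Ω p = pb φ η p

theorem agreeOutside_of {a : V d → M} {i : M → W} {η : Form d M 2} {Ω : Form d W 2}
    (hi : IsOpenEmb d i {a 0}ᶜ)
    (h : ∀ x, x ∉ range a → ∀ u v : TangentSpace 𝓘(ℝ, V d) x,
      Ω (i x) ![mfderiv 𝓘(ℝ, V d) 𝓘(ℝ, V d) i x u, mfderiv 𝓘(ℝ, V d) 𝓘(ℝ, V d) i x v] =
        η x ![u, v]) : AgreeOutside a i η Ω := by
  intro U φ hU hφ p hp hpa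
  have h1 : MDifferentiableAt 𝓘(ℝ, V d) 𝓘(ℝ, V d) φ p :=
    (hφ.contMDiffAt (hU.mem_nhds hp)).mdifferentiableAt (by simp)
  have h2 : MDifferentiableAt 𝓘(ℝ, V d) 𝓘(ℝ, V d) i (φ p) :=
    (hi.ld (fun e => hpa ⟨0, (mem_singleton_iff.1 e).symm⟩)).1.mdifferentiableAt (by simp)
  have h3 : mfderiv 𝓘(ℝ, V d) 𝓘(ℝ, V d) (fun t => i (φ t)) p =
      (mfderiv 𝓘(ℝ, V d) 𝓘(ℝ, V d) i (φ p)).comp (mfderiv 𝓘(ℝ, V d) 𝓘(ℝ, V d) φ p) :=
    mfderiv_comp p h2 h1
  apply ext2
  intro u v
  rw [pb_apply, pb_apply, h3]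
  exact h (φ p) hpa _ _

variable (d) in
/-- The disc `v ↦ [v : 1]` of `ℂPᵈ`, which preserves the complex orientation. -/
def stdDisc (v : V d) : CP d := aff none v

variable (d) in
/-- The disc `v ↦ [conj v : 1]` of `ℂPᵈ`, which reverses the complex orientation if `d` is odd. -/
def conjDisc (v : V d) : CP d := aff none (conjV v)

end Pool.Agent.X168.BU
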