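import Pool.Agent.X168.BU.FS
import Pool.Agent.X168.BU.ConnSum

/-! The coordinates near infinity of projective space. -/

set_option autoImplicit false

open Set Filter Topology Finset
open scoped Manifold ContDiff ComplexConjugate

noncomputable section

namespace Pool.Agent.X168.BU

variable {d : ℕ}

theorem pull_Fs_scale {z : V d → V d} {t : V d → ℂ} {c : V d} (hz : DifferentiableAt ℝ z c)
    (ht : DifferentiableAt ℝ t c) (hz0 : z c ≠ 0) (ht0 : t c ≠ 0) :
    pull (fun x => t x • z x) Fs c = pull z Fs c := by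
  have h1 : HasFDerivAt (fun x => t x • z x)
      (t c • fderiv ℝ z c + (fderiv ℝ t c).smulRight (z c)) c :=
    ht.hasFDerivAt.smul hz.hasFDerivAt
  apply ext2
  intro x y
  rw [pull_apply, pull_apply, h1.fderiv]
  simp only [_root_.add_apply, _root_.smul_apply, ContinuousLinearMap.smulRight_apply]
  exact Fs_scale hz0 ht0 _ _ _ _

/-- the vector `(c₁, …, 1, …, c_d)` -/
def Zk (k : Fin d) (c : V d) : V d := Function.update c k 1

theorem Zk_ne (k : Fin d) (c : V d) : Zk k c ≠ 0 := by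
  intro h
  have := congrFun h k
  simp [Zk] at this

theorem Zk_self (k : Fin d) (c : V d) : Zk k c k = 1 := by simp [Zk]

theorem hvec_some (k : Fin d) (c : V d) : hvec (some k) c = (Zk k c, c k) := rfl

/-- the linear part of `Zk` -/
def Pk (k : Fin d) : V d →L[ℝ] V d :=
  ContinuousLinearMap.pi fun j => if j = k then 0 else ContinuousLinearMap.proj j

theorem Pk_apply (k : Fin d) (h : V d) : Pk k h = Function.update h k 0 := by
  funext j
  by_cases hj : j = k
  · subst hj; simp [Pk]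
  · simp [Pk, hj]

theorem hasFDerivAt_Zk (k : Fin d) (c : V d) : HasFDerivAt (Zk k) (Pk k) c := by
  rw [hasFDerivAt_pi']
  intro j
  by_cases hj : j = k
  · subst hj
    have h1 : (fun x : V d => Zk j x j) = fun _ => 1 := by
      funext x; exact Zk_self j x
    rw [h1]
    have h2 : (ContinuousLinearMap.proj j).comp (Pk j : V d →L[ℝ] V d) = 0 := by
      ext x; simp [Pk]
    rw [h2]
    exact hasFDerivAt_const _ _
  · have h1 : (fun x : V d => Zk k x j) = fun x => x j := by
      funext x; simp [Zk, Function.update_of_ne hj]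
    rw [h1]
    have h2 : (ContinuousLinearMap.proj j).comp (Pk k : V d →L[ℝ] V d) =
        ContinuousLinearMap.proj j := by
      ext x; simp [Pk, hj]
    rw [h2]
    exact hasFDerivAt_apply j c

theorem contDiff_Zk (k : Fin d) : ContDiff ℝ ∞ (Zk k : V d → V d) :=
  contDiff_fst.comp (contDiff_hvec (some k))

/-- the blow-down map in the coordinates near infinity of projective space -/
def bk (k : Fin d) (c : V d) : V d := inversion (aco none (hvec (some k) c))

theorem bk_eq (k : Fin d) (c : V d) : bk k c = (conj (c k) / (nsq (Zk k c) : ℂ)) • Zk k c := by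
  have hp := nsq_pos (Zk_ne k c)
  have h1 : aco none (hvec (some k) c) = (c k)⁻¹ • Zk k c := rfl
  unfold bk inversion
  rw [h1, nsq_smul]
  by_cases hc : c k = 0
  · simp [hc]
  · have h2 : (((‖c k‖ ^ 2 : ℝ)) : ℂ) = c k * conj (c k) := by
      rw [Complex.mul_conj, Complex.normSq_eq_norm_sq]
    have h3 : conj (c k) ≠ 0 := by simpa using hc
    have h4 : (nsq (Zk k c) : ℂ) ≠ 0 := by exact_mod_cast hp.ne'
    have h5 : ∀ (r : ℝ) (v : V d), r • v = (r : ℂ) • v := fun r v => by
      funext i; simp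
    rw [h5, smul_smul]
    congr 1
    rw [norm_inv]
    push_cast at h2 ⊢
    rw [inv_pow, h2]
    field_simp

theorem contDiff_tk (k : Fin d) :
    ContDiff ℝ ∞ (fun c : V d => conj (c k) / (nsq (Zk k c) : ℂ)) := by
  have h1 : ContDiff ℝ ∞ (fun c : V d => conj (c k)) :=
    Complex.conjCLE.contDiff.comp (contDiff_apply ℝ ℂ k)
  have h2 : ContDiff ℝ ∞ (fun c : V d => (nsq (Zk k c) : ℂ)) :=
    Complex.ofRealCLM.contDiff.comp (contDiff_nsq.comp (contDiff_Zk k))
  have h3 : ContDiff ℝ ∞ (fun c : V d => (nsq (Zk k c) : ℂ)⁻¹) :=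
    h2.inv fun c => by exact_mod_cast (nsq_pos (Zk_ne k c)).ne'
  simp only [div_eq_mul_inv]
  exact h1.mul h3

theorem contDiff_bk (k : Fin d) : ContDiff ℝ ∞ (bk k : V d → V d) := by
  have h : (bk k : V d → V d) = fun c => (conj (c k) / (nsq (Zk k c) : ℂ)) • Zk k c := by
    funext c; exact bk_eq k c
  rw [h]
  exact (contDiff_tk k).smul (contDiff_Zk k)

theorem fderiv_bk (k : Fin d) {c : V d} (hc : c k = 0) (h : V d) :
    fderiv ℝ (bk k) c h = (conj (h k) / (nsq (Zk k c) : ℂ)) • Zk k c := by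
  have e : (bk k : V d → V d) = fun c => (conj (c k) * (nsq (Zk k c) : ℂ)⁻¹) • Zk k c := by
    funext c; rw [bk_eq, div_eq_mul_inv]
  have h1 : HasFDerivAt (fun c : V d => conj (c k))
      ((Complex.conjCLE : ℂ →L[ℝ] ℂ).comp
        (ContinuousLinearMap.proj (R := ℝ) (φ := fun _ : Fin d => ℂ) k)) c :=
    ((Complex.conjCLE : ℂ →L[ℝ] ℂ).comp
      (ContinuousLinearMap.proj (R := ℝ) (φ := fun _ : Fin d => ℂ) k)).hasFDerivAt
  have h2 : DifferentiableAt ℝ (fun c : V d => (nsq (Zk k c) : ℂ)⁻¹) c := by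
    have h3 : ContDiff ℝ ∞ (fun c : V d => (nsq (Zk k c) : ℂ)) :=
      Complex.ofRealCLM.contDiff.comp (contDiff_nsq.comp (contDiff_Zk k))
    have h4 : ContDiff ℝ ∞ (fun c : V d => (nsq (Zk k c) : ℂ)⁻¹) :=
      h3.inv fun c => by exact_mod_cast (nsq_pos (Zk_ne k c)).ne'
    exact h4.contDiffAt.differentiableAt (by simp)
  have h5 : HasFDerivAt (fun c : V d => conj (c k) * (nsq (Zk k c) : ℂ)⁻¹) _ c :=
    h1.mul h2.hasFDerivAt
  have h6 : HasFDerivAt (fun c : V d => (conj (c k) * (nsq (Zk k c) : ℂ)⁻¹) • Zk k c) _ c :=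
    HasFDerivAt.smul (𝕜' := ℂ) h5 (hasFDerivAt_Zk k c)
  rw [← e] at h6
  rw [h6.fderiv]
  simp [hc, div_eq_mul_inv, mul_comm]

/-- the transition maps -/
def Hk (k l : Fin d) (c : V d) : V d := aco (some l) (hvec (some k) c)

theorem contDiffAt_Hk {k l : Fin d} {c : V d} (h : Zk k c l ≠ 0) :
    ContDiffAt ℝ ∞ (Hk k l : V d → V d) c :=
  (contDiffOn_trans (some l) (some k)).contDiffAt ((isOpen_trans (some l) (some k)).mem_nhds h)

theorem Zk_Hk {k l : Fin d} {c : V d} (h : Zk k c l ≠ 0) :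
    Zk l (Hk k l c) = (Zk k c l)⁻¹ • Zk k c := by
  have h1 : hvec (some k) c = hco (some l) (hvec (some k) c) •
      hvec (some l) (aco (some l) (hvec (some k) c)) := hvec_aco (some l) h
  have h2 : Zk k c = Zk k c l • Zk l (Hk k l c) := congrArg Prod.fst h1
  rw [eq_inv_smul_iff₀ h]
  exact h2.symm

theorem bk_Hk {k l : Fin d} {c : V d} (h : Zk k c l ≠ 0) : bk l (Hk k l c) = bk k c := by
  have h1 : hvec (some k) c = hco (some l) (hvec (some k) c) •
      hvec (some l) (aco (some l) (hvec (some k) c)) := hvec_aco (some l) h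
  unfold bk Hk
  congr 1
  conv_rhs => rw [h1]
  exact (aco_smul none (show hco (some l) (hvec (some k) c) ≠ 0 from h) _).symm

theorem eventually_Zk {k l : Fin d} {c : V d} (h : Zk k c l ≠ 0) :
    ∀ᶠ x in 𝓝 c, Zk k x l ≠ 0 :=
  (isOpen_trans (some l) (some k)).mem_nhds h

/-- the blown-up form near infinity -/
def sC (A : V d → (V d) [⋀^Fin 2]→L[ℝ] ℝ) (ε : ℝ) (k : Fin d) (c : V d) :
    (V d) [⋀^Fin 2]→L[ℝ] ℝ := pull (bk k) A c + ε • pull (Zk k) Fs c

variable {A : V d → (V d) [⋀^Fin 2]→L[ℝ] ℝ} {ε : ℝ}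

theorem contDiffAt_Fs {v : V d} (hv : v ≠ 0) : ContDiffAt ℝ ∞ (Fs : V d → _) v :=
  contDiffAt_Lam (contDiffAt_inv' (nsq_pos hv))

theorem closed_Fs {v : V d} (hv : v ≠ 0) : extDeriv (Fs : V d → _) v = 0 :=
  closed_Lam (contDiffAt_inv' (nsq_pos hv))

theorem contDiff_sC (hA : ContDiff ℝ ∞ A) (k : Fin d) : ContDiff ℝ ∞ (sC A ε k) := by
  rw [contDiff_iff_contDiffAt]
  intro c
  have h1 : ContDiffAt ℝ ∞ (pull (bk k) A) c :=
    contDiffAt_pull (contDiff_bk k).contDiffAt hA.contDiffAt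
  have h2 : ContDiffAt ℝ ∞ (pull (Zk k) (Fs : V d → _)) c :=
    contDiffAt_pull (contDiff_Zk k).contDiffAt (contDiffAt_Fs (Zk_ne k c))
  exact h1.add (h2.const_smul ε)

theorem extDeriv_add' {s t : V d → (V d) [⋀^Fin 2]→L[ℝ] ℝ} {v : V d} {r : ℝ}
    (hs : ContDiffAt ℝ ∞ s v) (ht : ContDiffAt ℝ ∞ t v) (h1 : extDeriv s v = 0)
    (h2 : extDeriv t v = 0) : extDeriv (fun x => s x + r • t x) v = 0 := by
  have h3 : DifferentiableAt ℝ s v := hs.differentiableAt (by simp)
  have h4 : DifferentiableAt ℝ t v := ht.differentiableAt (by simp)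
  have h5 : extDeriv (s + r • t) v = extDeriv s v + r • extDeriv t v := by
    rw [extDeriv_add h3 (h4.const_smul r), extDeriv_smul]
  change extDeriv (s + r • t) v = 0
  rw [h5, h1, h2]
  simp

theorem closed_sC (hA : ContDiff ℝ ∞ A) (hc : ∀ v, extDeriv A v = 0) (k : Fin d) (c : V d) :
    extDeriv (sC A ε k) c = 0 := by
  have h1 : ContDiffAt ℝ ∞ (pull (bk k) A) c :=
    contDiffAt_pull (contDiff_bk k).contDiffAt hA.contDiffAt
  have h2 : ContDiffAt ℝ ∞ (pull (Zk k) (Fs : V d → _)) c :=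
    contDiffAt_pull (contDiff_Zk k).contDiffAt (contDiffAt_Fs (Zk_ne k c))
  exact extDeriv_add' h1 h2 (closed_pull (contDiff_bk k).contDiffAt hA.contDiffAt (hc _))
    (closed_pull (contDiff_Zk k).contDiffAt (contDiffAt_Fs (Zk_ne k c)) (closed_Fs (Zk_ne k c)))

theorem sC_trans {k l : Fin d} {c : V d} (h : Zk k c l ≠ 0) :
    sC A ε k c = pull (Hk k l) (sC A ε l) c := by
  have hH : DifferentiableAt ℝ (Hk k l : V d → V d) c :=
    (contDiffAt_Hk h).differentiableAt (by simp)
  have e1 : pull (bk k) A c = (pull (bk l) A (Hk k l c)).compContinuousLinearMap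
      (fderiv ℝ (Hk k l) c) :=
    pull_comp ((contDiff_bk l).contDiffAt.differentiableAt (by simp)) hH
      ((eventually_Zk h).mono fun x hx => (bk_Hk hx).symm)
  have e2 : pull (fun x => (Zk k x l)⁻¹ • Zk k x) Fs c =
      (pull (Zk l) Fs (Hk k l c)).compContinuousLinearMap (fderiv ℝ (Hk k l) c) :=
    pull_comp ((contDiff_Zk l).contDiffAt.differentiableAt (by simp)) hH
      ((eventually_Zk h).mono fun x hx => (Zk_Hk hx).symm)
  have h3 : ContDiff ℝ ∞ (fun x : V d => Zk k x l) :=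
    (contDiff_apply ℝ ℂ l).comp (contDiff_Zk k)
  have e3 : pull (fun x => (Zk k x l)⁻¹ • Zk k x) Fs c = pull (Zk k) Fs c := by
    refine pull_Fs_scale ((contDiff_Zk k).contDiffAt.differentiableAt (by simp)) ?_ (Zk_ne k c)
      (inv_ne_zero h)
    exact (h3.contDiffAt.inv h).differentiableAt (by simp)
  unfold sC
  rw [e1, ← e3, e2]
  ext v
  simp [pull]

theorem sC_sB {k : Fin d} {c : V d} (h : c k ≠ 0) :
    sC A ε k c = pull (bk k) (fun v => A v + ε • Fs v) c := by
  have e : (bk k : V d → V d) = fun c => (conj (c k) / (nsq (Zk k c) : ℂ)) • Zk k c := by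
    funext c; exact bk_eq k c
  have h2 : pull (bk k) Fs c = pull (Zk k) Fs c := by
    rw [e]
    refine pull_Fs_scale ((contDiff_Zk k).contDiffAt.differentiableAt (by simp))
      ((contDiff_tk k).contDiffAt.differentiableAt (by simp)) (Zk_ne k c) ?_
    refine div_ne_zero (by simpa using h) ?_
    exact_mod_cast (nsq_pos (Zk_ne k c)).ne'
  unfold sC
  rw [← h2]
  ext v
  simp [pull]

theorem Fs_tame {v : V d} (hv : v ≠ 0) (h : V d) :
    Fs v ![h, Complex.I • h] = (nsq v * nsq h - ‖hm v h‖ ^ 2) / nsq v ^ 2 := by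
  have hp := nsq_pos hv
  unfold Fs
  rw [Lam_tame (contDiffAt_inv' hp), deriv_inv]
  field_simp
  ring

theorem om_smul_I (u : V d) : om u (Complex.I • u) = nsq u := om_I u

theorem bk_zero {k : Fin d} {c : V d} (hc : c k = 0) : bk k c = 0 := by
  rw [bk_eq, hc]; simp

/-- nondegeneracy at the points of the exceptional divisor -/
theorem nondeg_sC (hε : 0 < ε) (h0 : ∀ h k, A 0 ![h, k] = om h k) {k : Fin d} {c : V d}
    (hc : c k = 0) (h : V d) (hh : ∀ g, sC A ε k c ![h, g] = 0) : h = 0 := by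
  have hZ := Zk_ne k c
  have hp := nsq_pos hZ
  set g : V d := Function.update (Complex.I • h) k (-Complex.I * h k) with hg
  set h' : V d := Function.update h k 0 with hh'
  have h1 := hh g
  have e1 : Pk k g = Complex.I • h' := by
    rw [Pk_apply]
    funext j
    by_cases hj : j = k
    · subst hj; simp [hh']
    · simp [hh', hg, Function.update_of_ne hj]
  have e2 : Pk k h = h' := Pk_apply k h
  set u : V d := (conj (h k) / (nsq (Zk k c) : ℂ)) • Zk k c with hu
  have e3 : fderiv ℝ (bk k) c g = Complex.I • u := by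
    rw [fderiv_bk k hc, hu, smul_smul]
    congr 1
    simp [hg]
    ring
  have e4 : fderiv ℝ (bk k) c h = u := fderiv_bk k hc h
  have h2 : sC A ε k c ![h, g] = nsq u + ε * ((nsq (Zk k c) * nsq h' - ‖hm (Zk k c) h'‖ ^ 2) /
      nsq (Zk k c) ^ 2) := by
    unfold sC
    rw [ContinuousAlternatingMap.add_apply, ContinuousAlternatingMap.smul_apply, pull_apply, pull_apply, e3, e4, bk_zero hc,
      h0, om_I, (hasFDerivAt_Zk k c).fderiv, e1, e2, Fs_tame hZ, smul_eq_mul]
  rw [h1] at h2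
  have h3 : hm (Zk k c) h' = hm (Function.update c k 0) h' := by
    unfold hm
    refine Finset.sum_congr rfl fun j _ => ?_
    by_cases hj : j = k
    · subst hj; simp [hh']
    · simp [Zk, Function.update_of_ne hj]
  have h4 : nsq (Zk k c) = nsq (Function.update c k 0) + 1 := by
    unfold nsq
    have a1 : ∀ z : V d, ∑ i, ‖z i‖ ^ 2 = ‖z k‖ ^ 2 + ∑ i ∈ Finset.univ.erase k, ‖z i‖ ^ 2 :=
      fun z => (Finset.add_sum_erase _ _ (Finset.mem_univ k)).symm
    rw [a1, a1 (Function.update c k 0), Zk_self]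
    have a2 : ∑ i ∈ Finset.univ.erase k, ‖Zk k c i‖ ^ 2 =
        ∑ i ∈ Finset.univ.erase k, ‖(Function.update c k 0 : V d) i‖ ^ 2 := by
      refine Finset.sum_congr rfl fun j hj => ?_
      have hjk : j ≠ k := Finset.ne_of_mem_erase hj
      simp [Zk, Function.update_of_ne hjk]
    rw [a2]
    simp
    ring
  have h5 := cauchy (Function.update c k 0) h'
  have h6 : nsq h' ≤ nsq (Zk k c) * nsq h' - ‖hm (Zk k c) h'‖ ^ 2 := by
    rw [h3, h4]
    linarith
  have h7 : 0 ≤ nsq u := nsq_nonneg u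
  have h8 : 0 ≤ nsq h' := nsq_nonneg h'
  have h9 : 0 ≤ (nsq (Zk k c) * nsq h' - ‖hm (Zk k c) h'‖ ^ 2) / nsq (Zk k c) ^ 2 :=
    div_nonneg (h8.trans h6) (by positivity)
  have h10 : nsq u = 0 := by nlinarith
  have h11 : (nsq (Zk k c) * nsq h' - ‖hm (Zk k c) h'‖ ^ 2) / nsq (Zk k c) ^ 2 = 0 := by
    rw [h10, zero_add] at h2
    have := mul_eq_zero.1 h2.symm
    exact this.resolve_left hε.ne'
  have h12 : nsq h' = 0 := by
    rw [div_eq_zero_iff] at h11
    rcases h11 with h11 | h11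
    · linarith
    · exact absurd h11 (by positivity)
  have h13 : h' = 0 := nsq_eq_zero.1 h12
  have h14 : u = 0 := nsq_eq_zero.1 h10
  have h15 : h k = 0 := by
    have := congrFun h14 k
    rw [hu] at this
    simp only [Pi.smul_apply, Zk_self, smul_eq_mul, mul_one, Pi.zero_apply, div_eq_zero_iff] at this
    rcases this with h | h
    · simpa using h
    · exact absurd h (by exact_mod_cast hp.ne')
  funext j
  by_cases hj : j = k
  · subst hj; exact h15
  · have := congrFun h13 j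
    simpa [hh', Function.update_of_ne hj] using this

end Pool.Agent.X168.BU
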